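import Pool.Agent.H70.Afd.Local

open Set Filter Topology

namespace Pool.Agent.H70.Afd

noncomputable section

set_option linter.unusedSectionVars false

variable {V : Type*} [NormedAddCommGroup V] [NormedSpace ℝ V] [FiniteDimensional ℝ V]
variable {P : Type*} [NormedAddCommGroup P] [NormedSpace ℝ P] [FiniteDimensional ℝ P]
variable {Q : V → V} {DQ : V →L[ℝ] V →L[ℝ] V}
variable {T : V × P →L[ℝ] (V →L[ℝ] V)} {ε : ℝ} {f : V × P → V} {D : V × P → V →L[ℝ] V}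

/-- the signed number of preimages of suitable values near the critical value -/
theorem near_count (hQ : IsQuad Q DQ) {μ : ℝ} (hμ0 : 0 < μ) (hμ : ∀ x, μ * ‖x‖ ^ 2 ≤ ‖Q x‖)
    (c : V) (hreg : ∀ x, Q x = c → (DQ x).det ≠ 0) (κ : ℤ)
    (hsum : ∑ᶠ x ∈ {x | Q x = c}, (SignType.sign (DQ x).det : ℤ) = κ) :
    ∃ ε₀ : ℝ, 0 < ε₀ ∧ ∀ (ε : ℝ) (f : V × P → V) (D : V × P → V →L[ℝ] V), 0 ≤ ε → ε ≤ ε₀ →
      Near Q DQ T ε f D → ∀ x₀ : V, ∀ b₀ : P, ‖x₀‖ ≤ 1 / 4 → D (x₀, b₀) = 0 →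
      ∀ ν : ℝ, 0 < ν → ∃ O : Set (V × P), IsOpen O ∧ O.Nonempty ∧
        O ⊆ Metric.ball (f (x₀, b₀), b₀) ν ∧ ∀ y ∈ O,
        ∑ᶠ x ∈ {x | ‖x - x₀‖ ≤ 1 / 2 ∧ f (x, y.2) = y.1},
          (SignType.sign (D (x, y.2)).det : ℤ) = κ := by
  -- the radius
  obtain ⟨R, hR1, hR2⟩ : ∃ R : ℝ, 1 ≤ R ∧ 2 * ‖c‖ < μ * R ^ 2 := by
    refine ⟨1 + 2 * ‖c‖ / μ, ?_, ?_⟩
    · have : 0 ≤ 2 * ‖c‖ / μ := by positivity
      linarith
    · have h1 : 0 ≤ 2 * ‖c‖ / μ := by positivity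
      have h2 : 2 * ‖c‖ = μ * (2 * ‖c‖ / μ) := by field_simp
      have h3 : 2 * ‖c‖ / μ < (1 + 2 * ‖c‖ / μ) ^ 2 := by nlinarith
      calc 2 * ‖c‖ = μ * (2 * ‖c‖ / μ) := h2
        _ < _ := by gcongr
  have hR0 : 0 < R := by linarith
  have hsmall : ∀ x, Q x = c → ‖x‖ < R := by
    intro x hx
    by_contra hcon
    push Not at hcon
    have h1 := hμ x
    rw [hx] at h1
    have h2 : μ * R ^ 2 ≤ μ * ‖x‖ ^ 2 := by gcongr
    linarith [norm_nonneg c]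
  obtain ⟨ε₁, hε₁, hst⟩ := stable_count (fun x => Q x - c) (fun x => DQ x)
    (fun x => (hQ.hasFDerivAt x).sub_const c) DQ.continuous R
    (fun x _ hx => hreg x (sub_eq_zero.1 hx)) (fun x _ hx => hsmall x (sub_eq_zero.1 hx))
  have hset : {x | ‖x‖ ≤ R ∧ Q x - c = 0} = {x | Q x = c} := by
    ext x
    constructor
    · rintro ⟨_, h2⟩; exact sub_eq_zero.1 h2
    · intro h2; exact ⟨(hsmall x h2).le, sub_eq_zero.2 h2⟩
  rw [hset, hsum] at hst
  refine ⟨min (μ / 16) (ε₁ / (4 * R ^ 2)), lt_min (by positivity) (by positivity), ?_⟩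
  intro ε f D hε0 hε h x₀ b₀ hx₀ hD ν hν
  have hεμ : ε ≤ μ / 16 := hε.trans (min_le_left _ _)
  have hεR : ε * (4 * R ^ 2) ≤ ε₁ := by
    have := hε.trans (min_le_right _ _)
    rwa [le_div_iff₀ (by positivity)] at this
  -- the small number `θ`
  obtain ⟨θ, hθ0, hθ1, hθ2⟩ : ∃ θ : ℝ, 0 < θ ∧ θ ≤ μ / 16 ∧ θ * (4 * R ^ 2) ≤ ε₁ :=
    ⟨min (μ / 16) (ε₁ / (4 * R ^ 2)), lt_min (by positivity) (by positivity), min_le_left _ _, by
      have : min (μ / 16) (ε₁ / (4 * R ^ 2)) ≤ ε₁ / (4 * R ^ 2) := min_le_right _ _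
      rwa [le_div_iff₀ (by positivity)] at this⟩
  -- the scale
  obtain ⟨ρ, hρ0, hρR, hρc⟩ : ∃ ρ : ℝ, 0 < ρ ∧ ρ * R ≤ 1 / 2 ∧ ρ ^ 2 * ‖c‖ < ν := by
    have e1 : ∀ᶠ ρ in 𝓝[>] (0 : ℝ), ρ * R < 1 / 2 := by
      have hc1 : Continuous fun ρ : ℝ => ρ * R := by fun_prop
      have h2 := hc1.tendsto 0
      rw [zero_mul] at h2
      exact (h2.eventually (gt_mem_nhds (by norm_num))).filter_mono nhdsWithin_le_nhds
    have e2 : ∀ᶠ ρ in 𝓝[>] (0 : ℝ), ρ ^ 2 * ‖c‖ < ν := by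
      have hc1 : Continuous fun ρ : ℝ => ρ ^ 2 * ‖c‖ := by fun_prop
      have h2 := hc1.tendsto 0
      simp only [ne_eq, OfNat.ofNat_ne_zero, not_false_eq_true, zero_pow, zero_mul] at h2
      exact (h2.eventually (gt_mem_nhds hν)).filter_mono nhdsWithin_le_nhds
    have e3 : ∀ᶠ ρ in 𝓝[>] (0 : ℝ), 0 < ρ := eventually_mem_nhdsWithin
    obtain ⟨ρ, h1, h2, h3⟩ := (e1.and (e2.and e3)).exists
    exact ⟨ρ, h3, h1.le, h2⟩
  set y₀ := f (x₀, b₀) with hy₀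
  -- the open set
  have hfx : Continuous fun y : V × P => f (x₀, y.2) :=
    h.cf.comp (continuous_const.prodMk continuous_snd)
  have hDx : Continuous fun y : V × P => D (x₀, y.2) :=
    h.cD.comp (continuous_const.prodMk continuous_snd)
  have hφ1 : Continuous (fun y : V × P => ‖(ρ⁻¹ ^ 2) • (y.1 - y₀) - c‖) := by fun_prop
  have hφ2 : Continuous (fun y : V × P => ‖(ρ⁻¹ ^ 2) • (f (x₀, y.2) - y₀)‖) := by
    have e1 : Continuous (fun y : V × P => f (x₀, y.2) - y₀) := hfx.sub continuous_const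
    exact (e1.const_smul (ρ⁻¹ ^ 2)).norm
  have hφ3 : Continuous (fun y : V × P => ‖ρ⁻¹ • D (x₀, y.2)‖) := by
    have e1 : Continuous (fun y : V × P => ρ⁻¹ • D (x₀, y.2)) := hDx.const_smul ρ⁻¹
    exact e1.norm
  let O : Set (V × P) := Metric.ball (y₀, b₀) ν ∩
    ((fun y : V × P => ‖(ρ⁻¹ ^ 2) • (y.1 - y₀) - c‖) ⁻¹' Iio θ ∩
      ((fun y : V × P => ‖(ρ⁻¹ ^ 2) • (f (x₀, y.2) - y₀)‖) ⁻¹' Iio θ ∩
      (fun y : V × P => ‖ρ⁻¹ • D (x₀, y.2)‖) ⁻¹' Iio θ))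
  refine ⟨O, ?_, ?_, inter_subset_left, ?_⟩
  · exact Metric.isOpen_ball.inter ((isOpen_Iio.preimage hφ1).inter
      ((isOpen_Iio.preimage hφ2).inter (isOpen_Iio.preimage hφ3)))
  · refine ⟨(y₀ + ρ ^ 2 • c, b₀), ?_, ?_, ?_, ?_⟩
    · rw [Metric.mem_ball, Prod.dist_eq, dist_self, dist_eq_norm, add_sub_cancel_left, norm_smul,
        norm_pow, Real.norm_eq_abs, abs_of_pos hρ0]
      exact max_lt hρc hν
    · show ‖(ρ⁻¹ ^ 2) • (y₀ + ρ ^ 2 • c - y₀) - c‖ < θ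
      rw [add_sub_cancel_left, smul_smul, ← mul_pow, inv_mul_cancel₀ hρ0.ne', one_pow, one_smul,
        sub_self, norm_zero]
      exact hθ0
    · show ‖(ρ⁻¹ ^ 2) • (f (x₀, b₀) - y₀)‖ < θ
      rw [hy₀, sub_self, smul_zero, norm_zero]
      exact hθ0
    · show ‖ρ⁻¹ • D (x₀, b₀)‖ < θ
      rw [hD, smul_zero, norm_zero]
      exact hθ0
  · rintro ⟨y1, b⟩ ⟨-, hy1, hy2, hy3⟩
    simp only [mem_preimage, mem_Iio] at hy1 hy2 hy3 ⊢
    -- the rescaled map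
    set G : V → V := fun x => (ρ⁻¹ ^ 2) • (f (x₀ + ρ • x, b) - y1) with hG
    set G' : V → V →L[ℝ] V := fun x => ρ⁻¹ • D (x₀ + ρ • x, b) with hG'
    have hGd : ∀ x, HasFDerivAt G (G' x) x := by
      intro x
      have e1 : HasFDerivAt (fun x : V => x₀ + ρ • x) (ρ • ContinuousLinearMap.id ℝ V) x :=
        ((hasFDerivAt_id x).const_smul ρ).const_add x₀
      have e2 := (((h.der (x₀ + ρ • x) b).comp x e1).sub_const y1).const_smul (ρ⁻¹ ^ 2)
      refine e2.congr_fderiv ?_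
      ext v
      simp only [hG', smul_apply, ContinuousLinearMap.comp_apply,
        ContinuousLinearMap.id_apply, map_smul, smul_smul]
      congr 1
      field_simp
    have hGclose : ∀ x, ‖ρ • x‖ ≤ 1 →
        ‖G x - (Q x - c)‖ ≤ ε * ‖x‖ ^ 2 + θ + θ * ‖x‖ + θ := by
      intro x hx
      have e2 := h.star hQ hε0 x₀ (ρ • x) b (by linarith) hx
      have e3 : G x - (Q x - c) = (ρ⁻¹ ^ 2) • (f (x₀ + ρ • x, b) - f (x₀, b) -
          D (x₀, b) (ρ • x) - Q (ρ • x)) + (ρ⁻¹ ^ 2) • (f (x₀, b) - y₀) + (ρ⁻¹ • D (x₀, b)) x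
          - ((ρ⁻¹ ^ 2) • (y1 - y₀) - c) := by
        rw [hG]
        simp only
        rw [hQ.smul, map_smul, smul_apply]
        have e4 : ρ⁻¹ ^ 2 * ρ ^ 2 = 1 := by rw [← mul_pow, inv_mul_cancel₀ hρ0.ne', one_pow]
        have e5 : ρ⁻¹ ^ 2 * ρ = ρ⁻¹ := by field_simp
        simp only [smul_sub, smul_smul, e4, e5]
        module
      rw [e3]
      refine (norm_sub_le _ _).trans (add_le_add ((norm_add_le _ _).trans (add_le_add
        ((norm_add_le _ _).trans (add_le_add ?_ hy2.le)) ?_)) hy1.le)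
      · rw [norm_smul, norm_pow, norm_inv, Real.norm_eq_abs, abs_of_pos hρ0]
        calc ρ⁻¹ ^ 2 * _ ≤ ρ⁻¹ ^ 2 * (ε * ‖ρ • x‖ ^ 2) := by gcongr
          _ = ε * ‖x‖ ^ 2 := by
            rw [norm_smul, Real.norm_eq_abs, abs_of_pos hρ0]; field_simp
      · exact (ContinuousLinearMap.le_opNorm _ _).trans (by gcongr)
    have hG'close : ∀ x, ‖ρ • x‖ ≤ 1 → ‖G' x - DQ x‖ ≤ ε * ‖x‖ + θ := by
      intro x hx
      have e1 := h.lip x₀ (x₀ + ρ • x) b (by linarith) ((norm_add_le _ _).trans (by linarith))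
      rw [add_sub_cancel_left] at e1
      have e2 : G' x - DQ x = ρ⁻¹ • (D (x₀ + ρ • x, b) - D (x₀, b) - DQ (ρ • x))
          + ρ⁻¹ • D (x₀, b) := by
        rw [hG']
        simp only
        rw [map_smul]
        have e4 : ρ⁻¹ * ρ = 1 := inv_mul_cancel₀ hρ0.ne'
        simp only [smul_sub, smul_smul, e4]
        module
      rw [e2]
      refine (norm_add_le _ _).trans (add_le_add ?_ hy3.le)
      rw [norm_smul, norm_inv, Real.norm_eq_abs, abs_of_pos hρ0]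
      calc ρ⁻¹ * _ ≤ ρ⁻¹ * (ε * ‖ρ • x‖) := by gcongr
        _ = ε * ‖x‖ := by rw [norm_smul, Real.norm_eq_abs, abs_of_pos hρ0]; field_simp
    have hball : ∀ x : V, ‖x‖ ≤ R → ‖ρ • x‖ ≤ 1 := by
      intro x hx
      rw [norm_smul, Real.norm_eq_abs, abs_of_pos hρ0]
      calc ρ * ‖x‖ ≤ ρ * R := by gcongr
        _ ≤ 1 := by linarith
    have hR11 : 1 ≤ R ^ 2 := one_le_pow₀ hR1
    have hRR : R ≤ R ^ 2 := by
      calc R = R * 1 := by ring
        _ ≤ R * R := by gcongr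
        _ = R ^ 2 := by ring
    have hcount := hst G G' hGd
      (by
        intro x hx
        refine (hGclose x (hball x hx)).trans ?_
        have e1 : ε * ‖x‖ ^ 2 ≤ ε * R ^ 2 := by gcongr
        have e2 : θ * ‖x‖ ≤ θ * R ^ 2 := by gcongr; linarith
        have e3 : θ * 1 ≤ θ * R ^ 2 := by gcongr
        linarith)
      (by
        intro x hx
        refine (hG'close x (hball x hx)).trans ?_
        have e1 : ε * ‖x‖ ≤ ε * R ^ 2 := by gcongr; linarith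
        have e3 : θ * 1 ≤ θ * R ^ 2 := by gcongr
        have e4 : 0 ≤ ε * R ^ 2 := by positivity
        have e5 : 0 ≤ θ * R ^ 2 := by positivity
        linarith)
    -- transfer
    have himg : {x | ‖x - x₀‖ ≤ 1 / 2 ∧ f (x, b) = y1} =
        (fun x => x₀ + ρ • x) '' {x | ‖x‖ ≤ R ∧ G x = 0} := by
      ext x
      constructor
      · rintro ⟨hx1, hx2⟩
        have hxρ : ρ • (ρ⁻¹ • (x - x₀)) = x - x₀ := by
          rw [smul_smul, mul_inv_cancel₀ hρ0.ne', one_smul]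
        refine ⟨ρ⁻¹ • (x - x₀), ⟨?_, ?_⟩, ?_⟩
        · by_contra hcon
          push Not at hcon
          set z := ρ⁻¹ • (x - x₀) with hz
          have hGz : G z = 0 := by
            rw [hG]
            simp only
            rw [hxρ, add_sub_cancel, hx2, sub_self, smul_zero]
          have e1 := hGclose z (by rw [hxρ]; linarith)
          rw [hGz, zero_sub, norm_neg] at e1
          have e2 := hμ z
          have hz1 : 1 ≤ ‖z‖ := hR1.trans hcon.le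
          have hz2 : ‖z‖ ≤ ‖z‖ ^ 2 := by
            calc ‖z‖ = ‖z‖ * 1 := by ring
              _ ≤ ‖z‖ * ‖z‖ := by gcongr
              _ = ‖z‖ ^ 2 := by ring
          have e3 : ‖Q z‖ ≤ ‖Q z - c‖ + ‖c‖ := by
            calc ‖Q z‖ = ‖(Q z - c) + c‖ := by rw [sub_add_cancel]
              _ ≤ _ := norm_add_le _ _
          have e4 : ε * ‖z‖ ^ 2 ≤ μ / 16 * ‖z‖ ^ 2 := by gcongr
          have e5 : θ * ‖z‖ ≤ μ / 16 * ‖z‖ ^ 2 := by gcongr
          have e6 : θ * 1 ≤ μ / 16 * ‖z‖ ^ 2 := by gcongr; linarith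
          have e7 : μ * R ^ 2 ≤ μ * ‖z‖ ^ 2 := by gcongr
          have e8 : μ / 16 * ‖z‖ ^ 2 = μ * ‖z‖ ^ 2 / 16 := by ring
          rw [e8] at e4 e5 e6
          have e9 : 0 < μ * ‖z‖ ^ 2 := by positivity
          linarith
        · rw [hG]
          simp only
          rw [hxρ, add_sub_cancel, hx2, sub_self, smul_zero]
        · simp only
          rw [hxρ, add_sub_cancel]
      · rintro ⟨z, ⟨hz1, hz2⟩, rfl⟩
        constructor
        · simp only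
          rw [add_sub_cancel_left, norm_smul, Real.norm_eq_abs, abs_of_pos hρ0]
          calc ρ * ‖z‖ ≤ ρ * R := by gcongr
            _ ≤ 1 / 2 := hρR
        · rw [hG] at hz2
          simp only at hz2
          have h1 := (smul_eq_zero.1 hz2).resolve_left (by positivity)
          exact sub_eq_zero.1 h1
    have hinj : InjOn (fun x : V => x₀ + ρ • x) {x | ‖x‖ ≤ R ∧ G x = 0} := by
      intro x _ x' _ hxx
      have h1 : ρ • x = ρ • x' := add_left_cancel hxx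
      exact smul_right_injective V hρ0.ne' h1
    rw [himg, finsum_mem_image hinj, ← hcount]
    refine finsum_mem_congr rfl fun x _ => ?_
    have hdet : (G' x).det = ρ⁻¹ ^ (Module.finrank ℝ V) * (D (x₀ + ρ • x, b)).det := by
      show LinearMap.det ((ρ⁻¹ • D (x₀ + ρ • x, b) : V →L[ℝ] V) : V →ₗ[ℝ] V) = _
      have : ((ρ⁻¹ • D (x₀ + ρ • x, b) : V →L[ℝ] V) : V →ₗ[ℝ] V) =
        ρ⁻¹ • ((D (x₀ + ρ • x, b) : V →L[ℝ] V) : V →ₗ[ℝ] V) := rfl
      rw [this, LinearMap.det_smul]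
    have hρn : 0 < ρ⁻¹ ^ (Module.finrank ℝ V) := pow_pos (inv_pos.2 hρ0) _
    rw [hdet, sign_mul, sign_pos hρn, one_mul]

end

end Pool.Agent.H70.Afd
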