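import Pool.Agent.H70.Afd.Local

open Set Filter Topology

namespace Pool.Agent.H70.Afd

noncomputable section

set_option linter.unusedSectionVars false

variable {V : Type*} [NormedAddCommGroup V] [NormedSpace ℝ V] [FiniteDimensional ℝ V]
variable {P : Type*} [NormedAddCommGroup P] [NormedSpace ℝ P] [FiniteDimensional ℝ P]
variable {Q : V → V} {DQ : V →L[ℝ] V →L[ℝ] V}
variable {T : V × P →L[ℝ] (V →L[ℝ] V)} {ε : ℝ} {f : V × P → V} {D : V × P → V →L[ℝ] V}

/-- local surjectivity -/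
theorem near_surj (hQ : IsQuad Q DQ) (N : (V →L[ℝ] V) →ₗ[ℝ] V) (hN : ∀ A, ‖N A‖ ≤ ‖A‖)
    (Ji : V →L[ℝ] V) (hJ : ∀ u, Ji (N (DQ u)) = u) (hJn : ∀ y, ‖Ji y‖ ≤ 1 / 2 * ‖y‖)
    {η m R : ℝ} (hη : 0 < η) (hm : 0 < m) (hR : 0 < R)
    (hez : ∀ (A : V →L[ℝ] V) (c : V), N A = 0 → ‖A‖ ≤ η → ‖c‖ ≤ 1 →
        (‖A‖ = η ∨ ‖c‖ = 1) → ∀ f : V → V, Continuous f →
        (∀ x, ‖x‖ ≤ R → ‖f x - (Q x + A x + c)‖ ≤ m) → ∃ x, ‖x‖ ≤ R ∧ f x = 0) :
    ∃ ε₀ : ℝ, 0 < ε₀ ∧ ∀ (ε : ℝ) (f : V × P → V) (D : V × P → V →L[ℝ] V), 0 ≤ ε → ε ≤ ε₀ →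
      Near Q DQ T ε f D → ∀ x₀ : V, ∀ b₀ : P, ‖x₀‖ ≤ 1 / 4 → D (x₀, b₀) = 0 →
      ∀ᶠ y in 𝓝 (f (x₀, b₀), b₀), ∃ x, ‖x - x₀‖ ≤ 1 / 2 ∧ f (x, y.2) = y.1 := by
  refine ⟨min 1 (m / R ^ 2), lt_min one_pos (by positivity), ?_⟩
  intro ε f D hε0 hε h x₀ b₀ hx₀ hD
  have hε1 : ε ≤ 1 := hε.trans (min_le_left _ _)
  have hεR : ε * R ^ 2 ≤ m := by
    have := hε.trans (min_le_right _ _)
    rwa [le_div_iff₀ (by positivity)] at this
  set C : ℝ := 3 + ‖DQ‖ with hC
  have hC0 : 3 ≤ C := by rw [hC]; linarith [norm_nonneg DQ]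
  have hCp : 0 < C := by linarith
  -- choice of `r`
  obtain ⟨r, hr0, hr1, hr2⟩ : ∃ r : ℝ, 0 < r ∧ r ≤ 1 / 8 ∧ C * r * (1 / η + 1) * R ≤ 1 / 4 := by
    refine ⟨min (1 / 8) (1 / (4 * (C * (1 / η + 1) * R))), lt_min (by norm_num) (by positivity),
      min_le_left _ _, ?_⟩
    have h1 : min (1 / 8) (1 / (4 * (C * (1 / η + 1) * R))) ≤ 1 / (4 * (C * (1 / η + 1) * R)) :=
      min_le_right _ _
    calc C * min (1 / 8) (1 / (4 * (C * (1 / η + 1) * R))) * (1 / η + 1) * R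
        ≤ C * (1 / (4 * (C * (1 / η + 1) * R))) * (1 / η + 1) * R := by gcongr
      _ = 1 / 4 := by
        have : 0 < 1 / η + 1 := by positivity
        field_simp
  -- the neighbourhood
  have ev1 : ∀ᶠ y : V × P in 𝓝 (f (x₀, b₀), b₀), ‖D (x₀, y.2)‖ < r := by
    have hc : Continuous fun y : V × P => ‖D (x₀, y.2)‖ :=
      (h.cD.comp (continuous_const.prodMk continuous_snd)).norm
    have h2 := hc.tendsto (f (x₀, b₀), b₀)
    simp only [hD, norm_zero] at h2
    exact h2.eventually (gt_mem_nhds hr0)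
  have ev2 : ∀ᶠ y : V × P in 𝓝 (f (x₀, b₀), b₀), ‖f (x₀, y.2) - y.1‖ < r ^ 2 := by
    have hc : Continuous fun y : V × P => ‖f (x₀, y.2) - y.1‖ :=
      ((h.cf.comp (continuous_const.prodMk continuous_snd)).sub continuous_fst).norm
    have h2 := hc.tendsto (f (x₀, b₀), b₀)
    simp only [sub_self, norm_zero] at h2
    exact h2.eventually (gt_mem_nhds (by positivity))
  filter_upwards [ev1, ev2] with y hy1 hy2
  obtain ⟨y1, b⟩ := y
  simp only at hy1 hy2 ⊢
  have hDQ : ∀ u, ‖DQ u‖ ≤ ‖DQ‖ * ‖u‖ := fun u => DQ.le_opNorm u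
  -- find `u`
  obtain ⟨u, hu, hNu⟩ : ∃ u : V, ‖u‖ ≤ r ∧ N (D (x₀ + u, b)) = 0 := by
    let c : V → V := fun y => (r / max r ‖y‖) • y
    have hmax : ∀ y : V, 0 < max r ‖y‖ := fun y => lt_max_of_lt_left hr0
    have hc : Continuous c := by
      refine Continuous.smul (Continuous.div continuous_const
        (continuous_const.max continuous_norm) (fun y => (hmax y).ne')) continuous_id
    have hcn : ∀ y, ‖c y‖ ≤ r := by
      intro y
      simp only [c]
      rw [norm_smul, Real.norm_eq_abs, abs_of_pos (div_pos hr0 (hmax y)), div_mul_eq_mul_div,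
        div_le_iff₀ (hmax y)]
      exact mul_le_mul_of_nonneg_left (le_max_right _ _) hr0.le
    have hci : ∀ y, ‖y‖ ≤ r → c y = y := by
      intro y hy
      simp only [c]
      rw [max_eq_left hy, div_self hr0.ne', one_smul]
    have hNc : Continuous N := N.continuous_of_finiteDimensional
    have hbd : ∀ u : V, ‖u‖ ≤ r → ‖u - Ji (N (D (x₀ + u, b)))‖ ≤ r := by
      intro u hu
      have e1 : u - Ji (N (D (x₀ + u, b))) =
          -Ji (N (D (x₀, b) + (D (x₀ + u, b) - D (x₀, b) - DQ u))) := by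
        have e0 : -(D (x₀, b) + (D (x₀ + u, b) - D (x₀, b) - DQ u)) = DQ u - D (x₀ + u, b) := by
          abel
        rw [← map_neg, ← map_neg, e0, map_sub, map_sub, hJ u]
      rw [e1, norm_neg]
      have e2 := h.lip x₀ (x₀ + u) b (by linarith)
        ((norm_add_le _ _).trans (by linarith))
      rw [add_sub_cancel_left] at e2
      have e3 : ‖D (x₀, b) + (D (x₀ + u, b) - D (x₀, b) - DQ u)‖ ≤ r + ε * ‖u‖ :=
        (norm_add_le _ _).trans (add_le_add hy1.le e2)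
      have e4 : ε * ‖u‖ ≤ 1 * r := by gcongr
      calc _ ≤ 1 / 2 * ‖N (D (x₀, b) + (D (x₀ + u, b) - D (x₀, b) - DQ u))‖ := hJn _
        _ ≤ 1 / 2 * (r + ε * ‖u‖) := by
          have := (hN (D (x₀, b) + (D (x₀ + u, b) - D (x₀, b) - DQ u))).trans e3
          gcongr
        _ ≤ r := by linarith
    obtain ⟨u, hu⟩ := Brw.brouwer (fun u => c u - Ji (N (D (x₀ + c u, b))))
      (hc.sub (Ji.continuous.comp (hNc.comp (h.cD.comp
        ((continuous_const.add hc).prodMk continuous_const))))) r (fun u => hbd _ (hcn u))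
    have hun : ‖u‖ ≤ r := by
      rw [← hu]; exact hbd _ (hcn u)
    simp only [hci u hun] at hu
    refine ⟨u, hun, ?_⟩
    have hJ0 : Ji (N (D (x₀ + u, b))) = 0 := by
      have : Ji (N (D (x₀ + u, b))) = u - (u - Ji (N (D (x₀ + u, b)))) := by abel
      rw [this, hu, sub_self]
    -- `Ji` is injective
    have hsurj : Function.Surjective (Ji : V →ₗ[ℝ] V) := fun u => ⟨N (DQ u), hJ u⟩
    have hinj : Function.Injective (Ji : V →ₗ[ℝ] V) :=
      LinearMap.injective_iff_surjective.2 hsurj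
    apply hinj
    rw [map_zero]
    exact hJ0
  set A := D (x₀ + u, b) with hA
  set c := f (x₀ + u, b) - y1 with hc
  have hlip := h.lip x₀ (x₀ + u) b (by linarith) ((norm_add_le _ _).trans (by linarith))
  rw [add_sub_cancel_left, ← hA] at hlip
  have hAn : ‖A‖ ≤ C * r := by
    have e1 : A = D (x₀, b) + (A - D (x₀, b) - DQ u) + DQ u := by abel
    rw [e1]
    refine (norm_add_le _ _).trans ((add_le_add_left (norm_add_le _ _) _).trans ?_)
    have e2 : ε * ‖u‖ ≤ 1 * r := by gcongr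
    have e3 : ‖DQ u‖ ≤ ‖DQ‖ * r := (hDQ u).trans (by gcongr)
    have e4 : C * r = 3 * r + ‖DQ‖ * r := by rw [hC]; ring
    rw [e4]
    linarith
  have hcn : ‖c‖ ≤ C * r ^ 2 := by
    have e0 := h.star hQ hε0 x₀ u b (by linarith) (by linarith)
    have e1 : c = (f (x₀, b) - y1) + (f (x₀ + u, b) - f (x₀, b) - D (x₀, b) u - Q u)
        + D (x₀, b) u + Q u := by rw [hc]; abel
    rw [e1]
    refine (norm_add_le _ _).trans ((add_le_add_left (norm_add_le _ _) _).trans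
      ((add_le_add_left (add_le_add_left (norm_add_le _ _) _) _).trans ?_))
    have e2 : ‖u‖ ^ 2 ≤ r ^ 2 := pow_le_pow_left₀ (norm_nonneg _) hu 2
    have e3 : ε * ‖u‖ ^ 2 ≤ 1 * r ^ 2 := by gcongr
    have e4 : ‖D (x₀, b) u‖ ≤ r * r := by
      refine ((D (x₀, b)).le_opNorm u).trans ?_
      gcongr
    have e5 : ‖Q u‖ ≤ ‖DQ‖ * r ^ 2 := (hQ.norm_le u).trans (by gcongr)
    have e6 : C * r ^ 2 = 3 * r ^ 2 + ‖DQ‖ * r ^ 2 := by rw [hC]; ring
    have e7 : r * r = r ^ 2 := by ring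
    rw [e6]
    rw [e7] at e4
    linarith
  have hfz : f (x₀ + u, b) = y1 + c := by rw [hc]; abel
  -- the scale
  set ρ : ℝ := max (‖A‖ / η) (Real.sqrt ‖c‖) with hρ
  have hρ0 : 0 ≤ ρ := le_max_of_le_right (Real.sqrt_nonneg _)
  have hρ1 : ρ ≤ C * r * (1 / η + 1) := by
    refine max_le ?_ ?_
    · calc ‖A‖ / η ≤ C * r / η := by gcongr
        _ = C * r * (1 / η) := by ring
        _ ≤ C * r * (1 / η + 1) := by gcongr; linarith
    · calc Real.sqrt ‖c‖ ≤ Real.sqrt ((C * r) ^ 2) := by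
            apply Real.sqrt_le_sqrt
            refine hcn.trans ?_
            have : (C * r) ^ 2 = C * (C * r ^ 2) := by ring
            rw [this]
            have h2 : 0 ≤ C * r ^ 2 := by positivity
            calc C * r ^ 2 = 1 * (C * r ^ 2) := by ring
              _ ≤ C * (C * r ^ 2) := by gcongr; linarith
        _ = C * r := Real.sqrt_sq (by positivity)
        _ ≤ C * r * (1 / η + 1) := by
            have : 0 < 1 / η := by positivity
            calc C * r = C * r * 1 := by ring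
              _ ≤ C * r * (1 / η + 1) := by gcongr; linarith
  have hρR : ρ * R ≤ 1 / 4 := by
    calc ρ * R ≤ C * r * (1 / η + 1) * R := by gcongr
      _ ≤ 1 / 4 := hr2
  rcases hρ0.eq_or_lt with hρz | hρp
  · -- degenerate case
    have h1 : Real.sqrt ‖c‖ ≤ 0 := by rw [hρz]; exact le_max_right _ _
    have h2 : c = 0 := by
      have h3 := Real.sqrt_eq_zero'.1 (le_antisymm h1 (Real.sqrt_nonneg _))
      exact norm_le_zero_iff.1 h3
    refine ⟨x₀ + u, ?_, ?_⟩
    · rw [add_sub_cancel_left]; linarith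
    · rw [hfz, h2, add_zero]
  · have hA' : ‖ρ⁻¹ • A‖ = ‖A‖ / ρ := by
      rw [norm_smul, norm_inv, Real.norm_eq_abs, abs_of_pos hρp, div_eq_inv_mul]
    have hc' : ‖(ρ⁻¹ ^ 2) • c‖ = ‖c‖ / ρ ^ 2 := by
      rw [norm_smul, norm_pow, norm_inv, Real.norm_eq_abs, abs_of_pos hρp, div_eq_inv_mul, inv_pow]
    have hcs : Real.sqrt ‖c‖ ^ 2 = ‖c‖ := Real.sq_sqrt (norm_nonneg _)
    obtain ⟨x, hxR, hx0⟩ := hez (ρ⁻¹ • A) ((ρ⁻¹ ^ 2) • c) (by rw [map_smul, hNu, smul_zero])
      (by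
        rw [hA', div_le_iff₀ hρp]
        have : ‖A‖ / η ≤ ρ := le_max_left _ _
        rw [div_le_iff₀ hη] at this
        linarith)
      (by
        rw [hc', div_le_one (by positivity), ← hcs]
        exact pow_le_pow_left₀ (Real.sqrt_nonneg _) (le_max_right _ _) 2)
      (by
        rcases max_choice (‖A‖ / η) (Real.sqrt ‖c‖) with h1 | h1
        · left
          have h2 : ρ = ‖A‖ / η := h1
          rw [hA', div_eq_iff hρp.ne']
          rw [h2]; field_simp
        · right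
          have h2 : ρ = Real.sqrt ‖c‖ := h1
          rw [hc', h2, hcs, div_self]
          intro h3
          rw [h2, h3, Real.sqrt_zero] at hρp
          exact lt_irrefl _ hρp)
      (fun x => (ρ⁻¹ ^ 2) • (f (x₀ + u + ρ • x, b) - y1))
      (by
        refine Continuous.const_smul ?_ _
        refine (h.cf.comp ?_).sub continuous_const
        exact (continuous_const.add (continuous_const.smul continuous_id)).prodMk
          continuous_const)
      (by
        intro x hx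
        have e1 : ‖ρ • x‖ ≤ 1 := by
          rw [norm_smul, Real.norm_eq_abs, abs_of_pos hρp]
          calc ρ * ‖x‖ ≤ ρ * R := by gcongr
            _ ≤ 1 := by linarith
        have e0 : ‖x₀ + u‖ ≤ 1 := (norm_add_le _ _).trans (by linarith)
        have e2 := h.star hQ hε0 (x₀ + u) (ρ • x) b e0 e1
        have e3 : (ρ⁻¹ ^ 2) • (f (x₀ + u + ρ • x, b) - y1) - (Q x + (ρ⁻¹ • A) x + (ρ⁻¹ ^ 2) • c)
            = (ρ⁻¹ ^ 2) • (f (x₀ + u + ρ • x, b) - f (x₀ + u, b) - D (x₀ + u, b) (ρ • x)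
              - Q (ρ • x)) := by
          have e4 : ρ⁻¹ ^ 2 * ρ ^ 2 = 1 := by rw [← mul_pow, inv_mul_cancel₀ hρp.ne', one_pow]
          have e5 : ρ⁻¹ ^ 2 * ρ = ρ⁻¹ := by field_simp
          rw [hQ.smul, map_smul, smul_apply, hfz, ← hA]
          simp only [smul_sub, smul_add, smul_smul, e4, e5, one_smul]
          abel
        rw [e3, norm_smul, norm_pow, norm_inv, Real.norm_eq_abs, abs_of_pos hρp]
        calc ρ⁻¹ ^ 2 * _ ≤ ρ⁻¹ ^ 2 * (ε * ‖ρ • x‖ ^ 2) := by gcongr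
          _ = ε * ‖x‖ ^ 2 := by
            rw [norm_smul, Real.norm_eq_abs, abs_of_pos hρp]; field_simp
          _ ≤ ε * R ^ 2 := by gcongr
          _ ≤ m := hεR)
    refine ⟨x₀ + u + ρ • x, ?_, ?_⟩
    · have e1 : x₀ + u + ρ • x - x₀ = u + ρ • x := by abel
      rw [e1]
      refine (norm_add_le _ _).trans ?_
      rw [norm_smul, Real.norm_eq_abs, abs_of_pos hρp]
      have : ρ * ‖x‖ ≤ ρ * R := by gcongr
      linarith
    · have h1 := (smul_eq_zero.1 hx0).resolve_left (by positivity)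
      exact sub_eq_zero.1 h1

end

end Pool.Agent.H70.Afd
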