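import Pool.Agent.H70.Afd.Model
import Pool.Agent.H70.Afd.Surj
import Pool.Agent.H70.Afd.Count

/-!
# Every small perturbation of the model map has a bad point
-/

open Set Filter Topology

namespace Pool.Agent.H70.Afd

noncomputable section

set_option linter.unusedSectionVars false

/-- Some open sets of values arbitrarily close to `F z₀` have signed number of preimages in `K`
equal to `κ`. -/
def HasCount {Z : Type*} [NormedAddCommGroup Z] [NormedSpace ℝ Z] (F : Z → Z) (z₀ : Z)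
    (K : Set Z) (κ : ℤ) : Prop :=
  ∀ ν : ℝ, 0 < ν → ∃ O : Set Z, IsOpen O ∧ O.Nonempty ∧ O ⊆ Metric.ball (F z₀) ν ∧
    ∀ y ∈ O, ∑ᶠ z ∈ {z | z ∈ K ∧ F z = y}, (SignType.sign (fderiv ℝ F z).det : ℤ) = κ

/-- The data of a bad point of a map: `z₀` is an isolated critical point, all values close to
`F z₀` are attained in `K`, and two opposite numbers occur as the signed number of preimages in `K`
of the values in open sets arbitrarily close to `F z₀`. -/
structure Bad {Z : Type*} [NormedAddCommGroup Z] [NormedSpace ℝ Z] (F : Z → Z) (z₀ : Z)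
    (K : Set Z) : Prop where
  compact : IsCompact K
  nhds : K ∈ 𝓝 z₀
  crit : (fderiv ℝ F z₀).det = 0
  iso : ∀ z ∈ K, F z = F z₀ → z = z₀
  count : ∃ κ : ℤ, HasCount F z₀ K κ ∧ HasCount F z₀ K (-κ)
  surj : ∀ᶠ y in 𝓝 (F z₀), ∃ z ∈ K, F z = y

variable {V : Type*} [NormedAddCommGroup V] [NormedSpace ℝ V] [FiniteDimensional ℝ V]
variable {P : Type*} [NormedAddCommGroup P] [NormedSpace ℝ P] [FiniteDimensional ℝ P]

/-- the shear -/
def shear (M : P →L[ℝ] V) (t : ℝ) : V × P →L[ℝ] V × P :=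
  (ContinuousLinearMap.fst ℝ V P + (t • M).comp (ContinuousLinearMap.snd ℝ V P)).prod
    (ContinuousLinearMap.snd ℝ V P)

lemma shear_apply (M : P →L[ℝ] V) (t : ℝ) (z : V × P) : shear M t z = (z.1 + t • M z.2, z.2) := rfl

lemma shear_det_pos (M : P →L[ℝ] V) : 0 < (shear M 1).det := by
  have h1 : shear M 1 = (shear M (1 / 2)).comp (shear M (1 / 2)) := by
    refine ContinuousLinearMap.ext fun z => ?_
    rw [ContinuousLinearMap.comp_apply, shear_apply, shear_apply, shear_apply]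
    simp only [one_smul]
    congr 1
    module
  have h2 : (shear M 1).det = (shear M (1 / 2)).det * (shear M (1 / 2)).det := by
    rw [h1]
    exact LinearMap.det_comp _ _
  have h3 : (shear M (1 / 2)).det ≠ 0 := by
    refine det_ne_of_inj _ fun z hz => ?_
    rw [shear_apply] at hz
    have h4 : z.2 = 0 := congrArg Prod.snd hz
    have h5 : z.1 + (1 / 2 : ℝ) • M z.2 = 0 := congrArg Prod.fst hz
    rw [h4, map_zero, smul_zero, add_zero] at h5
    exact Prod.ext h5 h4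
  rw [h2]
  exact mul_self_pos.2 h3

lemma det_block (L : V × P →L[ℝ] V) :
    ∃ c : ℝ, 0 < c ∧ (L.prod (ContinuousLinearMap.snd ℝ V P)).det =
      c * (L.comp (ContinuousLinearMap.inl ℝ V P)).det := by
  refine ⟨(shear (L.comp (ContinuousLinearMap.inr ℝ V P)) 1).det, shear_det_pos _, ?_⟩
  set D := L.comp (ContinuousLinearMap.inl ℝ V P) with hD
  have h1 : ((L.prod (ContinuousLinearMap.snd ℝ V P) : V × P →L[ℝ] V × P) :
      V × P →ₗ[ℝ] V × P) =
      ((shear (L.comp (ContinuousLinearMap.inr ℝ V P)) 1 : V × P →L[ℝ] V × P) :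
        V × P →ₗ[ℝ] V × P) ∘ₗ
      (LinearMap.prodMap (D : V →ₗ[ℝ] V) (LinearMap.id : P →ₗ[ℝ] P)) := by
    refine LinearMap.ext fun z => ?_
    show (L z, z.2) = shear (L.comp (ContinuousLinearMap.inr ℝ V P)) 1 (D z.1, z.2)
    rw [shear_apply]
    simp only [one_smul]
    have h2 : L z = D z.1 + (L.comp (ContinuousLinearMap.inr ℝ V P)) z.2 := by
      rw [hD, ContinuousLinearMap.comp_apply, ContinuousLinearMap.comp_apply, ← map_add]
      congr 1
      ext <;> simp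
    rw [h2]
  show LinearMap.det ((L.prod (ContinuousLinearMap.snd ℝ V P) : V × P →L[ℝ] V × P) :
      V × P →ₗ[ℝ] V × P) = _
  rw [h1, LinearMap.det_comp, LinearMap.det_prodMap, LinearMap.det_id, mul_one]

/-- the model map -/
def F0 (Q : V → V) (Λ : P →L[ℝ] V →L[ℝ] V) (z : V × P) : V × P := (Q z.1 + Λ z.2 z.1, z.2)

theorem model_bad [Nontrivial V] {Q : V → V} {DQ : V →L[ℝ] V →L[ℝ] V} (hQ : IsQuad Q DQ)
    (hQ0 : ∀ x, Q x = 0 → x = 0)
    (Λ : P →L[ℝ] V →L[ℝ] V) (Rr : (V →L[ℝ] V) →L[ℝ] V × P) (hR : ∀ M, TT DQ Λ (Rr M) = M)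
    (N : (V →L[ℝ] V) →ₗ[ℝ] V) (hN : ∀ A, ‖N A‖ ≤ ‖A‖)
    (Ji : V →L[ℝ] V) (hJ : ∀ u, Ji (N (DQ u)) = u) (hJn : ∀ y, ‖Ji y‖ ≤ 1 / 2 * ‖y‖)
    {η m R : ℝ} (hη : 0 < η) (hm : 0 < m) (hR0 : 0 < R)
    (hez : ∀ (A : V →L[ℝ] V) (c : V), N A = 0 → ‖A‖ ≤ η → ‖c‖ ≤ 1 →
        (‖A‖ = η ∨ ‖c‖ = 1) → ∀ f : V → V, Continuous f →
        (∀ x, ‖x‖ ≤ R → ‖f x - (Q x + A x + c)‖ ≤ m) → ∃ x, ‖x‖ ≤ R ∧ f x = 0)
    (c c' : V) (hreg : ∀ x, Q x = c → (DQ x).det ≠ 0) (hreg' : ∀ x, Q x = c' → (DQ x).det ≠ 0)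
    (κ : ℤ) (hsum : ∑ᶠ x ∈ {x | Q x = c}, (SignType.sign (DQ x).det : ℤ) = κ)
    (hsum' : ∑ᶠ x ∈ {x | Q x = c'}, (SignType.sign (DQ x).det : ℤ) = -κ) :
    ∃ ε : ℝ, 0 < ε ∧ ∀ E : V × P → V × P, Small ε E →
      ∃ z₀ K, Bad (fun z => F0 Q Λ z + E z) z₀ K := by
  have hprop : ProperSpace V := FiniteDimensional.proper_real V
  obtain ⟨μ, hμ0, hμ⟩ := hQ.lower hQ0
  obtain ⟨e₀, he₀, h0⟩ := exists_corank (Q := Q) (DQ := DQ) (T := TT DQ Λ) Rr hR
  obtain ⟨e₁, he₁, h1⟩ := near_surj (P := P) (T := TT DQ Λ) hQ N hN Ji hJ hJn hη hm hR0 hez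
  obtain ⟨e₂, he₂, h2⟩ := near_count (P := P) (T := TT DQ Λ) hQ hμ0 hμ c hreg κ hsum
  obtain ⟨e₃, he₃, h3⟩ := near_count (P := P) (T := TT DQ Λ) hQ hμ0 hμ c' hreg' (-κ) hsum'
  set C : ℝ := 6 * ‖Λ‖ + 2 with hC
  have hC0 : 0 < C := by positivity
  set ee : ℝ := min (μ / 2) (min e₀ (min e₁ (min e₂ e₃))) with hee
  have hee0 : 0 < ee := lt_min (by positivity) (lt_min he₀ (lt_min he₁ (lt_min he₂ he₃)))
  refine ⟨min (1 / 2) (ee / C), lt_min (by norm_num) (by positivity), ?_⟩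
  intro E hE
  set ε : ℝ := min (1 / 2) (ee / C) with hε
  have hε0 : 0 < ε := lt_min (by norm_num) (by positivity)
  have hε2 : ε ≤ 1 / 2 := min_le_left _ _
  have hCε : C * ε ≤ ee := by
    have : ε ≤ ee / C := min_le_right _ _
    rw [le_div_iff₀ hC0] at this
    linarith
  have hCε0 : 0 ≤ C * ε := by positivity
  have hCμ : C * ε < μ := by
    have : ee ≤ μ / 2 := min_le_left _ _
    linarith
  have hC0' : C * ε ≤ e₀ := hCε.trans ((min_le_right _ _).trans (min_le_left _ _))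
  have hC1' : C * ε ≤ e₁ :=
    hCε.trans ((min_le_right _ _).trans ((min_le_right _ _).trans (min_le_left _ _)))
  have hC2' : C * ε ≤ e₂ :=
    hCε.trans ((min_le_right _ _).trans ((min_le_right _ _).trans ((min_le_right _ _).trans
      (min_le_left _ _))))
  have hC3' : C * ε ≤ e₃ :=
    hCε.trans ((min_le_right _ _).trans ((min_le_right _ _).trans ((min_le_right _ _).trans
      (min_le_right _ _))))
  obtain ⟨Ψ, hΨ, hΨs⟩ := exists_homeo hE hε2
  have hnear := near_of_small (Λ := Λ) hQ hE hε2 Ψ hΨ hΨs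
  set f : V × P → V := fun w => gg Q Λ E (Ψ.symm w) with hf
  set D : V × P → V →L[ℝ] V := fun w =>
    (fderiv ℝ f w).comp (ContinuousLinearMap.inl ℝ V P) with hD
  obtain ⟨w₀, hw₀, hDw₀⟩ := h0 (C * ε) f D hC0' hnear
  obtain ⟨x₀, b₀⟩ := w₀
  have hx₀ : ‖x₀‖ ≤ 1 / 4 := (norm_fst_le (x₀, b₀)).trans hw₀
  have hsurj := h1 (C * ε) f D hCε0 hC1' hnear x₀ b₀ hx₀ hDw₀
  have hcount := h2 (C * ε) f D hCε0 hC2' hnear x₀ b₀ hx₀ hDw₀
  have hcount' := h3 (C * ε) f D hCε0 hC3' hnear x₀ b₀ hx₀ hDw₀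
  have hiso := near_isolated hQ hμ hnear hCε0 hCμ (x₀ := x₀) (b₀ := b₀) (by linarith) hDw₀
  set F : V × P → V × P := fun z => F0 Q Λ z + E z with hF
  have hFf : ∀ z, F z = (f (Ψ z), (Ψ z).2) := by
    intro z
    rw [hf]
    simp only [Homeomorph.symm_apply_apply]
    rw [hΨ]
    rfl
  have hFf' : ∀ w, F (Ψ.symm w) = (f w, w.2) := by
    intro w
    rw [hFf, Homeomorph.apply_symm_apply]
  -- derivative
  have hfs : ContDiff ℝ 1 f := (contDiff_gg hQ hE).comp hΨs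
  have hFd : ∀ z, HasFDerivAt F (((fderiv ℝ f (Ψ z)).prod (ContinuousLinearMap.snd ℝ V P)).comp
      (Phi' E z)) z := by
    intro z
    have e1 : HasFDerivAt (fun w : V × P => (f w, w.2))
        ((fderiv ℝ f (Phi E z)).prod (ContinuousLinearMap.snd ℝ V P)) (Phi E z) :=
      ((hfs.differentiable (by norm_num) (Phi E z)).hasFDerivAt).prodMk
        (ContinuousLinearMap.snd ℝ V P).hasFDerivAt
    have e2 := e1.comp z (hasFDerivAt_Phi hE z)
    have e3 : ((fun w : V × P => (f w, w.2)) ∘ Phi E) = F := by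
      funext z
      rw [hFf, hΨ]; rfl
    rw [e3] at e2
    rw [hΨ]
    exact e2
  have hdet : ∀ z, ∃ c : ℝ, 0 < c ∧ (fderiv ℝ F z).det = c * (D (Ψ z)).det := by
    intro z
    obtain ⟨c₁, hc₁, hc₁'⟩ := det_block (fderiv ℝ f (Ψ z))
    have hpos : 0 < (Phi' E z).det := by
      have := det_mul_pos (ContinuousLinearMap.id ℝ (V × P)) (Phi' E z) one_pos
        (fun h => by simp) ((norm_Phi'_sub_le hE z).trans hε2)
      have hid : (ContinuousLinearMap.id ℝ (V × P)).det = 1 := LinearMap.det_id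
      rwa [hid, one_mul] at this
    refine ⟨c₁ * (Phi' E z).det, mul_pos hc₁ hpos, ?_⟩
    rw [(hFd z).fderiv]
    have : ((((fderiv ℝ f (Ψ z)).prod (ContinuousLinearMap.snd ℝ V P)).comp (Phi' E z))).det =
      ((fderiv ℝ f (Ψ z)).prod (ContinuousLinearMap.snd ℝ V P)).det * (Phi' E z).det :=
      LinearMap.det_comp _ _
    rw [this, hc₁']
    ring
  have hsign : ∀ z, SignType.sign (fderiv ℝ F z).det = SignType.sign (D (Ψ z)).det := by
    intro z
    obtain ⟨c, hc, hc'⟩ := hdet z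
    rw [hc', sign_mul, sign_pos hc, one_mul]
  set K : Set (V × P) := Ψ ⁻¹' (Metric.closedBall x₀ (1 / 2) ×ˢ Metric.closedBall b₀ (1 / 2)) with hK
  have hKmem : ∀ z, z ∈ K ↔ ‖(Ψ z).1 - x₀‖ ≤ 1 / 2 ∧ ‖(Ψ z).2 - b₀‖ ≤ 1 / 2 := by
    intro z
    rw [hK, mem_preimage, mem_prod, Metric.mem_closedBall, Metric.mem_closedBall, dist_eq_norm,
      dist_eq_norm]
  have hpropP : ProperSpace P := FiniteDimensional.proper_real P
  have hgen : ∀ k : ℤ, (∀ ν : ℝ, 0 < ν → ∃ O : Set (V × P), IsOpen O ∧ O.Nonempty ∧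
        O ⊆ Metric.ball (f (x₀, b₀), b₀) ν ∧ ∀ y ∈ O,
        ∑ᶠ x ∈ {x | ‖x - x₀‖ ≤ 1 / 2 ∧ f (x, y.2) = y.1},
          (SignType.sign (D (x, y.2)).det : ℤ) = k) → HasCount F (Ψ.symm (x₀, b₀)) K k := by
    intro k hk ν hν
    obtain ⟨O, hO1, hO2, hO3, hO4⟩ := hk (min ν (1 / 2)) (lt_min hν (by norm_num))
    refine ⟨O, hO1, hO2, ?_, ?_⟩
    · rw [hFf']
      exact hO3.trans (Metric.ball_subset_ball (min_le_left _ _))
    · rintro ⟨y1, b⟩ hy
      have hb : ‖b - b₀‖ ≤ 1 / 2 := by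
        have e1 := hO3 hy
        rw [Metric.mem_ball, Prod.dist_eq] at e1
        have e2 : dist b b₀ < min ν (1 / 2) := lt_of_le_of_lt (le_max_right _ _) e1
        rw [dist_eq_norm] at e2
        exact e2.le.trans (min_le_right _ _)
      have himg : {z | z ∈ K ∧ F z = (y1, b)} = (fun x => Ψ.symm (x, b)) ''
          {x | ‖x - x₀‖ ≤ 1 / 2 ∧ f (x, b) = y1} := by
        ext z
        constructor
        · rintro ⟨hz1, hz2⟩
          rw [hFf] at hz2
          have e1 : f (Ψ z) = y1 := congrArg Prod.fst hz2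
          have e2 : (Ψ z).2 = b := congrArg Prod.snd hz2
          have e3 : Ψ z = ((Ψ z).1, b) := by rw [← e2]
          refine ⟨(Ψ z).1, ⟨((hKmem z).1 hz1).1, ?_⟩, ?_⟩
          · rw [← e3]; exact e1
          · simp only
            rw [← e3, Homeomorph.symm_apply_apply]
        · rintro ⟨x, ⟨hx1, hx2⟩, rfl⟩
          refine ⟨(hKmem _).2 ?_, ?_⟩
          · rw [Homeomorph.apply_symm_apply]
            exact ⟨hx1, hb⟩
          · simp only
            rw [hFf', hx2]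
      have hinj : InjOn (fun x => Ψ.symm (x, b)) {x | ‖x - x₀‖ ≤ 1 / 2 ∧ f (x, b) = y1} := by
        intro x _ x' _ hxx
        have h3 := Ψ.symm.injective hxx
        exact congrArg Prod.fst h3
      rw [himg, finsum_mem_image hinj, ← hO4 (y1, b) hy]
      refine finsum_mem_congr rfl fun x _ => ?_
      rw [hsign, Homeomorph.apply_symm_apply]
  refine ⟨Ψ.symm (x₀, b₀), K, ?_, ?_, ?_, ?_, ?_, ?_⟩
  · rw [hK, Homeomorph.isCompact_preimage]
    exact (isCompact_closedBall _ _).prod (isCompact_closedBall _ _)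
  · refine Ψ.continuous.continuousAt.preimage_mem_nhds ?_
    rw [Homeomorph.apply_symm_apply]
    exact prod_mem_nhds (Metric.closedBall_mem_nhds _ (by norm_num))
      (Metric.closedBall_mem_nhds _ (by norm_num))
  · obtain ⟨c, hc, hc'⟩ := hdet (Ψ.symm (x₀, b₀))
    rw [hc', Homeomorph.apply_symm_apply, hDw₀]
    have : (0 : V →L[ℝ] V).det = 0 := by
      show LinearMap.det ((0 : V →L[ℝ] V) : V →ₗ[ℝ] V) = 0
      rw [ContinuousLinearMap.toLinearMap_zero, LinearMap.det_zero, zero_pow]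
      exact (Module.finrank_pos (R := ℝ) (M := V)).ne'
    rw [this, mul_zero]
  · intro z hz hFz
    rw [hFf', hFf] at hFz
    have e1 : f (Ψ z) = f (x₀, b₀) := congrArg Prod.fst hFz
    have e2 : (Ψ z).2 = b₀ := congrArg Prod.snd hFz
    have e3 : Ψ z = ((Ψ z).1, b₀) := by rw [← e2]
    rw [e3] at e1
    have e4 := hiso (Ψ z).1 (((hKmem z).1 hz).1.trans (by norm_num)) e1
    rw [e4] at e3
    rw [← e3, Homeomorph.symm_apply_apply]
  · exact ⟨κ, hgen κ hcount, hgen (-κ) hcount'⟩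
  · rw [hFf']
    have e1 : ∀ᶠ y : V × P in 𝓝 (f (x₀, b₀), b₀), ‖y.2 - b₀‖ < 1 / 2 := by
      have hc : Continuous fun y : V × P => ‖y.2 - b₀‖ := by fun_prop
      have h2 := hc.tendsto (f (x₀, b₀), b₀)
      simp only [sub_self, norm_zero] at h2
      exact h2.eventually (gt_mem_nhds (by norm_num))
    filter_upwards [hsurj, e1] with y hy1 hy2
    obtain ⟨x, hx1, hx2⟩ := hy1
    refine ⟨Ψ.symm (x, y.2), (hKmem _).2 ?_, ?_⟩
    · rw [Homeomorph.apply_symm_apply]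
      exact ⟨hx1, hy2.le⟩
    · rw [hFf', hx2]

/-- transfer of a bad point along a linear isomorphism -/
theorem Bad.transfer {X Z : Type*} [NormedAddCommGroup X] [NormedSpace ℝ X] [FiniteDimensional ℝ X]
    [NormedAddCommGroup Z] [NormedSpace ℝ Z] (e : X ≃L[ℝ] Z) {F : X → X}
    (hF : Differentiable ℝ F) {z₀ : Z} {K : Set Z}
    (h : Bad (fun z => e (F (e.symm z))) z₀ K) : Bad F (e.symm z₀) (e.symm '' K) := by
  have hd : ∀ z, HasFDerivAt (fun z => e (F (e.symm z)))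
      ((e : X →L[ℝ] Z).comp ((fderiv ℝ F (e.symm z)).comp (e.symm : Z →L[ℝ] X))) z := by
    intro z
    exact e.hasFDerivAt.comp z ((hF (e.symm z)).hasFDerivAt.comp z e.symm.hasFDerivAt)
  have hdet : ∀ z, (fderiv ℝ (fun z => e (F (e.symm z))) z).det = (fderiv ℝ F (e.symm z)).det := by
    intro z
    rw [(hd z).fderiv]
    exact LinearMap.det_conj ((fderiv ℝ F (e.symm z) : X →L[ℝ] X) : X →ₗ[ℝ] X) e.toLinearEquiv
  have hgen : ∀ k : ℤ, HasCount (fun z => e (F (e.symm z))) z₀ K k →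
      HasCount F (e.symm z₀) (e.symm '' K) k := by
    intro k hk ν hν
    obtain ⟨r, hr, hrν⟩ : ∃ r : ℝ, 0 < r ∧ ∀ y ∈ Metric.ball (e (F (e.symm z₀))) r,
        e.symm y ∈ Metric.ball (F (e.symm z₀)) ν := by
      have hc : ContinuousAt e.symm (e (F (e.symm z₀))) := e.symm.continuous.continuousAt
      have := hc.preimage_mem_nhds (by
        rw [e.symm_apply_apply]; exact Metric.ball_mem_nhds _ hν)
      obtain ⟨r, hr, hsub⟩ := Metric.mem_nhds_iff.1 this
      exact ⟨r, hr, fun y hy => hsub hy⟩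
    obtain ⟨O, hO1, hO2, hO3, hO4⟩ := hk r hr
    refine ⟨e ⁻¹' O, hO1.preimage e.continuous, ?_, ?_, ?_⟩
    · obtain ⟨y, hy⟩ := hO2
      exact ⟨e.symm y, by rw [mem_preimage, e.apply_symm_apply]; exact hy⟩
    · intro y hy
      have := hrν (e y) (hO3 hy)
      rwa [e.symm_apply_apply] at this
    · intro y hy
      have h1 := hO4 (e y) hy
      have himg : {x | x ∈ e.symm '' K ∧ F x = y} =
          e.symm '' {z | z ∈ K ∧ e (F (e.symm z)) = e y} := by
        ext x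
        constructor
        · rintro ⟨⟨z, hz, rfl⟩, hx⟩
          exact ⟨z, ⟨hz, by rw [hx]⟩, rfl⟩
        · rintro ⟨z, ⟨hz1, hz2⟩, rfl⟩
          exact ⟨⟨z, hz1, rfl⟩, e.injective hz2⟩
      rw [himg, finsum_mem_image e.symm.injective.injOn, ← h1]
      refine finsum_mem_congr rfl fun z _ => ?_
      rw [hdet]
  refine ⟨h.compact.image e.symm.continuous, ?_, ?_, ?_, ?_, ?_⟩
  · have : e.symm '' K = e ⁻¹' K := by
      rw [← e.image_symm_eq_preimage]
    rw [this]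
    refine e.continuous.continuousAt.preimage_mem_nhds ?_
    rw [e.apply_symm_apply]
    exact h.nhds
  · rw [← hdet]; exact h.crit
  · rintro _ ⟨z, hz, rfl⟩ hFz
    rw [h.iso z hz (by rw [hFz])]
  · obtain ⟨κ, h1, h2⟩ := h.count
    exact ⟨κ, hgen κ h1, hgen (-κ) h2⟩
  · have hc : Tendsto (fun y => e y) (𝓝 (F (e.symm z₀))) (𝓝 (e (F (e.symm z₀)))) :=
      e.continuous.tendsto _
    filter_upwards [hc.eventually h.surj] with y hy
    obtain ⟨z, hz, hzy⟩ := hy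
    exact ⟨e.symm z, ⟨z, hz, rfl⟩, e.injective hzy⟩

end

end Pool.Agent.H70.Afd
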