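import Pool.Agent.H70.Afd.Quad

/-!
# The essential zero lemma
-/

open Set Filter Topology

namespace Pool.Agent.H70.Afd

noncomputable section

set_option linter.unusedSectionVars false

variable {d : ℕ} [NeZero d]

/-- the normalising functionals -/
def NN (j0 : Fin d) : ((Fin d → ℝ) →L[ℝ] (Fin d → ℝ)) →ₗ[ℝ] (Fin d → ℝ) where
  toFun A := fun i => if i = 0 then A (Pi.single 0 1) j0 else A (Pi.single i 1) i
  map_add' A B := by
    funext i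
    by_cases h : i = 0 <;> simp [h]
  map_smul' c A := by
    funext i
    by_cases h : i = 0 <;> simp [h]

lemma norm_single_one (i : Fin d) : ‖(Pi.single i 1 : Fin d → ℝ)‖ = 1 := by
  rw [Pi.norm_single]; norm_num

lemma norm_NN_le (j0 : Fin d) (A : (Fin d → ℝ) →L[ℝ] (Fin d → ℝ)) : ‖NN j0 A‖ ≤ ‖A‖ := by
  have key : ∀ i j, |A (Pi.single i 1) j| ≤ ‖A‖ := by
    intro i j
    have h1 := A.le_opNorm (Pi.single i 1)
    rw [norm_single_one, mul_one] at h1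
    exact (norm_le_pi_norm _ j).trans h1
  refine (pi_norm_le_iff_of_nonneg (norm_nonneg _)).2 fun i => ?_
  by_cases h : i = 0
  · simp only [NN, LinearMap.coe_mk, AddHom.coe_mk, h, if_true, Real.norm_eq_abs]
    exact key _ _
  · simp only [NN, LinearMap.coe_mk, AddHom.coe_mk, h, if_false, Real.norm_eq_abs]
    exact key _ _

/-- The abstract hypotheses on the quadratic form and on a finite set of base points. -/
structure Good (U : Fin d → Fin d → ℤ) (i1 j0 : Fin d) (B : Finset (Fin d → ℝ)) : Prop where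
  hi1 : i1 ≠ 0
  hj0 : j0 ≠ 0
  p0 : ∀ p ∈ B, p 0 = 1
  psq : ∀ p ∈ B, ∀ i, p i ^ 2 = 1
  q0 : ∀ p ∈ B, qq U p = 0
  span : ∀ A : (Fin d → ℝ) →L[ℝ] (Fin d → ℝ), NN j0 A = 0 →
    (∀ p ∈ B, dt (nn U p) (A p) = 0) → A = 0
  pos : ∀ c : Fin d → ℝ, (∀ p ∈ B, 0 ≤ p i1 * dt (nn U p) c) → c = 0

/-- compactness: a nonnegative sum vanishing only at zero -/
lemma exists_kappa {E : Type*} [NormedAddCommGroup E] [NormedSpace ℝ E] [FiniteDimensional ℝ E]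
    {ι : Type*} (B : Finset ι) (W : Set E) (hWc : IsClosed W)
    (φ : ι → E → ℝ) (hφc : ∀ i ∈ B, Continuous (φ i))
    (hφ : ∀ i ∈ B, ∀ (t : ℝ) (x : E), 0 < t → φ i (t • x) = t * φ i x)
    (hW : ∀ (t : ℝ) (x : E), 0 < t → x ∈ W → t • x ∈ W) (hBne : B.Nonempty)
    (hpos : ∀ x ∈ W, (∀ i ∈ B, φ i x ≤ 0) → x = 0) :
    ∃ κ : ℝ, 0 < κ ∧ ∀ x ∈ W, x ≠ 0 → ∃ i ∈ B, κ * ‖x‖ ≤ φ i x := by
  have hprop : ProperSpace E := FiniteDimensional.proper_real E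
  set g : E → ℝ := fun x => B.sup' hBne (fun i => φ i x) with hg
  have hgc : Continuous g := Continuous.finset_sup'_apply hBne hφc
  have hK : IsCompact (Metric.sphere (0 : E) 1 ∩ W) := (isCompact_sphere 0 1).inter_right hWc
  obtain ⟨κ, hκ, hmin⟩ := hK.exists_forall_le' (f := g) hgc.continuousOn (a := 0) (by
    intro x hx
    rw [hg]
    by_contra hcon
    push Not at hcon
    have h1 : x = 0 := hpos x hx.2 fun i hi => (Finset.le_sup' (fun i => φ i x) hi).trans hcon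
    have h2 : ‖x‖ = 1 := by simpa using hx.1
    rw [h1, norm_zero] at h2
    exact zero_ne_one h2)
  refine ⟨κ, hκ, fun x hxW hx0 => ?_⟩
  have hx : 0 < ‖x‖ := norm_pos_iff.2 hx0
  set y := ‖x‖⁻¹ • x with hy
  have hy1 : y ∈ Metric.sphere (0 : E) 1 ∩ W := by
    refine ⟨?_, hW _ _ (inv_pos.2 hx) hxW⟩
    rw [mem_sphere_zero_iff_norm, hy, norm_smul, norm_inv, norm_norm, inv_mul_cancel₀ hx.ne']
  obtain ⟨i, hi, hgi⟩ := Finset.exists_mem_eq_sup' hBne (fun i => φ i y)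
  have h1 : κ ≤ φ i y := by
    have := hmin y hy1
    rw [hg] at this
    simp only at this
    rwa [hgi] at this
  refine ⟨i, hi, ?_⟩
  rw [hy, hφ i hi _ _ (inv_pos.2 hx)] at h1
  have h2 : ‖x‖⁻¹ * φ i x = φ i x / ‖x‖ := by rw [div_eq_inv_mul]
  rw [h2, le_div_iff₀ hx] at h1
  exact h1

/-- choice of the parameters -/
lemma params {k0 k1 K : ℝ} (hk0 : 0 < k0) (hk1 : 0 < k1) (hk11 : k1 ≤ 1)
    (hK : 1 ≤ K) :
    ∃ δ s₁ s₁' s₂ η m τ : ℝ, 0 < δ ∧ 0 < s₁ ∧ s₁ ≤ s₁' ∧ s₁' ≤ s₂ ∧ 0 < η ∧ 0 < m ∧ 0 < τ ∧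
      τ < 1 ∧ 2 * δ ^ 2 + η * δ + m ≤ 2 * δ ∧ K * (2 * δ) ≤ k1 / 8 ∧
      (∀ s, s₁ ≤ s → δ ^ 2 + η * (s + δ) + 1 + m < 2 * s * δ) ∧
      (∀ s, 0 < s → s ≤ s₁' → τ * s ^ 2 + τ * s * δ ≤ k1 / 8) ∧
      s₂ * (K * η) + K * 1 + (τ * s₂ * δ + k1 / 8) < τ * s₂ ^ 2 ∧
      s₁ * (K * η) ≤ k1 / 32 ∧ 8 * K ≤ s₁' * (k0 * η) := by
  have hK0 : 0 < K := by linarith
  obtain ⟨δ, hδ0, hδ1⟩ : ∃ δ : ℝ, 0 < δ ∧ δ * (32 * K) = k1 :=
    ⟨k1 / (32 * K), by positivity, by field_simp⟩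
  have hδ32 : δ ≤ 1 / 32 := by
    have h1 : δ * (32 * 1) ≤ δ * (32 * K) := by gcongr
    linarith
  obtain ⟨s₁, hs₁0, hs₁δ⟩ : ∃ s₁ : ℝ, 0 < s₁ ∧ s₁ * δ = 2 := ⟨2 / δ, by positivity, by field_simp⟩
  have hs₁64 : 64 ≤ s₁ := by
    have h1 : s₁ * δ ≤ s₁ * (1 / 32) := by gcongr
    linarith
  obtain ⟨η, hη0, hη1⟩ : ∃ η : ℝ, 0 < η ∧ η * (64 * K) = k1 * δ :=
    ⟨k1 * δ / (64 * K), by positivity, by field_simp⟩
  have hηδ : η * 64 ≤ δ := by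
    have h1 : η * (64 * 1) ≤ η * (64 * K) := by gcongr
    have h2 : k1 * δ ≤ 1 * δ := by gcongr
    linarith
  have hηle : η ≤ 1 := by linarith
  obtain ⟨s₁', hs₁'0, hs₁'1⟩ : ∃ s₁' : ℝ, s₁ ≤ s₁' ∧ 8 * K ≤ s₁' * (k0 * η) := by
    refine ⟨s₁ + 8 * K / (k0 * η), ?_, ?_⟩
    · have : 0 < 8 * K / (k0 * η) := by positivity
      linarith
    · have h1 : 8 * K / (k0 * η) * (k0 * η) = 8 * K := by field_simp
      have h2 : 0 < s₁ * (k0 * η) := by positivity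
      rw [add_mul, h1]
      linarith
  have hs₁'p : 0 < s₁' := hs₁0.trans_le hs₁'0
  obtain ⟨τ, hτ0, hττ⟩ : ∃ τ : ℝ, 0 < τ ∧ τ * (s₁' ^ 2 + s₁') = k1 / 8 :=
    ⟨k1 / (8 * (s₁' ^ 2 + s₁')), by positivity, by field_simp⟩
  have hτ1 : τ < 1 := by
    have h64 : 64 ≤ s₁' := hs₁64.trans hs₁'0
    have h1 : τ * 64 ≤ τ * s₁' := by gcongr
    have h2 : 0 < τ * s₁' ^ 2 := by positivity
    have h3 : τ * s₁' ^ 2 + τ * s₁' = k1 / 8 := by rw [← hττ]; ring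
    linarith
  obtain ⟨s₂, hs₂1, hs₂τ⟩ : ∃ s₂ : ℝ, s₁' ≤ s₂ ∧ 2 + 6 * K ≤ τ * s₂ := by
    refine ⟨s₁' + (2 + 6 * K) / τ, ?_, ?_⟩
    · have : 0 < (2 + 6 * K) / τ := by positivity
      linarith
    · have h1 : τ * ((2 + 6 * K) / τ) = 2 + 6 * K := by field_simp
      have h2 : 0 < τ * s₁' := by positivity
      rw [mul_add]
      linarith
  have hs₂p : 0 < s₂ := hs₁'p.trans_le hs₂1
  refine ⟨δ, s₁, s₁', s₂, η, δ, τ, hδ0, hs₁0, hs₁'0, hs₂1, hη0, hδ0, hτ0, hτ1, ?_, ?_, ?_, ?_,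
    ?_, ?_, hs₁'1⟩
  · have h1 : δ ^ 2 ≤ δ * (1 / 32) := by rw [sq]; gcongr
    have h2 : η * δ ≤ 1 * δ * (1 / 32) := by
      calc η * δ = δ * η := mul_comm _ _
        _ ≤ δ * (1 / 32) := by gcongr; linarith
        _ = 1 * δ * (1 / 32) := by ring
    linarith
  · have : K * (2 * δ) = k1 / 16 := by rw [← hδ1]; ring
    linarith
  · intro s hs
    have h1 : 2 ≤ s * δ := by rw [← hs₁δ]; gcongr
    have h2 : δ ^ 2 ≤ δ * (1 / 32) := by rw [sq]; gcongr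
    have hs0 : 0 < s := hs₁0.trans_le hs
    have h3 : η * s ≤ δ / 64 * s := by gcongr; linarith
    have h4 : η * δ ≤ 1 * δ := by gcongr
    have h5 : δ / 64 * s = s * δ / 64 := by ring
    have h6 : η * (s + δ) = η * s + η * δ := by ring
    have h7 : 2 * s * δ = 2 * (s * δ) := by ring
    rw [h6, h7]
    linarith
  · intro s hs hss
    rw [← hττ]
    have h1 : s ^ 2 ≤ s₁' ^ 2 := pow_le_pow_left₀ hs.le hss 2
    have h2 : s * δ ≤ s₁' * 1 := by gcongr; linarith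
    have h3 : s ^ 2 + s * δ ≤ s₁' ^ 2 + s₁' := by linarith
    calc τ * s ^ 2 + τ * s * δ = τ * (s ^ 2 + s * δ) := by ring
      _ ≤ _ := mul_le_mul_of_nonneg_left h3 hτ0.le
  · have h5 : 1 ≤ s₂ := by linarith
    have h6 : (2 + 6 * K) * s₂ ≤ τ * s₂ * s₂ := by gcongr
    have h7 : τ * s₂ * δ ≤ 1 * s₂ * 1 := by gcongr; linarith
    have h8 : s₂ * (K * η) ≤ s₂ * (K * 1) := by gcongr
    have h9 : K * 1 ≤ K * s₂ := by gcongr
    have h10 : τ * s₂ ^ 2 = τ * s₂ * s₂ := by ring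
    have h11 : (2 + 6 * K) * s₂ = 2 * s₂ + 6 * (K * s₂) := by ring
    have h12 : s₂ * (K * 1) = K * s₂ := by ring
    have h13 : 0 < K * s₂ := by positivity
    rw [h10]
    linarith
  · have h1 : K * η = k1 * δ / 64 := by rw [← hη1]; ring
    have h2 : s₁ * (k1 * δ / 64) = k1 * (s₁ * δ) / 64 := by ring
    rw [h1, h2, hs₁δ]
    linarith

/-- **Essential zero lemma.** -/
theorem ez {U : Fin d → Fin d → ℤ} {i1 j0 : Fin d} {B : Finset (Fin d → ℝ)}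
    (hG : Good U i1 j0 B) :
    ∃ τ : ℝ, 0 < τ ∧ τ < 1 ∧ ∃ η m R : ℝ, 0 < η ∧ 0 < m ∧ 0 < R ∧
      ∀ (A : (Fin d → ℝ) →L[ℝ] (Fin d → ℝ)) (c : Fin d → ℝ), NN j0 A = 0 → ‖A‖ ≤ η → ‖c‖ ≤ 1 →
        (‖A‖ = η ∨ ‖c‖ = 1) → ∀ f : (Fin d → ℝ) → (Fin d → ℝ), Continuous f →
        (∀ x, ‖x‖ ≤ R → ‖f x - (QQ U i1 τ x + A x + c)‖ ≤ m) → ∃ x, ‖x‖ ≤ R ∧ f x = 0 := by
  -- `B` is nonempty
  have hBne : B.Nonempty := by
    rw [Finset.nonempty_iff_ne_empty]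
    intro h
    have := hG.pos (Pi.single 0 1) (by rw [h]; simp)
    have h2 := congrFun this 0
    simp at h2
  -- `κ₁`
  obtain ⟨κ₁, hκ₁, hk₁⟩ := exists_kappa (E := Fin d → ℝ) B univ isClosed_univ
    (fun p c => -(p i1 * dt (nn U p) c))
    (fun p _ => (continuous_const.mul (continuous_dt _)).neg)
    (fun p _ t x _ => by simp only [dt_smul]; ring) (fun _ _ _ _ => mem_univ _) hBne
    (fun c _ hc => hG.pos c fun p hp => by have := hc p hp; linarith)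
  -- `κ₀`
  obtain ⟨κ₀, hκ₀, hk₀⟩ := exists_kappa (E := (Fin d → ℝ) →L[ℝ] (Fin d → ℝ)) B
    {A | NN j0 A = 0} (by
      have : Continuous (NN (d := d) j0) := (NN j0).continuous_of_finiteDimensional
      exact isClosed_eq this continuous_const)
    (fun p A => |dt (nn U p) (A p)|)
    (fun p _ => ((continuous_dt _).comp (by fun_prop)).abs)
    (fun p _ t A ht => by
      simp only [smul_apply, dt_smul, abs_mul, abs_of_pos ht])
    (fun t A _ hA => by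
      simp only [mem_ofPred_eq] at hA ⊢
      rw [map_smul, hA, smul_zero]) hBne
    (fun A hA hc => hG.span A hA fun p hp => abs_nonpos_iff.1 (hc p hp))
  -- `K`
  obtain ⟨K, hK1, hKn, hKq⟩ : ∃ K : ℝ, 1 ≤ K ∧ (∀ p ∈ B, ∑ i, |nn U p i| ≤ K) ∧
      ∀ ξ, |qq U ξ| ≤ K * ‖ξ‖ ^ 2 := by
    set K1 : ℝ := ∑ p ∈ B, ∑ i, |nn U p i| with hK1
    set K2 : ℝ := ∑ a, ∑ b, |(U a b : ℝ)| with hK2
    have hK10 : 0 ≤ K1 := Finset.sum_nonneg fun p _ => Finset.sum_nonneg fun i _ => abs_nonneg _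
    have hK20 : 0 ≤ K2 := Finset.sum_nonneg fun p _ => Finset.sum_nonneg fun i _ => abs_nonneg _
    refine ⟨1 + K1 + K2, by linarith, ?_, ?_⟩
    · intro p hp
      have : ∑ i, |nn U p i| ≤ K1 :=
        Finset.single_le_sum (f := fun p => ∑ i, |nn U p i|)
          (fun p _ => Finset.sum_nonneg fun i _ => abs_nonneg _) hp
      linarith
    · intro ξ
      have h1 : |qq U ξ| ≤ K2 * ‖ξ‖ ^ 2 := by
        unfold qq
        rw [hK2, Finset.sum_mul]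
        refine (Finset.abs_sum_le_sum_abs _ _).trans (Finset.sum_le_sum fun a _ => ?_)
        rw [Finset.sum_mul]
        refine (Finset.abs_sum_le_sum_abs _ _).trans (Finset.sum_le_sum fun b _ => ?_)
        rw [abs_mul, abs_mul, sq]
        exact mul_le_mul_of_nonneg_left (mul_le_mul (norm_le_pi_norm ξ a) (norm_le_pi_norm ξ b)
          (abs_nonneg _) (norm_nonneg _)) (abs_nonneg _)
      refine h1.trans (mul_le_mul_of_nonneg_right (by linarith) (by positivity))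
  have hK0 : 0 < K := by linarith
  -- shrink the constants
  obtain ⟨k1, hk1p, hk11, hk1le⟩ : ∃ k1 : ℝ, 0 < k1 ∧ k1 ≤ 1 ∧ k1 ≤ κ₁ :=
    ⟨min κ₁ 1, lt_min hκ₁ one_pos, min_le_right _ _, min_le_left _ _⟩
  obtain ⟨δ, s₁, s₁', s₂, η, m, τ, hδ0, hs₁0, hs₁'0, hs₂1, hη0, hm0, hτ0, hτ1, P1, P1', P2, P3,
    P4, P5, P6⟩ := params hκ₀ hk1p hk11 hK1
  have hs₁'p : 0 < s₁' := hs₁0.trans_le hs₁'0
  have hs₂p : 0 < s₂ := hs₁'p.trans_le hs₂1
  refine ⟨τ, hτ0, hτ1, η, m, s₂ + δ, hη0, hm0, by positivity, ?_⟩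
  intro A c hNA hAη hc1 hor f hfc hf
  have hA0 := norm_nonneg A
  have hc0 := norm_nonneg c
  -- common estimates
  have herr : K * (2 * δ ^ 2 + ‖A‖ * δ + m) ≤ k1 / 8 := by
    have h1 : 2 * δ ^ 2 + ‖A‖ * δ + m ≤ 2 * δ := by
      have : ‖A‖ * δ ≤ η * δ := by gcongr
      linarith
    exact (mul_le_mul_of_nonneg_left h1 hK0.le).trans P1'
  have herr0 : 0 ≤ K * (2 * δ ^ 2 + ‖A‖ * δ + m) := by positivity
  have hside : ∀ s, s₁ ≤ s → δ ^ 2 + ‖A‖ * (s + δ) + ‖c‖ + m < 2 * s * δ := by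
    intro s hs
    have h1 := P2 s hs
    have h2 : ‖A‖ * (s + δ) ≤ η * (s + δ) :=
      mul_le_mul_of_nonneg_right hAη (by linarith)
    linarith
  have hpabs : ∀ p ∈ B, ∀ i, |p i| = 1 := fun p hp i => by
    rw [← sq_eq_sq₀ (abs_nonneg _) zero_le_one, sq_abs, hG.psq p hp i]; norm_num
  have hAp : ∀ p ∈ B, |p i1 * dt (nn U p) (A p)| ≤ K * η := by
    intro p hp
    have hpn : ‖p‖ ≤ 1 := (pi_norm_le_iff_of_nonneg zero_le_one).2 fun i => by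
      rw [Real.norm_eq_abs, hpabs p hp]
    rw [abs_mul, hpabs p hp, one_mul]
    refine (abs_dt_le (hKn p hp) _).trans (mul_le_mul_of_nonneg_left ?_ hK0.le)
    refine (A.le_opNorm _).trans ?_
    calc ‖A‖ * ‖p‖ ≤ η * 1 := mul_le_mul hAη hpn (norm_nonneg _) hη0.le
      _ = η := mul_one _
  have hcp : ∀ p ∈ B, |p i1 * dt (nn U p) c| ≤ K * 1 := by
    intro p hp
    rw [abs_mul, hpabs p hp, one_mul]
    exact (abs_dt_le (hKn p hp) _).trans (mul_le_mul_of_nonneg_left hc1 hK0.le)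
  have hhigh : ∀ p ∈ B, ∀ σ : ℝ, σ ^ 2 = 1 →
      0 < τ * s₂ ^ 2 + σ * s₂ * (p i1 * dt (nn U p) (A p)) + p i1 * dt (nn U p) c
      - (τ * s₂ * δ + K * (2 * δ ^ 2 + ‖A‖ * δ + m)) := by
    intro p hp σ hσ
    have hσa : |σ| = 1 := by
      rw [← sq_eq_sq₀ (abs_nonneg _) zero_le_one, sq_abs, hσ]; norm_num
    have h1 : |σ * s₂ * (p i1 * dt (nn U p) (A p))| ≤ s₂ * (K * η) := by
      rw [abs_mul, abs_mul σ, hσa, one_mul, abs_of_pos hs₂p]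
      exact mul_le_mul_of_nonneg_left (hAp p hp) hs₂p.le
    have h3 := (abs_le.1 h1).1
    have h4 := (abs_le.1 (hcp p hp)).1
    linarith
  rcases hor with hAeq | hceq
  · -- case `‖A‖ = η`
    have hAne : A ≠ 0 := by
      rintro rfl; rw [norm_zero] at hAeq; exact hη0.ne hAeq
    obtain ⟨p, hp, hpA⟩ := hk₀ A hNA hAne
    set α : ℝ := p i1 * dt (nn U p) (A p) with hα
    have hαabs : |α| = |dt (nn U p) (A p)| := by rw [hα, abs_mul, hpabs p hp, one_mul]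
    obtain ⟨σ, hσ, hσα⟩ : ∃ σ : ℝ, σ ^ 2 = 1 ∧ σ * α = -|α| := by
      rcases le_total 0 α with h | h
      · exact ⟨-1, by norm_num, by rw [abs_of_nonneg h]; ring⟩
      · exact ⟨1, by norm_num, by rw [abs_of_nonpos h]; ring⟩
    have hα1 : κ₀ * η ≤ |α| := by
      rw [hαabs]
      refine le_trans ?_ hpA
      rw [hAeq]
    refine ez_box U i1 hτ0 (hG.p0 p hp) (hG.psq p hp) (hG.q0 p hp) hK0.le (hKn p hp) hKq hσ
      hs₁'p hs₂1 hδ0 A c hm0.le f hfc hf (fun s hs _ => hside s (hs₁'0.trans hs)) ?_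
      (hhigh p hp σ hσ)
    have h4 := (abs_le.1 (hcp p hp)).2
    have h5 := P3 s₁' hs₁'p le_rfl
    have h6 : σ * s₁' * α = s₁' * (σ * α) := by ring
    rw [← hα, h6, hσα]
    have h7 : s₁' * (κ₀ * η) ≤ s₁' * |α| := mul_le_mul_of_nonneg_left hα1 hs₁'p.le
    have h8 : s₁' * -|α| = -(s₁' * |α|) := by ring
    rw [h8]
    linarith
  · -- case `‖c‖ = 1`
    have hcne : c ≠ 0 := by
      rintro rfl; rw [norm_zero] at hceq; exact zero_ne_one hceq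
    obtain ⟨p, hp, hpc⟩ := hk₁ c (mem_univ _) hcne
    rw [hceq, mul_one] at hpc
    refine ez_box U i1 hτ0 (hG.p0 p hp) (hG.psq p hp) (hG.q0 p hp) hK0.le (hKn p hp) hKq
      (one_pow 2) hs₁0 (hs₁'0.trans hs₂1) hδ0 A c hm0.le f hfc hf (fun s hs _ => hside s hs) ?_
      (hhigh p hp 1 (one_pow 2))
    have h2 := (abs_le.1 (hAp p hp)).2
    have h3 : s₁ * (p i1 * dt (nn U p) (A p)) ≤ s₁ * (K * η) :=
      mul_le_mul_of_nonneg_left h2 hs₁0.le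
    have h5 := P3 s₁ hs₁0 hs₁'0
    rw [one_mul]
    linarith

end

end Pool.Agent.H70.Afd
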