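import Pool.Agent.H70.Afd.CertData
import Pool.Agent.H70.Afd.EZ

/-!
# Soundness of the certificate
-/

open Set Filter Topology

namespace Pool.Agent.H70.Afd.Cert

noncomputable section

attribute [local irreducible] ML CL RL Mp

lemma getD_of_map (f : ℕ → ℕ) (L : List ℕ) (n : ℕ) (h : (List.range n).map f = L) (l : ℕ)
    (hl : l < n) : L.getD l 0 = f l := by
  subst h
  rw [List.getD_eq_getElem _ _ (by simpa using hl), List.getElem_map, List.getElem_range]

lemma getD_of_map' (f : ℕ → ℕ) (K L : List ℕ) (h : K.map f = L) (l : ℕ) (hl : l < K.length) :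
    L.getD l 0 = f (K.getD l 0) := by
  subst h
  rw [List.getD_eq_getElem _ _ (by simpa using hl), List.getD_eq_getElem _ _ hl, List.getElem_map]

lemma Mp_eq (r : ℕ) : Mp r = sN 64 fun k => MN r k * 512 ^ k := by
  unfold Mp
  rfl

lemma sN_eq (n : ℕ) (f : ℕ → ℕ) : sN n f = ∑ i ∈ Finset.range n, f i := by
  induction n with
  | zero => rfl
  | succ n ih => rw [Finset.sum_range_succ, sN, ih]

lemma sZ_eq (n : ℕ) (f : ℕ → ℤ) : sZ n f = ∑ i ∈ Finset.range n, f i := by
  induction n with
  | zero => rfl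
  | succ n ih => rw [Finset.sum_range_succ, sZ, ih]

lemma digit_sum (B : ℕ) (hB : 0 < B) (n : ℕ) : ∀ (s : ℕ → ℕ), (∀ j, s j < B) → ∀ k, k < n →
    (∑ j ∈ Finset.range n, s j * B ^ j) / B ^ k % B = s k := by
  induction n with
  | zero => intro s _ k hk; exact absurd hk (Nat.not_lt_zero _)
  | succ n ih =>
    intro s hs k hk
    have h1 : ∑ j ∈ Finset.range (n + 1), s j * B ^ j =
        s 0 + B * ∑ j ∈ Finset.range n, s (j + 1) * B ^ j := by
      rw [Finset.sum_range_succ', Finset.mul_sum, pow_zero, mul_one, add_comm]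
      congr 1
      refine Finset.sum_congr rfl fun j _ => ?_
      ring
    rw [h1]
    rcases k with _ | k
    · rw [pow_zero, Nat.div_one, Nat.add_mul_mod_self_left, Nat.mod_eq_of_lt (hs 0)]
    · rw [pow_succ', ← Nat.div_div_eq_div_mul, Nat.add_mul_div_left _ _ hB,
        Nat.div_eq_of_lt (hs 0), zero_add]
      exact ih (fun j => s (j + 1)) (fun j => hs _) k (Nat.lt_of_succ_lt_succ hk)

lemma foldC_eq (ms : List ℕ) : ∀ c : ℕ,
    foldC c ms = ∑ l ∈ Finset.range ms.length, (c / 4 ^ l % 4) * ms.getD l 0 := by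
  induction ms with
  | nil => intro c; rfl
  | cons m ms ih =>
    intro c
    rw [foldC, ih, List.length_cons, Finset.sum_range_succ', add_comm]
    congr 1
    · refine Finset.sum_congr rfl fun l _ => ?_
      rw [Nat.div_div_eq_div_mul, ← pow_succ']
      rfl
    · simp

lemma MN_le (r k : ℕ) : MN r k ≤ 2 := by
  unfold MN
  have h1 : MI r k % 3 < 3 := Int.emod_lt_of_pos _ (by norm_num)
  omega

lemma MN_cast (r k : ℕ) : ((MN r k : ℕ) : ZMod 3) = ((MI r k : ℤ) : ZMod 3) := by
  have h0 : 0 ≤ MI r k % 3 := Int.emod_nonneg _ (by norm_num)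
  have h1 : ((MN r k : ℕ) : ℤ) = MI r k % 3 := by
    unfold MN
    exact Int.toNat_of_nonneg h0
  have h2 : ((MN r k : ℕ) : ZMod 3) = (((MN r k : ℕ) : ℤ) : ZMod 3) := by push_cast; rfl
  rw [h2, h1]
  exact ZMod.intCast_mod _ _

/-- entries of the inverse matrix -/
def Cc (i l : ℕ) : ℕ := CL.getD i 0 / 4 ^ l % 4

lemma cert_nat (i k : ℕ) (hi : i < 64) (hk : k < 64) :
    (∑ l ∈ Finset.range 64, Cc i l * MN l k) % 3 = if i = k then 1 else 0 := by
  have hML : ∀ l, l < 64 → ML.getD l 0 = Mp l := fun l hl => getD_of_map Mp ML 64 chk_ML l hl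
  have hlen : ML.length = 64 := by
    have := congrArg List.length chk_ML
    rw [List.length_map, List.length_range] at this
    exact this.symm
  have hRL : RL.getD i 0 = foldC (CL.getD i 0) ML :=
    getD_of_map' (fun c => foldC c ML) CL RL chk_RL i (by rw [CL_len]; exact hi)
  have h1 : RL.getD i 0 = ∑ j ∈ Finset.range 64,
      (∑ l ∈ Finset.range 64, Cc i l * MN l j) * 512 ^ j := by
    rw [hRL, foldC_eq, hlen]
    have h2 : ∀ l ∈ Finset.range 64, CL.getD i 0 / 4 ^ l % 4 * ML.getD l 0 =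
        ∑ j ∈ Finset.range 64, (Cc i l * MN l j) * 512 ^ j := by
      intro l hl
      rw [hML l (Finset.mem_range.1 hl), Mp_eq, sN_eq, Finset.mul_sum]
      refine Finset.sum_congr rfl fun j _ => ?_
      rw [Cc]; ring
    rw [Finset.sum_congr rfl h2, Finset.sum_comm]
    refine Finset.sum_congr rfl fun j _ => ?_
    rw [Finset.sum_mul]
  have h3 : ∀ j, ∑ l ∈ Finset.range 64, Cc i l * MN l j < 512 := by
    intro j
    calc ∑ l ∈ Finset.range 64, Cc i l * MN l j ≤ ∑ l ∈ Finset.range 64, 3 * 2 := by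
          refine Finset.sum_le_sum fun l _ => Nat.mul_le_mul ?_ (MN_le l j)
          have : Cc i l < 4 := Nat.mod_lt _ (by norm_num)
          omega
      _ < 512 := by simp
  have h4 := digit_sum 512 (by norm_num) 64 (fun j => ∑ l ∈ Finset.range 64, Cc i l * MN l j) h3 k hk
  rw [← h1] at h4
  have h5 := chk_dig
  rw [List.all_eq_true] at h5
  have h6 := h5 i (List.mem_range.2 hi)
  rw [List.all_eq_true] at h6
  have h7 := h6 k (List.mem_range.2 hk)
  rw [beq_iff_eq, h4] at h7
  exact h7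

/-- The integer matrix is invertible over the reals. -/
theorem MI_inj (y : ℕ → ℝ) (hy : ∀ r, r < 64 → ∑ k ∈ Finset.range 64, (MI r k : ℝ) * y k = 0) :
    ∀ k, k < 64 → y k = 0 := by
  let M : Matrix (Fin 64) (Fin 64) ℤ := fun r k => MI r k
  let C : Matrix (Fin 64) (Fin 64) ℤ := fun i l => (Cc i l : ℤ)
  have h1 : (C * M).map (Int.castRingHom (ZMod 3)) = 1 := by
    ext i k
    rw [Matrix.map_apply, Matrix.mul_apply, Matrix.one_apply]
    have h2 := cert_nat i k i.2 k.2
    have h3 : (Int.castRingHom (ZMod 3)) (∑ l, C i l * M l k) =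
        ((∑ l ∈ Finset.range 64, Cc i l * MN l k : ℕ) : ZMod 3) := by
      rw [map_sum, Finset.sum_range, Nat.cast_sum]
      refine Finset.sum_congr rfl fun l _ => ?_
      rw [map_mul, Nat.cast_mul, MN_cast]
      simp [C, M]
    rw [h3]
    have h4 : ((∑ l ∈ Finset.range 64, Cc i l * MN l k : ℕ) : ZMod 3) =
        (((∑ l ∈ Finset.range 64, Cc i l * MN l k) % 3 : ℕ) : ZMod 3) :=
      (ZMod.natCast_mod _ 3).symm
    rw [h4, h2]
    by_cases hik : i = k
    · simp [hik]
    · have : (i : ℕ) ≠ k := fun h => hik (Fin.ext h)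
      simp [hik, this]
  have h2 : M.det ≠ 0 := by
    intro h0
    have h3 := congrArg Matrix.det h1
    rw [Matrix.det_one, ← RingHom.mapMatrix_apply, ← RingHom.map_det, Matrix.det_mul, h0,
      mul_zero, map_zero] at h3
    exact zero_ne_one h3
  have h3 : (M.map (Int.castRingHom ℝ)).det ≠ 0 := by
    rw [← RingHom.mapMatrix_apply, ← RingHom.map_det]
    intro h
    apply h2
    have : ((M.det : ℤ) : ℝ) = 0 := h
    exact_mod_cast this
  have h4 : (fun k : Fin 64 => y k) = 0 := by
    apply Matrix.eq_zero_of_mulVec_eq_zero h3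
    funext r
    rw [Matrix.mulVec, Pi.zero_apply, dotProduct]
    have h5 := hy r r.2
    rw [Finset.sum_range] at h5
    rw [← h5]
    refine Finset.sum_congr rfl fun k _ => ?_
    simp [M]
  intro k hk
  exact congrFun h4 ⟨k, hk⟩

/-- the quadratic form -/
def U8 (a b : Fin 8) : ℤ := Ui a b

/-- real sign vectors -/
def pR (m : ℕ) : Fin 8 → ℝ := fun j => (pI m j : ℝ)

lemma pI_sq (m j : ℕ) : pI m j ^ 2 = 1 := by
  unfold pI
  split <;> norm_num

lemma LL_pR (m : ℕ) (a : Fin 8) : LL U8 (pR m) a = (LI m a : ℝ) := by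
  unfold LL LI
  rw [sZ_eq, Finset.sum_range]
  push_cast
  refine Finset.sum_congr rfl fun b _ => ?_
  simp [U8, pR]

lemma nn_pR (m : ℕ) (i : Fin 8) : nn U8 (pR m) i = (1 / 2 : ℝ) * (nI m i : ℝ) := by
  unfold nn nI
  rw [LL_pR]
  by_cases h : i = 0
  · simp [h]
  · have : (i : ℕ) ≠ 0 := fun h' => h (Fin.ext h')
    simp only [h, this, if_false]
    push_cast
    rw [pR]
    ring

lemma qq_pR (m : ℕ) : qq U8 (pR m) = (qI m : ℝ) := by
  unfold qq qI
  rw [sZ_eq, Finset.sum_range]
  push_cast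
  refine Finset.sum_congr rfl fun a _ => ?_
  rw [sZ_eq, Finset.sum_range]
  push_cast
  refine Finset.sum_congr rfl fun b _ => ?_
  simp [U8, pR]

lemma dt_pR (m : ℕ) (v : Fin 8 → ℝ) :
    2 * dt (nn U8 (pR m)) v = ∑ i : Fin 8, (nI m i : ℝ) * v i := by
  unfold dt
  rw [Finset.mul_sum]
  refine Finset.sum_congr rfl fun i _ => ?_
  rw [nn_pR]; ring

lemma sum_range_mul (n : ℕ) (g : ℕ → ℝ) : ∑ k ∈ Finset.range (8 * n), g k =
    ∑ i ∈ Finset.range n, ∑ a ∈ Finset.range 8, g (8 * i + a) := by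
  induction n with
  | zero => simp
  | succ n ih => rw [Nat.mul_succ, Finset.sum_range_add, ih,
      Finset.sum_range_succ (fun i => ∑ a ∈ Finset.range 8, g (8 * i + a)) n]

/-- entries of a linear map -/
def ent (A : (Fin 8 → ℝ) →L[ℝ] (Fin 8 → ℝ)) (k : ℕ) : ℝ :=
  if h : k < 64 then A (Pi.single ⟨k % 8, Nat.mod_lt _ (by norm_num)⟩ 1)
    ⟨k / 8, by omega⟩ else 0

lemma ent_eq (A : (Fin 8 → ℝ) →L[ℝ] (Fin 8 → ℝ)) (i a : Fin 8) :
    ent A (8 * (i : ℕ) + a) = A (Pi.single a 1) i := by
  have hi := i.2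
  have ha := a.2
  unfold ent
  rw [dif_pos (by omega)]
  have h1 : (⟨(8 * (i : ℕ) + a) % 8, Nat.mod_lt _ (by norm_num)⟩ : Fin 8) = a := by
    ext; simp only; omega
  have h2 : (⟨(8 * (i : ℕ) + a) / 8, by omega⟩ : Fin 8) = i := by
    ext; simp only; omega
  rw [h1, h2]

lemma apply_pR (A : (Fin 8 → ℝ) →L[ℝ] (Fin 8 → ℝ)) (m : ℕ) (i : Fin 8) :
    A (pR m) i = ∑ a : Fin 8, (pI m a : ℝ) * ent A (8 * (i : ℕ) + a) := by
  have h1 : pR m = ∑ a : Fin 8, (pI m a : ℝ) • (Pi.single a 1 : Fin 8 → ℝ) := by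
    funext j
    rw [Finset.sum_apply]
    simp [pR, Pi.single_apply]
  conv_lhs => rw [h1]
  rw [map_sum, Finset.sum_apply]
  refine Finset.sum_congr rfl fun a _ => ?_
  rw [map_smul, Pi.smul_apply, ent_eq, smul_eq_mul]

lemma key_sum (A : (Fin 8 → ℝ) →L[ℝ] (Fin 8 → ℝ)) (m : ℕ) :
    ∑ k ∈ Finset.range 64, ((nI m (k / 8) * pI m (k % 8) : ℤ) : ℝ) * ent A k =
      2 * dt (nn U8 (pR m)) (A (pR m)) := by
  rw [dt_pR, show (64 : ℕ) = 8 * 8 by norm_num, sum_range_mul, Finset.sum_range]
  refine Finset.sum_congr rfl fun i _ => ?_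
  rw [apply_pR, Finset.mul_sum, Finset.sum_range]
  refine Finset.sum_congr rfl fun a _ => ?_
  have ha := a.2
  have h1 : (8 * (i : ℕ) + a) / 8 = i := by omega
  have h2 : (8 * (i : ℕ) + a) % 8 = a := by omega
  rw [h1, h2]
  push_cast
  ring

/-- the set of base points -/
def B8 : Finset (Fin 8 → ℝ) := by
  classical
  exact masks.toFinset.image pR

lemma mem_B8 (p : Fin 8 → ℝ) : p ∈ B8 ↔ ∃ m ∈ masks, pR m = p := by
  classical
  unfold B8
  rw [Finset.mem_image]
  simp only [List.mem_toFinset]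

lemma masks_spec (m : ℕ) (hm : m ∈ masks) : qI m = 0 ∧ m % 2 = 0 := by
  have h := chk_masks
  rw [List.all_eq_true] at h
  have h1 := h m hm
  simp only [Bool.and_eq_true, beq_iff_eq] at h1
  exact ⟨h1.1.1, h1.1.2⟩

attribute [local irreducible] sel masks

lemma sel_mem (r : ℕ) (hr : r < 56) : sel.getD r 0 ∈ masks := by
  have h := chk_sel
  rw [List.all_eq_true] at h
  have hlen : sel.length = 56 := by decide +kernel
  have h1 : sel.getD r 0 ∈ sel := by
    rw [List.getD_eq_getElem _ _ (by rw [hlen]; exact hr)]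
    exact List.getElem_mem _
  have h2 := h _ h1
  simpa using h2

lemma pos_row (c : Fin 8 → ℝ) (h : ∀ p ∈ B8, 0 ≤ p 1 * dt (nn U8 p) c) (m : ℕ) (hm : m ∈ masks)
    (v : Fin 8 → ℤ) (hv : ∀ i : Fin 8, pI m 1 * nI m i = v i) : 0 ≤ ∑ i, (v i : ℝ) * c i := by
  have h1 := h (pR m) ((mem_B8 _).2 ⟨m, hm, rfl⟩)
  have h2 : ∑ i, (v i : ℝ) * c i = 2 * (pR m 1 * dt (nn U8 (pR m)) c) := by
    have h3 : 2 * (pR m 1 * dt (nn U8 (pR m)) c) = pR m 1 * (2 * dt (nn U8 (pR m)) c) := by ring
    rw [h3, dt_pR, Finset.mul_sum]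
    refine Finset.sum_congr rfl fun i _ => ?_
    rw [← hv i]
    push_cast
    rw [pR]
    simp only [Fin.val_one]
    ring
  rw [h2]
  linarith

theorem good8 : Good U8 1 1 B8 where
  hi1 := by decide
  hj0 := by decide
  p0 := by
    intro p hp
    obtain ⟨m, hm, rfl⟩ := (mem_B8 _).1 hp
    have h1 := (masks_spec m hm).2
    have h2 : m.testBit 0 = false := by
      rw [Nat.testBit_zero]
      simp [h1]
    simp [pR, pI, h2]
  psq := by
    intro p hp i
    obtain ⟨m, hm, rfl⟩ := (mem_B8 _).1 hp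
    have := pI_sq m i
    rw [pR]
    exact_mod_cast this
  q0 := by
    intro p hp
    obtain ⟨m, hm, rfl⟩ := (mem_B8 _).1 hp
    rw [qq_pR, (masks_spec m hm).1]
    norm_num
  span := by
    intro A hN hA
    have hN0 : A (Pi.single 0 1) 1 = 0 := by
      have := congrFun hN 0
      simpa [NN] using this
    have hNi : ∀ i : Fin 8, i ≠ 0 → A (Pi.single i 1) i = 0 := by
      intro i hi
      have := congrFun hN i
      simpa [NN, hi] using this
    have hy : ∀ r, r < 64 → ∑ k ∈ Finset.range 64, (MI r k : ℝ) * ent A k = 0 := by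
      intro r hr
      by_cases h56 : r < 56
      · have h1 := key_sum A (sel.getD r 0)
        have h2 : ∑ k ∈ Finset.range 64, (MI r k : ℝ) * ent A k =
            ∑ k ∈ Finset.range 64, ((nI (sel.getD r 0) (k / 8) * pI (sel.getD r 0) (k % 8) : ℤ) : ℝ)
              * ent A k := by
          refine Finset.sum_congr rfl fun k _ => ?_
          rw [MI, if_pos h56]
        rw [h2, h1, hA _ ((mem_B8 _).2 ⟨_, sel_mem r h56, rfl⟩), mul_zero]
      · by_cases h57 : r = 56
        · subst h57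
          rw [Finset.sum_eq_single_of_mem 8 (by simp)]
          · have h1 : ent A 8 = A (Pi.single 0 1) 1 := ent_eq A 1 0
            rw [h1, hN0, mul_zero]
          · intro k _ hk
            simp [MI, hk]
        · obtain ⟨t, ht, ht0, hrt⟩ : ∃ t : ℕ, t < 8 ∧ t ≠ 0 ∧ r = 56 + t :=
            ⟨r - 56, by omega, by omega, by omega⟩
          rw [Finset.sum_eq_single_of_mem (8 * t + t) (by simp; omega)]
          · have h1 := ent_eq A ⟨t, ht⟩ ⟨t, ht⟩
            simp only at h1
            rw [h1, hNi ⟨t, ht⟩ (by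
              intro h; apply ht0; exact congrArg Fin.val h), mul_zero]
          · intro k _ hk
            have h1 : MI r k = 0 := by
              unfold MI
              rw [if_neg h56, if_neg h57, if_neg]
              omega
            rw [h1]; simp
    have h1 := MI_inj (ent A) hy
    ext1 x
    have h2 : ∀ i a : Fin 8, A (Pi.single a 1) i = 0 := by
      intro i a
      rw [← ent_eq]
      exact h1 _ (by have := i.2; have := a.2; omega)
    have h3 : x = ∑ a : Fin 8, x a • (Pi.single a 1 : Fin 8 → ℝ) := by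
      funext j
      rw [Finset.sum_apply]
      simp [Pi.single_apply]
    rw [h3, map_sum, zero_apply]
    refine Finset.sum_eq_zero fun a _ => ?_
    rw [map_smul]
    have : A (Pi.single a 1) = 0 := by
      funext i; exact h2 i a
    rw [this, smul_zero]
  pos := by
    intro c h
    have g1 := pos_row c h 102 (by decide +kernel) ![-2, 0, -4, 2, 2, 4, -2, 2] (by decide +kernel)
    have g2 := pos_row c h 148 (by decide +kernel) ![2, -2, 0, 6, -2, 2, -2, -2] (by decide +kernel)
    have g3 := pos_row c h 170 (by decide +kernel) ![-2, 0, 0, -2, 0, -2, 0, 0] (by decide +kernel)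
    have g4 := pos_row c h 112 (by decide +kernel) ![2, 0, 0, 0, 2, -2, -2, 2] (by decide +kernel)
    have g5 := pos_row c h 46 (by decide +kernel) ![-2, 0, 0, -2, 0, 0, 2, 0] (by decide +kernel)
    have g6 := pos_row c h 0 (by decide +kernel) ![2, 4, -2, 0, -2, 0, 0, 0] (by decide +kernel)
    have g7 := pos_row c h 182 (by decide +kernel) ![-2, -2, 0, -2, 0, 2, 2, 0] (by decide +kernel)
    have g8 := pos_row c h 234 (by decide +kernel) ![-2, -2, 2, -2, 0, 0, 0, 0] (by decide +kernel)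
    have g9 := pos_row c h 176 (by decide +kernel) ![2, 0, 2, 2, 0, 0, 2, -2] (by decide +kernel)
    simp [Fin.sum_univ_eight] at g1 g2 g3 g4 g5 g6 g7 g8 g9
    have z0 : c 0 = 0 := le_antisymm (by linarith) (by linarith)
    have z1 : c 1 = 0 := le_antisymm (by linarith) (by linarith)
    have z2 : c 2 = 0 := le_antisymm (by linarith) (by linarith)
    have z3 : c 3 = 0 := le_antisymm (by linarith) (by linarith)
    have z4 : c 4 = 0 := le_antisymm (by linarith) (by linarith)
    have z5 : c 5 = 0 := le_antisymm (by linarith) (by linarith)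
    have z6 : c 6 = 0 := le_antisymm (by linarith) (by linarith)
    have z7 : c 7 = 0 := le_antisymm (by linarith) (by linarith)
    funext i
    fin_cases i
    · exact z0
    · exact z1
    · exact z2
    · exact z3
    · exact z4
    · exact z5
    · exact z6
    · exact z7

end

end Pool.Agent.H70.Afd.Cert
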