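import Pool.Agent.H70.Afd.Inst
import Pool.Agent.H70.Afd.Cert

/-!
# An orientation reversing symmetry of the quadratic map
-/

open Set Filter Topology

namespace Pool.Agent.H70.Afd

noncomputable section

section Gen

variable {V : Type*} [NormedAddCommGroup V] [NormedSpace ℝ V] [FiniteDimensional ℝ V]

lemma sign_cast_neg : ∀ s : SignType, ((-s : SignType) : ℤ) = -(s : ℤ) := by decide

lemma bijective_of_det_ne {M : V →L[ℝ] V} (hM : M.det ≠ 0) : Function.Bijective M := by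
  have hu : IsUnit (LinearMap.det (M : V →ₗ[ℝ] V)) := isUnit_iff_ne_zero.2 hM
  have hu' := (LinearMap.isUnit_iff_isUnit_det _).2 hu
  exact (Module.End.isUnit_iff _).1 hu'

/-- a symmetry of a quadratic map which reverses the orientation changes the sign of the signed
number of preimages -/
theorem sym_count {Q : V → V} {DQ : V →L[ℝ] V →L[ℝ] V} (hQ : IsQuad Q DQ) (G G' : V →L[ℝ] V)
    (hG : ∀ x, Q (G x) = G' (Q x)) (hdet : G.det * G'.det < 0) (c : V)
    (hreg : ∀ x, Q x = c → (DQ x).det ≠ 0) :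
    (∀ x, Q x = G' c → (DQ x).det ≠ 0) ∧
      ∑ᶠ x ∈ {x | Q x = G' c}, (SignType.sign (DQ x).det : ℤ) =
        -∑ᶠ x ∈ {x | Q x = c}, (SignType.sign (DQ x).det : ℤ) := by
  have hG0 : G.det ≠ 0 := by
    intro h; rw [h, zero_mul] at hdet; exact lt_irrefl _ hdet
  have hG'0 : G'.det ≠ 0 := by
    intro h; rw [h, mul_zero] at hdet; exact lt_irrefl _ hdet
  have hGb := bijective_of_det_ne hG0
  have hG'b := bijective_of_det_ne hG'0
  have hcomm : ∀ x, (DQ (G x)).comp G = G'.comp (DQ x) := by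
    intro x
    refine ContinuousLinearMap.ext fun h => ?_
    show DQ (G x) (G h) = G' (DQ x h)
    have e1 : DQ (G x) (G h) = Q (G x + G h) - Q (G x) - Q (G h) := by rw [hQ.add]; abel
    have e2 : DQ x h = Q (x + h) - Q x - Q h := by rw [hQ.add]; abel
    rw [e1, e2, ← map_add G, hG, hG, hG, map_sub, map_sub]
  have hdetx : ∀ x, (DQ (G x)).det * G.det = G'.det * (DQ x).det := by
    intro x
    have h1 : ((DQ (G x)).comp G).det = (DQ (G x)).det * G.det := LinearMap.det_comp _ _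
    have h2 : (G'.comp (DQ x)).det = G'.det * (DQ x).det := LinearMap.det_comp _ _
    rw [← h1, ← h2, hcomm]
  have hsign : ∀ x, (SignType.sign (DQ (G x)).det : ℤ) = -(SignType.sign (DQ x).det : ℤ) := by
    intro x
    have h1 : (DQ (G x)).det * G.det ^ 2 = (G.det * G'.det) * (DQ x).det := by
      have := hdetx x
      linear_combination G.det * this
    have h2 : SignType.sign ((DQ (G x)).det * G.det ^ 2) = SignType.sign (DQ (G x)).det := by
      rw [sign_mul, sign_pos (by positivity : 0 < G.det ^ 2), mul_one]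
    have h3 : SignType.sign ((G.det * G'.det) * (DQ x).det) = -SignType.sign (DQ x).det := by
      rw [sign_mul, sign_neg hdet]
      exact neg_one_mul _
    rw [← h2, h1, h3]
    exact sign_cast_neg _
  have himg : {x | Q x = G' c} = G '' {x | Q x = c} := by
    ext x
    constructor
    · intro hx
      obtain ⟨z, rfl⟩ := hGb.2 x
      refine ⟨z, ?_, rfl⟩
      have hx' : Q (G z) = G' c := hx
      rw [hG] at hx'
      exact hG'b.1 hx'
    · rintro ⟨z, hz, rfl⟩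
      have hz' : Q z = c := hz
      show Q (G z) = G' c
      rw [hG, hz']
  constructor
  · intro x hx
    have hx' : x ∈ {x | Q x = G' c} := hx
    rw [himg] at hx'
    obtain ⟨z, hz, rfl⟩ := hx'
    intro h0
    have h1 := hdetx z
    rw [h0, zero_mul] at h1
    exact (mul_ne_zero hG'0 (hreg z hz)) h1.symm
  · classical
    rw [himg, finsum_mem_image hGb.1.injOn]
    have h1 : ∀ z, (∑ᶠ (_ : z ∈ {x | Q x = c}), (SignType.sign (DQ (G z)).det : ℤ)) =
        -∑ᶠ (_ : z ∈ {x | Q x = c}), (SignType.sign (DQ z).det : ℤ) := by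
      intro z
      by_cases hz : z ∈ {x | Q x = c}
      · rw [finsum_eq_if, finsum_eq_if, if_pos hz, if_pos hz, hsign]
      · rw [finsum_eq_if, finsum_eq_if, if_neg hz, if_neg hz, neg_zero]
    rw [finsum_congr h1, finsum_neg_distrib]

/-- existence of a regular value -/
theorem exists_regular {d : ℕ} {Q : (Fin d → ℝ) → (Fin d → ℝ)}
    {DQ : (Fin d → ℝ) →L[ℝ] (Fin d → ℝ) →L[ℝ] (Fin d → ℝ)} (hQ : IsQuad Q DQ) :
    ∃ c, ∀ x, Q x = c → (DQ x).det ≠ 0 := by
  by_contra hcon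
  push Not at hcon
  have hsub : (univ : Set (Fin d → ℝ)) ⊆ Q '' {x | (DQ x).det = 0} := by
    intro c _
    obtain ⟨x, hx, hx0⟩ := hcon c
    exact ⟨x, hx0, hx⟩
  have h0 : MeasureTheory.volume (Q '' {x | (DQ x).det = 0}) = 0 :=
    MeasureTheory.addHaar_image_eq_zero_of_det_fderivWithin_eq_zero MeasureTheory.volume
      (fun x _ => (hQ.hasFDerivAt x).hasFDerivWithinAt) (fun x hx => hx)
  have h1 : MeasureTheory.volume (univ : Set (Fin d → ℝ)) = 0 :=
    MeasureTheory.measure_mono_null hsub h0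
  exact (isOpen_univ.measure_pos MeasureTheory.volume univ_nonempty).ne' h1

end Gen

section Eight

open Cert

/-- the diagonal matrix -/
def D1 : Matrix (Fin 8) (Fin 8) ℤ := fun i j =>
  if i = j then (if (i : ℕ) % 2 = 0 then -1 else 1) else 0

/-- the triangular matrix -/
def D2 : Matrix (Fin 8) (Fin 8) ℤ := fun i j =>
  if i = j then (if (i : ℕ) ≤ 1 then -1 else 1) else (if (j : ℕ) = 1 ∧ 2 ≤ (i : ℕ) then -1 else 0)

/-- the first permutation -/
def σ1 : Equiv.Perm (Fin 8) :=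
  Equiv.swap 0 1 * (Equiv.swap 2 3 * (Equiv.swap 4 5 * Equiv.swap 6 7))

/-- the second permutation -/
def σ2 : Equiv.Perm (Fin 8) := Equiv.swap 2 3 * (Equiv.swap 4 5 * Equiv.swap 6 7)

lemma sign_σ1 : Equiv.Perm.sign σ1 = 1 := by
  unfold σ1
  rw [map_mul, map_mul, map_mul, Equiv.Perm.sign_swap (by decide), Equiv.Perm.sign_swap (by decide),
    Equiv.Perm.sign_swap (by decide), Equiv.Perm.sign_swap (by decide)]
  decide

lemma sign_σ2 : Equiv.Perm.sign σ2 = -1 := by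
  unfold σ2
  rw [map_mul, map_mul, Equiv.Perm.sign_swap (by decide), Equiv.Perm.sign_swap (by decide),
    Equiv.Perm.sign_swap (by decide)]
  decide

lemma det_D1 : D1.det = 1 := by
  rw [Matrix.det_of_lowerTriangular D1 (by
    intro i j hij
    have h : i < j := hij
    simp [D1, h.ne])]
  decide

lemma det_D2 : D2.det = 1 := by
  rw [Matrix.det_of_lowerTriangular D2 (by
    intro i j hij
    have h : i < j := hij
    have h' : (i : ℕ) < j := h
    have h2 : ¬ ((j : ℕ) = 1 ∧ 2 ≤ (i : ℕ)) := by omega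
    simp [D2, h.ne, h2])]
  decide

/-- the matrix of `G` -/
def M1 : Matrix (Fin 8) (Fin 8) ℤ := D1.submatrix σ1 id

/-- the matrix of `G'` -/
def M2 : Matrix (Fin 8) (Fin 8) ℤ := D2.submatrix σ2 id

lemma det_M1 : M1.det = 1 := by
  rw [M1, Matrix.det_permute, sign_σ1, det_D1]; simp

lemma det_M2 : M2.det = -1 := by
  rw [M2, Matrix.det_permute, sign_σ2, det_D2]; simp

/-- the continuous linear map of an integer matrix -/
def ofMat (M : Matrix (Fin 8) (Fin 8) ℤ) : (Fin 8 → ℝ) →L[ℝ] (Fin 8 → ℝ) :=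
  LinearMap.toContinuousLinearMap (Matrix.toLin' (M.map (Int.castRingHom ℝ)))

lemma ofMat_apply (M : Matrix (Fin 8) (Fin 8) ℤ) (x : Fin 8 → ℝ) (i : Fin 8) :
    ofMat M x i = ∑ j, (M i j : ℝ) * x j := by
  show (Matrix.toLin' (M.map (Int.castRingHom ℝ))) x i = _
  rw [Matrix.toLin'_apply, Matrix.mulVec, dotProduct]
  rfl

lemma det_ofMat (M : Matrix (Fin 8) (Fin 8) ℤ) : (ofMat M).det = (M.det : ℝ) := by
  show LinearMap.det (Matrix.toLin' (M.map (Int.castRingHom ℝ))) = _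
  rw [LinearMap.det_toLin', ← RingHom.mapMatrix_apply, ← RingHom.map_det]
  rfl

lemma G_apply (x : Fin 8 → ℝ) :
    ofMat M1 x = ![x 1, -x 0, x 3, -x 2, x 5, -x 4, x 7, -x 6] := by
  funext i
  rw [ofMat_apply, Fin.sum_univ_eight]
  have h : ∀ i j, M1 i j = ![![0, 1, 0, 0, 0, 0, 0, 0], ![-1, 0, 0, 0, 0, 0, 0, 0],
      ![0, 0, 0, 1, 0, 0, 0, 0], ![0, 0, -1, 0, 0, 0, 0, 0], ![0, 0, 0, 0, 0, 1, 0, 0],
      ![0, 0, 0, 0, -1, 0, 0, 0], ![0, 0, 0, 0, 0, 0, 0, 1], ![0, 0, 0, 0, 0, 0, -1, 0]] i j := by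
    decide +kernel
  simp only [h]
  fin_cases i <;> simp

lemma G'_apply (x : Fin 8 → ℝ) :
    ofMat M2 x = ![-x 0, -x 1, x 3 - x 1, x 2 - x 1, x 5 - x 1, x 4 - x 1, x 7 - x 1, x 6 - x 1] := by
  funext i
  rw [ofMat_apply, Fin.sum_univ_eight]
  have h : ∀ i j, M2 i j = ![![-1, 0, 0, 0, 0, 0, 0, 0], ![0, -1, 0, 0, 0, 0, 0, 0],
      ![0, -1, 0, 1, 0, 0, 0, 0], ![0, -1, 1, 0, 0, 0, 0, 0], ![0, -1, 0, 0, 0, 1, 0, 0],
      ![0, -1, 0, 0, 1, 0, 0, 0], ![0, -1, 0, 0, 0, 0, 0, 1], ![0, -1, 0, 0, 0, 0, 1, 0]] i j := by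
    decide +kernel
  simp only [h]
  fin_cases i <;> simp <;> ring

lemma qq_U8 (x : Fin 8 → ℝ) : qq U8 x =
    x 0 * x 1 + x 0 * x 2 - x 0 * x 3 - x 0 * x 5 + x 0 * x 6 - x 0 * x 7
    - x 1 * x 2 - x 1 * x 3 - x 1 * x 4 - x 1 * x 6 - x 1 * x 7
    + x 2 * x 3 + x 2 * x 4 + x 2 * x 5 - x 2 * x 6
    + x 3 * x 4 - x 3 * x 5 + x 3 * x 7 + x 4 * x 7 + x 5 * x 6 := by
  have h : ∀ i j, U8 i j = ![![0, 1, 1, -1, 0, -1, 1, -1], ![0, 0, -1, -1, -1, 0, -1, -1],
      ![0, 0, 0, 1, 1, 1, -1, 0], ![0, 0, 0, 0, 1, -1, 0, 1], ![0, 0, 0, 0, 0, 0, 0, 1],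
      ![0, 0, 0, 0, 0, 0, 1, 0], ![0, 0, 0, 0, 0, 0, 0, 0], ![0, 0, 0, 0, 0, 0, 0, 0]] i j := by
    decide +kernel
  unfold qq
  simp only [h]
  simp [Fin.sum_univ_eight]
  ring

theorem G_comm (τ : ℝ) (x : Fin 8 → ℝ) :
    QQ U8 1 τ (ofMat M1 x) = ofMat M2 (QQ U8 1 τ x) := by
  rw [G'_apply, G_apply]
  funext i
  fin_cases i
  · simp only [QQ]
    simp [qq_U8]
    ring
  all_goals
    simp [QQ]
    try ring

lemma det_G_mul : (ofMat M1).det * (ofMat M2).det < 0 := by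
  rw [det_ofMat, det_ofMat, det_M1, det_M2]
  norm_num

end Eight

end

end Pool.Agent.H70.Afd
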