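import Pool.Agent.H70.Afd.Baire
import Pool.Agent.H70.Afd.Bad
import Pool.Agent.H70.Afd.Sym

/-!
# Generic smooth maps of `ℝⁿ` need not have property (R), for `n ≥ 64`
-/

open Set Filter Topology
open scoped ContDiff

namespace Pool.Agent.H70.Afd

noncomputable section

/-- preimages in a compact set move little -/
lemma eventually_preimage_subset {X Y : Type*} [TopologicalSpace X] [TopologicalSpace Y] [T2Space Y]
    {F : X → Y} (hF : Continuous F) {K O : Set X} (hK : IsCompact K) (hO : IsOpen O) {y : Y}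
    (h : K ∩ F ⁻¹' {y} ⊆ O) : ∀ᶠ y' in 𝓝 y, K ∩ F ⁻¹' {y'} ⊆ O := by
  have hK' : IsCompact (F '' (K \ O)) := (hK.diff hO).image hF
  have hy : y ∉ F '' (K \ O) := by
    rintro ⟨x, hx, rfl⟩
    exact hx.2 (h ⟨hx.1, rfl⟩)
  filter_upwards [hK'.isClosed.isOpen_compl.mem_nhds hy] with y' hy' x hx
  by_contra hxO
  exact hy' ⟨x, ⟨hx.1, hxO⟩, hx.2⟩

lemma Bad.fibre {n : ℕ} {F : Rn n → Rn n} {x : Rn n} {K : Set (Rn n)} (h : Bad F x K) :
    K ∩ F ⁻¹' {F x} = {x} := by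
  ext z
  constructor
  · rintro ⟨hz1, hz2⟩
    exact h.iso z hz1 hz2
  · intro hz
    rw [mem_singleton_iff] at hz
    rw [hz]
    exact ⟨mem_of_mem_nhds h.nhds, rfl⟩

/-- the local degree equals every signed number of preimages occurring arbitrarily close -/
lemma degree_eq {n : ℕ} {F : Rn n → Rn n} (hF : ContDiff ℝ 1 F) {x : Rn n} {K : Set (Rn n)}
    (h : Bad F x K) {k κ : ℤ} (hk : HasLocalDegree F x k) (hκ : HasCount F x K κ) : k = κ := by
  have hFc : Continuous F := hF.continuous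
  have hFd : ∀ z, HasFDerivAt F (fderiv ℝ F z) z := fun z =>
    (hF.differentiable (by norm_num) z).hasFDerivAt
  obtain ⟨U, ⟨hUc, hUn, hUf⟩, hUk⟩ := hk
  have hKU : IsCompact (U ∪ K) := hUc.union h.compact
  have hO : (U ∪ K) ∩ F ⁻¹' {F x} ⊆ interior (U ∩ K) := by
    rw [union_inter_distrib_right, hUf, h.fibre, union_self, singleton_subset_iff]
    exact mem_interior_iff_mem_nhds.2 (inter_mem hUn h.nhds)
  have hev := (eventually_preimage_subset hFc hKU isOpen_interior hO).and hUk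
  obtain ⟨ν, hν, hball⟩ := Metric.eventually_nhds_iff_ball.1 hev
  obtain ⟨O, hOo, hOne, hOsub, hOw⟩ := hκ ν hν
  -- Sard
  obtain ⟨y, hyO, hyr⟩ : ∃ y ∈ O, IsRegularValue F y := by
    by_contra hcon
    push Not at hcon
    have hsub : O ⊆ F '' {z | (fderiv ℝ F z).det = 0} := by
      intro y hy
      have := hcon y hy
      unfold IsRegularValue at this
      push Not at this
      obtain ⟨z, hz, hz'⟩ := this
      exact ⟨z, hz', hz⟩
    have h0 : MeasureTheory.volume (F '' {z | (fderiv ℝ F z).det = 0}) = 0 :=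
      MeasureTheory.addHaar_image_eq_zero_of_det_fderivWithin_eq_zero MeasureTheory.volume
        (fun z _ => (hFd z).hasFDerivWithinAt) (fun z hz => hz)
    have h1 : MeasureTheory.volume O = 0 := MeasureTheory.measure_mono_null hsub h0
    exact (hOo.measure_pos MeasureTheory.volume hOne).ne' h1
  obtain ⟨hb1, hb2⟩ := hball y (hOsub hyO)
  have hcount := hb2 hyr
  have hset : U ∩ F ⁻¹' {y} = {z | z ∈ K ∧ F z = y} := by
    ext z
    constructor
    · rintro ⟨hz1, hz2⟩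
      exact ⟨(interior_subset (hb1 ⟨Or.inl hz1, hz2⟩)).2, hz2⟩
    · rintro ⟨hz1, hz2⟩
      exact ⟨(interior_subset (hb1 ⟨Or.inr hz1, hz2⟩)).1, hz2⟩
  rw [signedCount, hset, hOw y hyO] at hcount
  exact hcount.symm

/-- property (R) fails at a bad point -/
theorem fail_of_bad {n : ℕ} {F : Rn n → Rn n} (hF : ContDiff ℝ 1 F) {x : Rn n} {K : Set (Rn n)}
    (h : Bad F x K) :
    IsCriticalPt F x ∧ IsIsolatedInFibre F x ∧ (∀ k, HasLocalDegree F x k → k = 0) ∧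
      (∀ U ∈ 𝓝 x, ∀ᶠ y in 𝓝 (F x), (U ∩ F ⁻¹' {y}).Nonempty) ∧ ¬ PropertyR F x := by
  have hFc : Continuous F := hF.continuous
  have hdeg : ∀ k, HasLocalDegree F x k → k = 0 := by
    intro k hk
    obtain ⟨κ, h1, h2⟩ := h.count
    have e1 := degree_eq hF h hk h1
    have e2 := degree_eq hF h hk h2
    omega
  have hsurj : ∀ U ∈ 𝓝 x, ∀ᶠ y in 𝓝 (F x), (U ∩ F ⁻¹' {y}).Nonempty := by
    intro U hU
    have hO : K ∩ F ⁻¹' {F x} ⊆ interior U := by
      rw [h.fibre, singleton_subset_iff]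
      exact mem_interior_iff_mem_nhds.2 hU
    filter_upwards [eventually_preimage_subset hFc h.compact isOpen_interior hO, h.surj]
      with y hy1 hy2
    obtain ⟨z, hz1, hz2⟩ := hy2
    exact ⟨z, interior_subset (hy1 ⟨hz1, hz2⟩), hz2⟩
  refine ⟨h.crit, ⟨K, h.nhds, h.fibre⟩, hdeg, hsurj, ?_⟩
  rintro ⟨k, hk, W, hW, hR⟩
  have hk0 := hdeg k hk
  subst hk0
  obtain ⟨r, hr, hrsub⟩ := Metric.nhds_basis_closedBall.mem_iff.1 (inter_mem hW h.nhds)
  have hiso : IsIsolatingNhd F x (Metric.closedBall x r) := by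
    refine ⟨isCompact_closedBall x r, Metric.closedBall_mem_nhds x hr, ?_⟩
    ext z
    constructor
    · rintro ⟨hz1, hz2⟩
      rw [← h.fibre]
      exact ⟨(hrsub hz1).2, hz2⟩
    · intro hz
      rw [mem_singleton_iff] at hz
      rw [hz]
      exact ⟨Metric.mem_closedBall_self hr.le, rfl⟩
  obtain ⟨y, hy, _, hcard⟩ := hR _ (fun z hz => (hrsub hz).1) hiso _
    (hsurj _ (Metric.closedBall_mem_nhds x hr))
  have hy' : (Metric.closedBall x r ∩ F ⁻¹' {y}).Nonempty := hy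
  simp only [Int.natAbs_zero, Nat.cast_zero, encard_eq_zero] at hcard
  exact hy'.ne_empty hcard

/-- a small perturbation in the Whitney topology is small after a linear change of coordinates -/
lemma small_of_whitney {n : ℕ} {V P : Type*} [NormedAddCommGroup V] [NormedSpace ℝ V]
    [NormedAddCommGroup P] [NormedSpace ℝ P] (e : Rn n ≃L[ℝ] V × P) {G : Rn n → Rn n}
    (hG : ContDiff ℝ ∞ G) {ε ε' : ℝ} (hε' : 0 ≤ ε')
    (hC : (‖(e : Rn n →L[ℝ] V × P)‖ + 1) * (‖(e.symm : V × P →L[ℝ] Rn n)‖ + 1) ^ 2 * ε' ≤ ε)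
    (hit : ∀ z, ∀ j ≤ 2, ‖iteratedFDeriv ℝ j G z‖ < ε') :
    Small ε (fun z => e (G (e.symm z))) := by
  set a := ‖(e : Rn n →L[ℝ] V × P)‖ with ha
  set b := ‖(e.symm : V × P →L[ℝ] Rn n)‖ with hb
  have ha0 : 0 ≤ a := norm_nonneg _
  have hb0 : 0 ≤ b := norm_nonneg _
  have g0 : ∀ z, ‖G z‖ ≤ ε' := fun z => by
    have := hit z 0 (by norm_num)
    rw [norm_iteratedFDeriv_zero] at this
    exact this.le
  have g1 : ∀ z, ‖fderiv ℝ G z‖ ≤ ε' := fun z => by
    have := hit z 1 (by norm_num)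
    rw [norm_iteratedFDeriv_one] at this
    exact this.le
  have g2 : ∀ z, ‖fderiv ℝ (fderiv ℝ G) z‖ ≤ ε' := fun z => by
    have := hit z 2 (by norm_num)
    rw [← norm_iteratedFDeriv_fderiv, norm_iteratedFDeriv_one] at this
    exact this.le
  have hGd : ∀ z, HasFDerivAt G (fderiv ℝ G z) z := fun z =>
    (hG.differentiable (by simp) z).hasFDerivAt
  have hGdd : Differentiable ℝ (fderiv ℝ G) :=
    (hG.fderiv_right (m := ∞) (by simp)).differentiable (by simp)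
  have glip : ∀ y z, ‖fderiv ℝ G y - fderiv ℝ G z‖ ≤ ε' * ‖y - z‖ := fun y z =>
    (convex_univ (𝕜 := ℝ) (E := Rn n)).norm_image_sub_le_of_norm_fderiv_le (𝕜 := ℝ)
      (fun w _ => hGdd w) (fun w _ => g2 w) (mem_univ z) (mem_univ y)
  have hd : ∀ z, HasFDerivAt (fun z => e (G (e.symm z)))
      ((e : Rn n →L[ℝ] V × P).comp ((fderiv ℝ G (e.symm z)).comp (e.symm : V × P →L[ℝ] Rn n))) z :=
    fun z => e.hasFDerivAt.comp z ((hGd (e.symm z)).comp z e.symm.hasFDerivAt)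
  have hb1 : 1 ≤ (b + 1) ^ 2 := one_le_pow₀ (by linarith)
  have hC0 : a * ε' ≤ ε := by
    refine le_trans ?_ hC
    calc a * ε' = a * 1 * ε' := by ring
      _ ≤ (a + 1) * (b + 1) ^ 2 * ε' := by gcongr; linarith
  have hC1 : a * (ε' * b) ≤ ε := by
    refine le_trans ?_ hC
    calc a * (ε' * b) = a * b * ε' := by ring
      _ ≤ (a + 1) * (b + 1) ^ 2 * ε' := by
        have : b ≤ (b + 1) ^ 2 := by nlinarith
        gcongr
        linarith
  have hC2 : a * (ε' * b * b) ≤ ε := by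
    refine le_trans ?_ hC
    calc a * (ε' * b * b) = a * b ^ 2 * ε' := by ring
      _ ≤ (a + 1) * (b + 1) ^ 2 * ε' := by
        gcongr
        · linarith
        · linarith
  refine ⟨?_, ?_, ?_, ?_⟩
  · exact e.contDiff.comp ((hG.of_le (by exact_mod_cast le_top)).comp e.symm.contDiff)
  · intro z
    calc ‖e (G (e.symm z))‖ ≤ a * ‖G (e.symm z)‖ := (e : Rn n →L[ℝ] V × P).le_opNorm _
      _ ≤ a * ε' := by gcongr; exact g0 _
      _ ≤ ε := hC0
  · intro z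
    rw [(hd z).fderiv]
    calc _ ≤ a * ‖(fderiv ℝ G (e.symm z)).comp (e.symm : V × P →L[ℝ] Rn n)‖ :=
          ContinuousLinearMap.opNorm_comp_le _ _
      _ ≤ a * (‖fderiv ℝ G (e.symm z)‖ * b) := by
          gcongr
          exact ContinuousLinearMap.opNorm_comp_le _ _
      _ ≤ a * (ε' * b) := by gcongr; exact g1 _
      _ ≤ ε := hC1
  · intro z z'
    rw [(hd z).fderiv, (hd z').fderiv]
    have h1 : (e : Rn n →L[ℝ] V × P).comp ((fderiv ℝ G (e.symm z')).comp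
        (e.symm : V × P →L[ℝ] Rn n)) - (e : Rn n →L[ℝ] V × P).comp ((fderiv ℝ G (e.symm z)).comp
        (e.symm : V × P →L[ℝ] Rn n)) = (e : Rn n →L[ℝ] V × P).comp
        ((fderiv ℝ G (e.symm z') - fderiv ℝ G (e.symm z)).comp (e.symm : V × P →L[ℝ] Rn n)) := by
      rw [← ContinuousLinearMap.comp_sub, ← ContinuousLinearMap.sub_comp]
    rw [h1]
    have h2 : ‖e.symm z' - e.symm z‖ ≤ b * ‖z' - z‖ := by
      rw [← map_sub]
      exact (e.symm : V × P →L[ℝ] Rn n).le_opNorm _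
    calc _ ≤ a * ‖(fderiv ℝ G (e.symm z') - fderiv ℝ G (e.symm z)).comp
            (e.symm : V × P →L[ℝ] Rn n)‖ := ContinuousLinearMap.opNorm_comp_le _ _
      _ ≤ a * (‖fderiv ℝ G (e.symm z') - fderiv ℝ G (e.symm z)‖ * b) := by
          gcongr
          exact ContinuousLinearMap.opNorm_comp_le _ _
      _ ≤ a * (ε' * (b * ‖z' - z‖) * b) := by
          gcongr
          exact (glip _ _).trans (by gcongr)
      _ = a * (ε' * b * b) * ‖z' - z‖ := by ring
      _ ≤ ε * ‖z' - z‖ := by gcongr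

/-- the open set of bad maps -/
theorem exists_open_bad {n : ℕ} (hn : 64 ≤ n) : ∃ O : Set (SmoothMap n), IsOpen O ∧ O.Nonempty ∧
    ∀ F ∈ O, ∃ x, IsCriticalPt F.1 x ∧ IsIsolatedInFibre F.1 x ∧
      (∀ k, HasLocalDegree F.1 x k → k = 0) ∧
      (∀ U ∈ 𝓝 x, ∀ᶠ y in 𝓝 (F.1 x), (U ∩ F.1 ⁻¹' {y}).Nonempty) ∧
      ¬ PropertyR F.1 x := by
  obtain ⟨τ, hτ0, hτ1, η, m, R, hη, hm, hR, hez⟩ := ez Cert.good8
  have hj : (1 : Fin 8) ≠ 0 := Cert.good8.hj0
  have hQ := isQuad_QQ Cert.U8 1 τ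
  obtain ⟨Λ, Rr, hRr⟩ := exists_Lambda Cert.U8 1 τ hj (n - 8) (by omega)
  obtain ⟨c, hc⟩ := exists_regular hQ
  obtain ⟨hc', hsum⟩ := sym_count hQ (ofMat M1) (ofMat M2) (G_comm τ) det_G_mul c hc
  obtain ⟨ε, hε, hbad⟩ := model_bad hQ (QQ_zero Cert.U8 1 hτ0 hτ1) Λ Rr hRr (NN 1) (norm_NN_le 1)
    (Ji 8) (Ji_NN_DQ Cert.U8 1 τ hj) norm_Ji_le hη hm hR hez c (ofMat M2 c) hc hc' _ rfl hsum
  -- coordinates
  have hdim : Module.finrank ℝ (Rn n) = Module.finrank ℝ ((Fin 8 → ℝ) × (Fin (n - 8) → ℝ)) := by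
    rw [finrank_euclideanSpace_fin, Module.finrank_prod, Module.finrank_fin_fun,
      Module.finrank_fin_fun]
    omega
  let e : Rn n ≃L[ℝ] (Fin 8 → ℝ) × (Fin (n - 8) → ℝ) := ContinuousLinearEquiv.ofFinrankEq hdim
  set C : ℝ := (‖(e : Rn n →L[ℝ] (Fin 8 → ℝ) × (Fin (n - 8) → ℝ))‖ + 1) *
    (‖(e.symm : (Fin 8 → ℝ) × (Fin (n - 8) → ℝ) →L[ℝ] Rn n)‖ + 1) ^ 2 with hC
  have hC0 : 0 < C := by positivity
  have hF0s : ContDiff ℝ ∞ (F0 (QQ Cert.U8 1 τ) Λ) := by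
    unfold F0
    exact (((contDiff_Q hQ).comp contDiff_fst).add
      ((Λ.contDiff.comp contDiff_snd).clm_apply contDiff_fst)).prodMk contDiff_snd
  let f₀ : SmoothMap n := ⟨fun x => e.symm (F0 (QQ Cert.U8 1 τ) Λ (e x)),
    e.symm.contDiff.comp (hF0s.comp e.contDiff)⟩
  refine ⟨whitneyNhd f₀ 2 (fun _ => ε / C), isOpen_whitneyNhd _ _ _ continuous_const,
    ⟨f₀, self_mem_nhd _ _ _ fun _ => by positivity⟩, ?_⟩
  intro F hF
  have hFs : ContDiff ℝ ∞ F.1 := F.2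
  have hf0s : ContDiff ℝ ∞ f₀.1 := f₀.2
  have hGs : ContDiff ℝ ∞ (F.1 - f₀.1) := hFs.sub hf0s
  have hit : ∀ z, ∀ j ≤ 2, ‖iteratedFDeriv ℝ j (F.1 - f₀.1) z‖ < ε / C := by
    intro z j hj
    have h1 : iteratedFDeriv ℝ j (F.1 - f₀.1) z = iteratedFDeriv ℝ j F.1 z
        - iteratedFDeriv ℝ j f₀.1 z :=
      iteratedFDeriv_sub_apply (hFs.contDiffAt.of_le (by exact_mod_cast le_top))
        (hf0s.contDiffAt.of_le (by exact_mod_cast le_top))
    rw [h1]
    exact hF z j hj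
  have hsmall : Small ε (fun z => e ((F.1 - f₀.1) (e.symm z))) :=
    small_of_whitney e hGs (by positivity) (by rw [← hC]; field_simp; exact le_rfl) hit
  obtain ⟨z₀, K, hB⟩ := hbad _ hsmall
  have hfun : (fun z => F0 (QQ Cert.U8 1 τ) Λ z + e ((F.1 - f₀.1) (e.symm z))) =
      fun z => e (F.1 (e.symm z)) := by
    funext z
    rw [Pi.sub_apply, map_sub]
    have : e (f₀.1 (e.symm z)) = F0 (QQ Cert.U8 1 τ) Λ z := by
      show e (e.symm (F0 (QQ Cert.U8 1 τ) Λ (e (e.symm z)))) = _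
      rw [e.apply_symm_apply, e.apply_symm_apply]
    rw [this]
    abel
  rw [hfun] at hB
  have hB' := Bad.transfer e (hFs.differentiable (by simp)) hB
  exact ⟨_, fail_of_bad (hFs.of_le (by exact_mod_cast le_top)) hB'⟩

/-- **Main theorem.** -/
theorem main (n : ℕ) (hn : 64 ≤ n) : {F : SmoothMap n | RProperty F} ∉ residual (SmoothMap n) := by
  intro h
  have := baireSpace_smoothMap n
  have hd : Dense {F : SmoothMap n | RProperty F} := dense_of_mem_residual h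
  obtain ⟨O, hO, hOne, hbad⟩ := exists_open_bad hn
  obtain ⟨F, hFO, hF⟩ := hd.inter_open_nonempty O hO hOne
  obtain ⟨x, hx1, hx2, _, _, hx5⟩ := hbad F hFO
  exact hx5 (hF x hx1 hx2)

end

end Pool.Agent.H70.Afd
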