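import Pool.Agent.H70.Afd.Model
import Pool.Agent.H70.Afd.EZ

/-!
# The concrete quadratic maps
-/

open Set Filter Topology

namespace Pool.Agent.H70.Afd

noncomputable section

set_option linter.unusedSectionVars false

variable {d : ℕ} [NeZero d]

/-- the derivative of the quadratic map, as a bilinear map -/
def DQl (U : Fin d → Fin d → ℤ) (i1 : Fin d) (τ : ℝ) :
    (Fin d → ℝ) →ₗ[ℝ] (Fin d → ℝ) →ₗ[ℝ] (Fin d → ℝ) :=
  LinearMap.mk₂ ℝ (fun x h i => if i = 0 then ∑ a, LL U x a * h a + τ * (x 0 * h i1 + h 0 * x i1)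
      else 2 * (x i * h i) - 2 * (x 0 * h 0))
    (by
      intro x y h
      funext i
      by_cases hi : i = 0
      · simp only [hi, if_true, Pi.add_apply, LL_add, add_mul, Finset.sum_add_distrib]
        ring
      · simp only [hi, if_false, Pi.add_apply]
        ring)
    (by
      intro c x h
      funext i
      by_cases hi : i = 0
      · simp only [hi, if_true, Pi.smul_apply, smul_eq_mul, LL_smul, mul_add, Finset.mul_sum]
        congr 1
        · refine Finset.sum_congr rfl fun a _ => ?_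
          ring
        · ring
      · simp only [hi, if_false, Pi.smul_apply, smul_eq_mul]
        ring)
    (by
      intro x h k
      funext i
      by_cases hi : i = 0
      · simp only [hi, if_true, Pi.add_apply, mul_add, Finset.sum_add_distrib]
        ring
      · simp only [hi, if_false, Pi.add_apply]
        ring)
    (by
      intro c x h
      funext i
      by_cases hi : i = 0
      · simp only [hi, if_true, Pi.smul_apply, smul_eq_mul, mul_add, Finset.mul_sum]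
        congr 1
        · refine Finset.sum_congr rfl fun a _ => ?_
          ring
        · ring
      · simp only [hi, if_false, Pi.smul_apply, smul_eq_mul]
        ring)

/-- the derivative of the quadratic map -/
def DQ (U : Fin d → Fin d → ℤ) (i1 : Fin d) (τ : ℝ) :
    (Fin d → ℝ) →L[ℝ] (Fin d → ℝ) →L[ℝ] (Fin d → ℝ) :=
  LinearMap.toContinuousLinearMap
    ((LinearMap.toContinuousLinearMap : ((Fin d → ℝ) →ₗ[ℝ] (Fin d → ℝ)) ≃ₗ[ℝ] _).toLinearMap.comp
      (DQl U i1 τ))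

lemma DQ_apply (U : Fin d → Fin d → ℤ) (i1 : Fin d) (τ : ℝ) (x h : Fin d → ℝ) (i : Fin d) :
    DQ U i1 τ x h i = if i = 0 then ∑ a, LL U x a * h a + τ * (x 0 * h i1 + h 0 * x i1)
      else 2 * (x i * h i) - 2 * (x 0 * h 0) := rfl

theorem isQuad_QQ (U : Fin d → Fin d → ℤ) (i1 : Fin d) (τ : ℝ) :
    IsQuad (QQ U i1 τ) (DQ U i1 τ) where
  add x h := by
    funext i
    rw [Pi.add_apply, Pi.add_apply, DQ_apply]
    by_cases hi : i = 0
    · simp only [QQ, hi, if_true, qq_add, Pi.add_apply]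
      ring
    · simp only [QQ, hi, if_false, Pi.add_apply]
      ring
  smul t x := by
    funext i
    rw [Pi.smul_apply]
    by_cases hi : i = 0
    · simp only [QQ, hi, if_true, qq_smul, Pi.smul_apply, smul_eq_mul]
      ring
    · simp only [QQ, hi, if_false, Pi.smul_apply, smul_eq_mul]
      ring

/-- the quadratic map has no zero besides the origin -/
theorem QQ_zero (U : Fin d → Fin d → ℤ) (i1 : Fin d) {τ : ℝ} (hτ0 : 0 < τ) (hτ1 : τ < 1)
    (x : Fin d → ℝ) (hx : QQ U i1 τ x = 0) : x = 0 := by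
  have h1 : ∀ i, x i ^ 2 = x 0 ^ 2 := by
    intro i
    by_cases hi : i = 0
    · rw [hi]
    · have := congrFun hx i
      simp only [QQ, hi, if_false, Pi.zero_apply] at this
      linarith
  by_cases hx0 : x 0 = 0
  · funext i
    have := h1 i
    rw [hx0] at this
    simpa using this
  · exfalso
    -- signs
    have hs : ∀ i, ∃ s : ℤ, (s = 1 ∨ s = -1) ∧ x i = x 0 * s := by
      intro i
      rcases sq_eq_sq_iff_eq_or_eq_neg.1 (h1 i) with h | h
      · exact ⟨1, Or.inl rfl, by rw [h]; simp⟩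
      · exact ⟨-1, Or.inr rfl, by rw [h]; simp⟩
    choose s hs1 hs2 using hs
    have hx' : x = x 0 • (fun i => (s i : ℝ)) := by
      funext i
      rw [Pi.smul_apply, smul_eq_mul]
      exact hs2 i
    have h2 := congrFun hx 0
    simp only [QQ, if_true, Pi.zero_apply] at h2
    have h3 : qq U x = x 0 ^ 2 * qq U (fun i => (s i : ℝ)) := by
      conv_lhs => rw [hx', qq_smul]
    have h4 : qq U (fun i => (s i : ℝ)) = ((∑ a, ∑ b, U a b * (s a * s b) : ℤ) : ℝ) := by
      unfold qq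
      push_cast
      rfl
    set n : ℤ := ∑ a, ∑ b, U a b * (s a * s b) with hn
    rw [h3, h4, hs2 i1] at h2
    have h5 : x 0 ^ 2 * ((n : ℝ) + τ * (s i1 : ℝ)) = 0 := by linear_combination h2
    have h6 : (n : ℝ) + τ * (s i1 : ℝ) = 0 :=
      (mul_eq_zero.1 h5).resolve_left (pow_ne_zero _ hx0)
    rcases hs1 i1 with h7 | h7
    · rw [h7] at h6
      have h8 : (n : ℝ) = -τ := by push_cast at h6; linarith
      have h9 : -1 < (n : ℝ) := by rw [h8]; linarith
      have h10 : (n : ℝ) < 0 := by rw [h8]; linarith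
      have h11 : -1 < n := by exact_mod_cast h9
      have h12 : n < 0 := by exact_mod_cast h10
      omega
    · rw [h7] at h6
      have h8 : (n : ℝ) = τ := by push_cast at h6; linarith
      have h9 : 0 < (n : ℝ) := by rw [h8]; linarith
      have h10 : (n : ℝ) < 1 := by rw [h8]; linarith
      have h11 : 0 < n := by exact_mod_cast h9
      have h12 : n < 1 := by exact_mod_cast h10
      omega

/-- the inverse of the normalisation -/
def Ji (d : ℕ) [NeZero d] : (Fin d → ℝ) →L[ℝ] (Fin d → ℝ) :=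
  ContinuousLinearMap.pi fun i => (if i = 0 then -(1 / 2 : ℝ) else (1 / 2 : ℝ)) •
    ContinuousLinearMap.proj i

lemma Ji_apply (y : Fin d → ℝ) (i : Fin d) :
    Ji d y i = (if i = 0 then -(1 / 2 : ℝ) else (1 / 2 : ℝ)) * y i := rfl

lemma NN_DQ (U : Fin d → Fin d → ℤ) (i1 : Fin d) (τ : ℝ) {j0 : Fin d} (hj0 : j0 ≠ 0)
    (u : Fin d → ℝ) (i : Fin d) :
    NN j0 (DQ U i1 τ u) i = (if i = 0 then -(2 : ℝ) else (2 : ℝ)) * u i := by
  by_cases hi : i = 0
  · subst hi
    simp only [NN, LinearMap.coe_mk, AddHom.coe_mk, if_true]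
    rw [DQ_apply, if_neg hj0, Pi.single_eq_same, Pi.single_eq_of_ne hj0]
    ring
  · simp only [NN, LinearMap.coe_mk, AddHom.coe_mk, hi, if_false]
    rw [DQ_apply, if_neg hi, Pi.single_eq_same, Pi.single_eq_of_ne (Ne.symm hi)]
    ring

lemma Ji_NN_DQ (U : Fin d → Fin d → ℤ) (i1 : Fin d) (τ : ℝ) {j0 : Fin d} (hj0 : j0 ≠ 0)
    (u : Fin d → ℝ) : Ji d (NN j0 (DQ U i1 τ u)) = u := by
  funext i
  rw [Ji_apply, NN_DQ U i1 τ hj0]
  by_cases hi : i = 0
  · simp only [hi, if_true]; ring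
  · simp only [hi, if_false]; ring

lemma NN_DQ_Ji (U : Fin d → Fin d → ℤ) (i1 : Fin d) (τ : ℝ) {j0 : Fin d} (hj0 : j0 ≠ 0)
    (y : Fin d → ℝ) : NN j0 (DQ U i1 τ (Ji d y)) = y := by
  funext i
  rw [NN_DQ U i1 τ hj0, Ji_apply]
  by_cases hi : i = 0
  · simp only [hi, if_true]; ring
  · simp only [hi, if_false]; ring

lemma norm_Ji_le (y : Fin d → ℝ) : ‖Ji d y‖ ≤ 1 / 2 * ‖y‖ := by
  refine (pi_norm_le_iff_of_nonneg (by positivity)).2 fun i => ?_
  rw [Ji_apply, norm_mul]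
  have h1 : ‖(if i = 0 then -(1 / 2 : ℝ) else (1 / 2 : ℝ))‖ = 1 / 2 := by
    by_cases hi : i = 0
    · simp only [hi, if_true, norm_neg]; norm_num
    · simp only [hi, if_false]; norm_num
  rw [h1]
  exact mul_le_mul_of_nonneg_left (norm_le_pi_norm y i) (by norm_num)

lemma finrank_L (d : ℕ) : Module.finrank ℝ ((Fin d → ℝ) →L[ℝ] (Fin d → ℝ)) = d * d := by
  have h1 := (LinearMap.toContinuousLinearMap :
    ((Fin d → ℝ) →ₗ[ℝ] (Fin d → ℝ)) ≃ₗ[ℝ] ((Fin d → ℝ) →L[ℝ] (Fin d → ℝ))).finrank_eq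
  rw [← h1, Module.finrank_linearMap]
  simp

/-- the unfolding -/
theorem exists_Lambda (U : Fin d → Fin d → ℤ) (i1 : Fin d) (τ : ℝ) {j0 : Fin d} (hj0 : j0 ≠ 0)
    (m : ℕ) (hm : d * d ≤ d + m) :
    ∃ (Λ : (Fin m → ℝ) →L[ℝ] (Fin d → ℝ) →L[ℝ] (Fin d → ℝ))
      (Rr : ((Fin d → ℝ) →L[ℝ] (Fin d → ℝ)) →L[ℝ] (Fin d → ℝ) × (Fin m → ℝ)),
      ∀ M, TT (DQ U i1 τ) Λ (Rr M) = M := by
  obtain ⟨K, hK⟩ : ∃ K : Submodule ℝ ((Fin d → ℝ) →L[ℝ] (Fin d → ℝ)),
      K = LinearMap.ker (NN (d := d) j0) := ⟨_, rfl⟩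
  have hsurj : LinearMap.range (NN (d := d) j0) = ⊤ :=
    LinearMap.range_eq_top.2 fun y => ⟨_, NN_DQ_Ji U i1 τ hj0 y⟩
  have hfr : Module.finrank ℝ K ≤ m := by
    have h1 := LinearMap.finrank_range_add_finrank_ker (NN (d := d) j0)
    rw [hsurj, finrank_top, finrank_L, ← hK, Module.finrank_fin_fun] at h1
    omega
  have hfree : Module.Free ℝ K := Module.Free.of_divisionRing ℝ K
  have hfin : Module.Finite ℝ K := FiniteDimensional.finiteDimensional_submodule K
  let b := Module.finBasis ℝ K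
  let Λ0 : (Fin m → ℝ) →ₗ[ℝ] K := b.equivFun.symm.toLinearMap ∘ₗ
    (LinearMap.funLeft ℝ ℝ (Fin.castLE hfr))
  have hΛ0 : Function.Surjective Λ0 := by
    have h1 : Function.Surjective (LinearMap.funLeft ℝ ℝ (Fin.castLE hfr)) :=
      LinearMap.funLeft_surjective_of_injective ℝ ℝ _ (Fin.castLE_injective hfr)
    exact b.equivFun.symm.surjective.comp h1
  let Λ : (Fin m → ℝ) →L[ℝ] (Fin d → ℝ) →L[ℝ] (Fin d → ℝ) :=
    LinearMap.toContinuousLinearMap (K.subtype ∘ₗ Λ0)
  have hT : Function.Surjective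
      (TT (DQ U i1 τ) Λ : (Fin d → ℝ) × (Fin m → ℝ) →ₗ[ℝ] ((Fin d → ℝ) →L[ℝ] (Fin d → ℝ))) := by
    intro M
    have h1 : M - DQ U i1 τ (Ji d (NN j0 M)) ∈ K := by
      rw [hK, LinearMap.mem_ker, map_sub, NN_DQ_Ji U i1 τ hj0, sub_self]
    obtain ⟨a, ha⟩ := hΛ0 ⟨_, h1⟩
    refine ⟨(Ji d (NN j0 M), a), ?_⟩
    show DQ U i1 τ (Ji d (NN j0 M)) + Λ a = M
    have h2 : Λ a = M - DQ U i1 τ (Ji d (NN j0 M)) := congrArg Subtype.val ha
    rw [h2]
    abel
  obtain ⟨g, hg⟩ := LinearMap.exists_rightInverse_of_surjective _ (LinearMap.range_eq_top.2 hT)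
  refine ⟨Λ, LinearMap.toContinuousLinearMap g, fun M => ?_⟩
  exact LinearMap.congr_fun hg M

end

end Pool.Agent.H70.Afd
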