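import Mathlib

/-!
# Stability of the signed number of zeros
-/

open Set Filter Topology

namespace Pool.Agent.H70.Afd

noncomputable section

variable {V : Type*} [NormedAddCommGroup V] [NormedSpace ℝ V] [FiniteDimensional ℝ V]

lemma det_ne_of_inj (M : V →L[ℝ] V) (hM : ∀ h, M h = 0 → h = 0) : M.det ≠ 0 := by
  intro h0
  have h1 : LinearMap.det (M : V →ₗ[ℝ] V) = 0 := h0
  rw [LinearMap.det_eq_zero_iff_ker_ne_bot] at h1
  apply h1
  rw [LinearMap.ker_eq_bot']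
  intro m hm
  exact hM m hm

lemma exists_lower_bound (M : V →L[ℝ] V) (hM : M.det ≠ 0) :
    ∃ κ : ℝ, 0 < κ ∧ ∀ h, κ * ‖h‖ ≤ ‖M h‖ := by
  have hu : IsUnit (LinearMap.det (M : V →ₗ[ℝ] V)) := isUnit_iff_ne_zero.2 hM
  have hu' := (LinearMap.isUnit_iff_isUnit_det _).2 hu
  have hinj : Function.Injective (M : V →ₗ[ℝ] V) := ((Module.End.isUnit_iff _).1 hu').1
  obtain ⟨K, hK, hKa⟩ := (M : V →ₗ[ℝ] V).exists_antilipschitzWith (LinearMap.ker_eq_bot.2 hinj)
  refine ⟨(K : ℝ)⁻¹, by positivity, fun h => ?_⟩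
  have h1 := hKa.le_mul_dist h 0
  simp only [dist_zero_right, map_zero] at h1
  have h2 : ‖h‖ ≤ K * ‖M h‖ := h1
  have hK' : (0 : ℝ) < K := by exact_mod_cast hK
  rw [inv_mul_le_iff₀ hK']
  exact h2

lemma det_mul_pos (L M : V →L[ℝ] V) {κ : ℝ} (hκ : 0 < κ) (hL : ∀ h, κ * ‖h‖ ≤ ‖L h‖)
    (hM : ‖M - L‖ ≤ κ / 2) : 0 < L.det * M.det := by
  have hne : ∀ t : ℝ, t ∈ Icc (0:ℝ) 1 → (L + t • (M - L)).det ≠ 0 := by
    intro t ht
    refine det_ne_of_inj _ (fun h hh => ?_)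
    have h1 : L h = - (t • (M - L) h) := by
      have : L h + t • (M - L) h = 0 := hh
      exact eq_neg_of_add_eq_zero_left this
    have h2 : ‖L h‖ ≤ κ / 2 * ‖h‖ := by
      rw [h1, norm_neg, norm_smul, Real.norm_eq_abs, abs_of_nonneg ht.1]
      have h3 := (M - L).le_opNorm h
      have h4 : ‖M - L‖ * ‖h‖ ≤ κ / 2 * ‖h‖ := mul_le_mul_of_nonneg_right hM (norm_nonneg _)
      have h5 : t * ‖(M - L) h‖ ≤ 1 * ‖(M - L) h‖ :=
        mul_le_mul_of_nonneg_right ht.2 (norm_nonneg _)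
      linarith
    have h3 := hL h
    have h4 : κ * ‖h‖ ≤ 0 := by
      have h5 := norm_nonneg h
      linarith
    have h5 : ‖h‖ ≤ 0 := by
      by_contra hcon
      push Not at hcon
      exact absurd h4 (not_le.2 (mul_pos hκ hcon))
    exact norm_le_zero_iff.1 h5
  have hcont : Continuous (fun t : ℝ => (L + t • (M - L)).det) := by
    refine ContinuousLinearMap.continuous_det.comp ?_
    fun_prop
  have h0 : (L + (0:ℝ) • (M - L)).det = L.det := by simp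
  have h1 : (L + (1:ℝ) • (M - L)).det = M.det := by simp
  by_contra hc
  push Not at hc
  have hL0 : L.det ≠ 0 := by rw [← h0]; exact hne 0 (by simp)
  have hM0 : M.det ≠ 0 := by rw [← h1]; exact hne 1 (by simp)
  have hiv := intermediate_value_uIcc (a := (0:ℝ)) (b := 1) hcont.continuousOn
  simp only [h0, h1] at hiv
  have hz : (0:ℝ) ∈ uIcc L.det M.det := by
    rw [mem_uIcc]
    rcases lt_or_gt_of_ne hL0 with hl | hl
    · left
      refine ⟨hl.le, ?_⟩
      by_contra h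
      push Not at h
      nlinarith [mul_pos_of_neg_of_neg hl h]
    · right
      refine ⟨?_, hl.le⟩
      by_contra h
      push Not at h
      nlinarith [mul_pos hl h]
  obtain ⟨t, ht, ht0⟩ := hiv hz
  rw [uIcc_of_le zero_le_one] at ht
  exact hne t ht ht0

lemma sign_det_eq (L M : V →L[ℝ] V) {κ : ℝ} (hκ : 0 < κ) (hL : ∀ h, κ * ‖h‖ ≤ ‖L h‖)
    (hM : ‖M - L‖ ≤ κ / 2) : SignType.sign M.det = SignType.sign L.det := by
  have h := det_mul_pos L M hκ hL hM
  rcases mul_pos_iff.1 h with ⟨h1, h2⟩ | ⟨h1, h2⟩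
  · rw [sign_pos h1, sign_pos h2]
  · rw [sign_neg h1, sign_neg h2]

lemma local_sol (L : V →L[ℝ] V) {κ : ℝ} (hκ : 0 < κ) (hL : ∀ h, κ * ‖h‖ ≤ ‖L h‖)
    (Φ : V → V) (Φ' : V → V →L[ℝ] V) (hd : ∀ x, HasFDerivAt Φ (Φ' x) x) (a : V) (r : ℝ)
    (hr : 0 < r) (hb : ∀ x, ‖x - a‖ ≤ r → ‖Φ' x - L‖ ≤ κ / 2) :
    (∀ x y, ‖x - a‖ ≤ r → ‖y - a‖ ≤ r → Φ x = Φ y → x = y) ∧
    ∀ w, ‖w - Φ a‖ ≤ κ * r / 2 → ∃ x, ‖x - a‖ ≤ r ∧ Φ x = w := by
  have hcl : ∀ x, x ∈ Metric.closedBall a r ↔ ‖x - a‖ ≤ r := fun x => by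
    rw [Metric.mem_closedBall, dist_eq_norm]
  have happ : ∀ x ∈ Metric.closedBall a r, ∀ y ∈ Metric.closedBall a r,
      ‖Φ y - Φ x - L (y - x)‖ ≤ κ / 2 * ‖y - x‖ := by
    intro x hx y hy
    exact (convex_closedBall a r).norm_image_sub_le_of_norm_hasFDerivWithin_le'
      (fun z _ => (hd z).hasFDerivWithinAt) (fun z hz => hb z ((hcl z).1 hz)) hx hy
  constructor
  · intro x y hx hy hxy
    have h1 := happ y ((hcl y).2 hy) x ((hcl x).2 hx)
    rw [hxy, sub_self, zero_sub, norm_neg] at h1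
    have h2 := hL (x - y)
    have h3 : κ * ‖x - y‖ ≤ 0 := by linarith [norm_nonneg (x - y)]
    have h4 : ‖x - y‖ ≤ 0 := by
      by_contra hcon
      push Not at hcon
      exact absurd h3 (not_le.2 (mul_pos hκ hcon))
    exact sub_eq_zero.1 (norm_le_zero_iff.1 h4)
  · intro w hw
    have hinj : Function.Injective (L : V →ₗ[ℝ] V) := by
      rw [← LinearMap.ker_eq_bot, LinearMap.ker_eq_bot']
      intro m hm
      have h1 := hL m
      have h2 : L m = 0 := hm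
      rw [h2, norm_zero] at h1
      by_contra hne
      exact absurd h1 (not_le.2 (mul_pos hκ (norm_pos_iff.2 hne)))
    have hsurj : Function.Surjective (L : V →ₗ[ℝ] V) := LinearMap.injective_iff_surjective.1 hinj
    have hri : ∀ y, L (Function.surjInv hsurj y) = y := fun y => Function.surjInv_eq hsurj y
    let Rr : L.NonlinearRightInverse :=
      { toFun := fun y => Function.surjInv hsurj y
        nnnorm := ⟨κ⁻¹, by positivity⟩
        bound' := fun y => by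
          have h1 := hL (Function.surjInv hsurj y)
          rw [hri y] at h1
          show ‖Function.surjInv hsurj y‖ ≤ κ⁻¹ * ‖y‖
          rw [← div_eq_inv_mul, le_div_iff₀ hκ, mul_comm]
          exact h1
        right_inv' := hri }
    have hA : ApproximatesLinearOn Φ L (Metric.closedBall a r) (⟨κ / 2, by positivity⟩ : NNReal) := by
      intro x hx y hy
      exact happ y hy x hx
    have hS := hA.surjOn_closedBall_of_nonlinearRightInverse Rr hr.le (subset_refl _)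
    have hw' : w ∈ Metric.closedBall (Φ a)
        (((Rr.nnnorm : ℝ)⁻¹ - ((⟨κ / 2, by positivity⟩ : NNReal) : ℝ)) * r) := by
      rw [Metric.mem_closedBall, dist_eq_norm]
      refine hw.trans ?_
      have h1 : (Rr.nnnorm : ℝ) = κ⁻¹ := rfl
      rw [h1, inv_inv]
      show κ * r / 2 ≤ (κ - κ / 2) * r
      linarith
    obtain ⟨x, hx, hxw⟩ := hS hw'
    exact ⟨x, (hcl x).1 hx, hxw⟩

/-- The signed number of zeros in a ball is stable under small `C¹` perturbations. -/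
theorem stable_count (H : V → V) (H' : V → V →L[ℝ] V) (hH : ∀ x, HasFDerivAt H (H' x) x)
    (hH'c : Continuous H') (R : ℝ) (hreg : ∀ x, ‖x‖ ≤ R → H x = 0 → (H' x).det ≠ 0)
    (hin : ∀ x, ‖x‖ ≤ R → H x = 0 → ‖x‖ < R) :
    ∃ ε : ℝ, 0 < ε ∧ ∀ (G : V → V) (G' : V → V →L[ℝ] V), (∀ x, HasFDerivAt G (G' x) x) →
      (∀ x, ‖x‖ ≤ R → ‖G x - H x‖ ≤ ε) → (∀ x, ‖x‖ ≤ R → ‖G' x - H' x‖ ≤ ε) →
      ∑ᶠ x ∈ {x | ‖x‖ ≤ R ∧ G x = 0}, (SignType.sign (G' x).det : ℤ) =
        ∑ᶠ x ∈ {x | ‖x‖ ≤ R ∧ H x = 0}, (SignType.sign (H' x).det : ℤ) := by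
  have hprop : ProperSpace V := FiniteDimensional.proper_real V
  have hHc : Continuous H := continuous_iff_continuousAt.2 fun x => (hH x).continuousAt
  set Z : Set V := {x | ‖x‖ ≤ R ∧ H x = 0} with hZ
  have hZc : IsCompact Z := by
    have h1 : Z = Metric.closedBall (0 : V) R ∩ H ⁻¹' {0} := by
      ext x; simp [hZ]
    rw [h1]
    exact (isCompact_closedBall 0 R).inter_right (isClosed_singleton.preimage hHc)
  -- local data
  have hloc : ∀ z ∈ Z, ∃ κ r : ℝ, 0 < κ ∧ 0 < r ∧ (∀ h, κ * ‖h‖ ≤ ‖H' z h‖) ∧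
      (∀ x, ‖x - z‖ ≤ r → ‖x‖ ≤ R) ∧ (∀ x, ‖x - z‖ ≤ r → ‖H' x - H' z‖ ≤ κ / 4) := by
    intro z hz
    obtain ⟨κ, hκ, hκL⟩ := exists_lower_bound (H' z) (hreg z hz.1 hz.2)
    have hzR := hin z hz.1 hz.2
    have h1 : ∀ᶠ x in 𝓝 z, ‖H' x - H' z‖ < κ / 4 := by
      have : Continuous fun x => ‖H' x - H' z‖ := (hH'c.sub continuous_const).norm
      have h2 := this.tendsto z
      simp only [sub_self, norm_zero] at h2
      exact h2.eventually (gt_mem_nhds (by positivity))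
    obtain ⟨r, hr, hball⟩ := Metric.eventually_nhds_iff_ball.1 h1
    refine ⟨κ, min (r / 2) (R - ‖z‖), hκ, lt_min (by positivity) (by linarith), hκL, ?_, ?_⟩
    · intro x hx
      have h2 : ‖x - z‖ ≤ R - ‖z‖ := hx.trans (min_le_right _ _)
      have h3 : ‖x‖ ≤ ‖x - z‖ + ‖z‖ := by
        calc ‖x‖ = ‖(x - z) + z‖ := by rw [sub_add_cancel]
          _ ≤ _ := norm_add_le _ _
      linarith
    · intro x hx
      have h2 : ‖x - z‖ ≤ r / 2 := hx.trans (min_le_left _ _)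
      have h3 : x ∈ Metric.ball z r := by
        rw [Metric.mem_ball, dist_eq_norm]; linarith
      exact (hball x h3).le
  choose! κ r hκ hr hκL hrR hrH using hloc
  have hiso : ∀ z ∈ Z, ∀ x ∈ Z, ‖x - z‖ ≤ r z → x = z := by
    intro z hz x hx hxz
    have h1 := (local_sol (H' z) (hκ z hz) (hκL z hz) H H' hH z (r z) (hr z hz)
      (fun x hx => (hrH z hz x hx).trans (by have := hκ z hz; linarith))).1 x z hxz
      (by rw [sub_self, norm_zero]; exact (hr z hz).le)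
    exact h1 (hx.2.trans hz.2.symm)
  obtain ⟨t, htZ, htc⟩ := hZc.elim_nhds_subcover (fun z => Metric.ball z (r z))
    (fun z hz => Metric.ball_mem_nhds z (hr z hz))
  have htZ' : (t : Set V) = Z := by
    apply Subset.antisymm
    · intro z hz; exact htZ z hz
    · intro x hx
      obtain ⟨z, hz, hxz⟩ := mem_iUnion₂.1 (htc hx)
      rw [Metric.mem_ball, dist_eq_norm] at hxz
      have := hiso z (htZ z hz) x hx hxz.le
      rw [this]; exact hz
  -- the complement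
  set K : Set V := {x | ‖x‖ ≤ R ∧ ∀ z ∈ t, r z / 2 ≤ ‖x - z‖} with hK
  have hKc : IsCompact K := by
    have h1 : K = Metric.closedBall (0 : V) R ∩ ⋂ z ∈ t, {x | r z / 2 ≤ ‖x - z‖} := by
      ext x; simp [hK]
    rw [h1]
    refine (isCompact_closedBall 0 R).inter_right ?_
    refine isClosed_biInter fun z _ => ?_
    exact isClosed_le continuous_const (by fun_prop)
  obtain ⟨m, hm, hmK⟩ := hKc.exists_forall_le' (f := fun x => ‖H x‖) hHc.norm.continuousOn (a := 0)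
    (by
      intro x hx
      rw [norm_pos_iff]
      intro h0
      have hxZ : x ∈ Z := ⟨hx.1, h0⟩
      have hxt : x ∈ t := by
        have : x ∈ (t : Set V) := by rw [htZ']; exact hxZ
        exact this
      have := hx.2 x hxt
      rw [sub_self, norm_zero] at this
      linarith [hr x hxZ])
  obtain ⟨ε, hε0, hεm, hεt⟩ : ∃ ε : ℝ, 0 < ε ∧ ε < m ∧ ∀ z ∈ t, ε ≤ κ z / 4 ∧
      ε ≤ κ z * (r z / 2) / 2 := by
    have h1 : ∀ᶠ ε in 𝓝[>] (0 : ℝ), ∀ z ∈ t, ε ≤ κ z / 4 ∧ ε ≤ κ z * (r z / 2) / 2 := by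
      rw [Filter.eventually_all_finset]
      intro z hz
      have a1 := hκ z (htZ z hz)
      have a2 := hr z (htZ z hz)
      have b1 : ∀ᶠ ε in 𝓝[>] (0 : ℝ), ε < κ z / 4 :=
        (gt_mem_nhds (by positivity)).filter_mono nhdsWithin_le_nhds
      have b2 : ∀ᶠ ε in 𝓝[>] (0 : ℝ), ε < κ z * (r z / 2) / 2 :=
        (gt_mem_nhds (by positivity)).filter_mono nhdsWithin_le_nhds
      filter_upwards [b1, b2] with ε h1 h2 using ⟨h1.le, h2.le⟩
    have h2 : ∀ᶠ ε in 𝓝[>] (0 : ℝ), ε < m :=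
      (gt_mem_nhds hm).filter_mono nhdsWithin_le_nhds
    have h3 : ∀ᶠ ε in 𝓝[>] (0 : ℝ), 0 < ε := eventually_mem_nhdsWithin
    obtain ⟨ε, h4, h5, h6⟩ := (h1.and (h2.and h3)).exists
    exact ⟨ε, h6, h5, h4⟩
  refine ⟨ε, hε0, ?_⟩
  intro G G' hG hGH hG'H
  -- solutions near each zero
  have hsol : ∀ z ∈ t, (∀ x y, ‖x - z‖ ≤ r z / 2 → ‖y - z‖ ≤ r z / 2 → G x = G y → x = y) ∧
      (∃ x, ‖x - z‖ ≤ r z / 2 ∧ G x = 0) ∧
      ∀ x, ‖x - z‖ ≤ r z / 2 → ‖G' x - H' z‖ ≤ κ z / 2 := by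
    intro z hz
    have hzZ := htZ z hz
    have a1 := hκ z hzZ
    have a2 := hr z hzZ
    obtain ⟨e1, e2⟩ := hεt z hz
    have hcl : ∀ x, ‖x - z‖ ≤ r z / 2 → ‖G' x - H' z‖ ≤ κ z / 2 := by
      intro x hx
      have b0 : ‖x - z‖ ≤ r z := hx.trans (by linarith)
      have b1 := hG'H x (hrR z hzZ x b0)
      have b2 := hrH z hzZ x b0
      calc ‖G' x - H' z‖ = ‖(G' x - H' x) + (H' x - H' z)‖ := by congr 1; abel
        _ ≤ ‖G' x - H' x‖ + ‖H' x - H' z‖ := norm_add_le _ _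
        _ ≤ κ z / 2 := by linarith
    have hl := local_sol (H' z) a1 (hκL z hzZ) G G' hG z (r z / 2) (by positivity) hcl
    refine ⟨hl.1, hl.2 0 ?_, hcl⟩
    rw [zero_sub, norm_neg]
    have b1 := hGH z hzZ.1
    rw [hzZ.2, sub_zero] at b1
    exact b1.trans e2
  have hex : ∀ z ∈ t, ∃ x, ‖x - z‖ ≤ r z / 2 ∧ G x = 0 := fun z hz => (hsol z hz).2.1
  choose! φ hφ1 hφ2 using hex
  have hinj : InjOn φ (t : Set V) := by
    intro z hz z' hz' h
    have h1 := hφ1 z hz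
    have h2 := hφ1 z' hz'
    rw [← h] at h2
    have h3 : ‖z - z'‖ ≤ r z / 2 + r z' / 2 := by
      calc ‖z - z'‖ = ‖(φ z - z') - (φ z - z)‖ := by congr 1; abel
        _ ≤ ‖φ z - z'‖ + ‖φ z - z‖ := norm_sub_le _ _
        _ ≤ _ := by linarith
    rcases le_total (r z) (r z') with h4 | h4
    · exact hiso z' (htZ z' hz') z (htZ z hz) (by linarith)
    · exact (hiso z (htZ z hz) z' (htZ z' hz') (by rw [norm_sub_rev]; linarith)).symm
  have himg : {x | ‖x‖ ≤ R ∧ G x = 0} = φ '' (t : Set V) := by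
    ext x
    constructor
    · rintro ⟨hx1, hx2⟩
      by_cases hxK : x ∈ K
      · exfalso
        have h1 := hmK x hxK
        have h2 := hGH x hx1
        rw [hx2, zero_sub, norm_neg] at h2
        linarith
      · have : ∃ z ∈ t, ‖x - z‖ < r z / 2 := by
          by_contra hcon
          push Not at hcon
          exact hxK ⟨hx1, hcon⟩
        obtain ⟨z, hz, hxz⟩ := this
        refine ⟨z, hz, ?_⟩
        exact (hsol z hz).1 _ _ (hφ1 z hz) hxz.le ((hφ2 z hz).trans hx2.symm)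
    · rintro ⟨z, hz, rfl⟩
      exact ⟨hrR z (htZ z hz) _ ((hφ1 z hz).trans (by have := hr z (htZ z hz); linarith)), hφ2 z hz⟩
  rw [himg, finsum_mem_image hinj, ← htZ']
  refine finsum_mem_congr rfl fun z hz => ?_
  rw [sign_det_eq (H' z) (G' (φ z)) (hκ z (htZ z hz)) (hκL z (htZ z hz))
    ((hsol z hz).2.2 _ (hφ1 z hz))]

end

end Pool.Agent.H70.Afd
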