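import Pool.Agent.H70.Afd.Brouwer
import Pool.Agent.H70.Afd.Stable

/-!
# Families of maps close to a homogeneous quadratic map
-/

open Set Filter Topology

namespace Pool.Agent.H70.Afd

noncomputable section

variable {V : Type*} [NormedAddCommGroup V] [NormedSpace ℝ V] [FiniteDimensional ℝ V]
variable {P : Type*} [NormedAddCommGroup P] [NormedSpace ℝ P] [FiniteDimensional ℝ P]

/-- `Q` is a homogeneous quadratic map with derivative `DQ`. -/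
structure IsQuad (Q : V → V) (DQ : V →L[ℝ] V →L[ℝ] V) : Prop where
  add : ∀ x h, Q (x + h) = Q x + DQ x h + Q h
  smul : ∀ (t : ℝ) x, Q (t • x) = t ^ 2 • Q x

/-- `f` is a family of maps, parametrised by `P`, close to the quadratic map `Q`; `D` is the
partial derivative, which is close to the linear map `T`. -/
structure Near (Q : V → V) (DQ : V →L[ℝ] V →L[ℝ] V) (T : V × P →L[ℝ] (V →L[ℝ] V)) (ε : ℝ)
    (f : V × P → V) (D : V × P → V →L[ℝ] V) : Prop where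
  cf : Continuous f
  cD : Continuous D
  der : ∀ x b, HasFDerivAt (fun x => f (x, b)) (D (x, b)) x
  lip : ∀ x x' b, ‖x‖ ≤ 2 → ‖x'‖ ≤ 2 → ‖D (x', b) - D (x, b) - DQ (x' - x)‖ ≤ ε * ‖x' - x‖
  close : ∀ x b, ‖x‖ ≤ 1 → ‖b‖ ≤ 1 → ‖D (x, b) - T (x, b)‖ ≤ ε

section

variable {Q : V → V} {DQ : V →L[ℝ] V →L[ℝ] V}

omit [FiniteDimensional ℝ V] in
lemma IsQuad.half (h : IsQuad Q DQ) (x : V) : Q x = (1 / 2 : ℝ) • DQ x x := by
  have h1 := h.add x x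
  have h2 := h.smul 2 x
  rw [two_smul] at h2
  rw [h2] at h1
  have h3 : DQ x x = (2:ℝ) ^ 2 • Q x - Q x - Q x := by rw [h1]; abel
  rw [h3]
  module

omit [FiniteDimensional ℝ V] in
lemma IsQuad.norm_le (h : IsQuad Q DQ) (x : V) : ‖Q x‖ ≤ ‖DQ‖ * ‖x‖ ^ 2 := by
  rw [h.half, norm_smul]
  have h1 : ‖DQ x x‖ ≤ ‖DQ‖ * ‖x‖ * ‖x‖ := DQ.le_opNorm₂ x x
  have h2 : ‖(1 / 2 : ℝ)‖ = 1 / 2 := by norm_num
  rw [h2]
  have h3 : 0 ≤ ‖DQ‖ * ‖x‖ * ‖x‖ := by positivity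
  calc 1 / 2 * ‖DQ x x‖ ≤ 1 / 2 * (‖DQ‖ * ‖x‖ * ‖x‖) := by gcongr
    _ ≤ ‖DQ‖ * ‖x‖ * ‖x‖ := by linarith
    _ = ‖DQ‖ * ‖x‖ ^ 2 := by ring

omit [FiniteDimensional ℝ V] in
lemma IsQuad.hasFDerivAt (h : IsQuad Q DQ) (x : V) : HasFDerivAt Q (DQ x) x := by
  rw [hasFDerivAt_iff_isLittleO_nhds_zero]
  have h1 : ∀ k, Q (x + k) - Q x - DQ x k = Q k := by
    intro k; rw [h.add]; abel
  simp only [h1]
  rw [Asymptotics.isLittleO_iff]
  intro c hc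
  have h2 : ∀ᶠ k : V in 𝓝 0, ‖DQ‖ * ‖k‖ < c := by
    have : Continuous fun k : V => ‖DQ‖ * ‖k‖ := by fun_prop
    have h3 := this.tendsto 0
    simp only [norm_zero, mul_zero] at h3
    exact h3.eventually (gt_mem_nhds hc)
  filter_upwards [h2] with k hk
  calc ‖Q k‖ ≤ ‖DQ‖ * ‖k‖ ^ 2 := h.norm_le k
    _ = (‖DQ‖ * ‖k‖) * ‖k‖ := by ring
    _ ≤ c * ‖k‖ := by gcongr

omit [FiniteDimensional ℝ V] in
lemma IsQuad.zero (h : IsQuad Q DQ) : Q 0 = 0 := by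
  have := h.smul 0 0
  simpa using this

omit [FiniteDimensional ℝ V] in
lemma IsQuad.lower (h : IsQuad Q DQ) [ProperSpace V] (hz : ∀ x, Q x = 0 → x = 0) :
    ∃ μ : ℝ, 0 < μ ∧ ∀ x, μ * ‖x‖ ^ 2 ≤ ‖Q x‖ := by
  have hc : Continuous Q := continuous_iff_continuousAt.2 fun x => (h.hasFDerivAt x).continuousAt
  obtain ⟨μ, hμ, hmin⟩ := (isCompact_sphere (0 : V) 1).exists_forall_le' (f := fun x => ‖Q x‖)
    hc.norm.continuousOn (a := 0) (by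
      intro x hx
      rw [norm_pos_iff]
      intro h0
      rw [hz x h0] at hx
      simp at hx)
  refine ⟨μ, hμ, fun x => ?_⟩
  by_cases hx : x = 0
  · rw [hx, h.zero]; simp
  · have hx' : 0 < ‖x‖ := norm_pos_iff.2 hx
    have h1 := hmin (‖x‖⁻¹ • x) (by
      rw [mem_sphere_zero_iff_norm, norm_smul, norm_inv, norm_norm, inv_mul_cancel₀ hx'.ne'])
    rw [h.smul, norm_smul, norm_pow, norm_inv, norm_norm] at h1
    calc μ * ‖x‖ ^ 2 ≤ (‖x‖⁻¹ ^ 2 * ‖Q x‖) * ‖x‖ ^ 2 := by gcongr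
      _ = ‖Q x‖ := by field_simp

variable {T : V × P →L[ℝ] (V →L[ℝ] V)} {ε : ℝ} {f : V × P → V} {D : V × P → V →L[ℝ] V}

omit [FiniteDimensional ℝ V] [FiniteDimensional ℝ P] in
lemma Near.star (hQ : IsQuad Q DQ) (h : Near Q DQ T ε f D) (hε : 0 ≤ ε) (x₁ x : V) (b : P)
    (h1 : ‖x₁‖ ≤ 1) (h2 : ‖x‖ ≤ 1) :
    ‖f (x₁ + x, b) - f (x₁, b) - D (x₁, b) x - Q x‖ ≤ ε * ‖x‖ ^ 2 := by
  set φ : V → V := fun y => f (x₁ + y, b) - D (x₁, b) y - Q y with hφ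
  have hd : ∀ y ∈ Metric.closedBall (0 : V) ‖x‖,
      HasFDerivWithinAt φ (D (x₁ + y, b) - D (x₁, b) - DQ y) (Metric.closedBall (0 : V) ‖x‖) y := by
    intro y _
    refine HasFDerivAt.hasFDerivWithinAt ?_
    have e1 : HasFDerivAt (fun y => f (x₁ + y, b)) (D (x₁ + y, b)) y := by
      have := (h.der (x₁ + y) b).comp y ((hasFDerivAt_id y).const_add x₁)
      simpa [Function.comp_def] using this
    exact (e1.sub (D (x₁, b)).hasFDerivAt).sub (hQ.hasFDerivAt y)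
  have hb : ∀ y ∈ Metric.closedBall (0 : V) ‖x‖, ‖D (x₁ + y, b) - D (x₁, b) - DQ y‖ ≤ ε * ‖x‖ := by
    intro y hy
    rw [mem_closedBall_zero_iff] at hy
    have e1 := h.lip x₁ (x₁ + y) b (by linarith) ((norm_add_le _ _).trans (by linarith))
    rw [add_sub_cancel_left] at e1
    exact e1.trans (by gcongr)
  have h3 := (convex_closedBall (0 : V) ‖x‖).norm_image_sub_le_of_norm_hasFDerivWithin_le hd hb
    (Metric.mem_closedBall_self (norm_nonneg _)) (mem_closedBall_zero_iff.mpr le_rfl)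
  have h4 : φ x - φ 0 = f (x₁ + x, b) - f (x₁, b) - D (x₁, b) x - Q x := by
    simp only [hφ, add_zero, map_zero, hQ.zero, sub_zero]
    abel
  rw [h4, sub_zero] at h3
  calc _ ≤ ε * ‖x‖ * ‖x‖ := h3
    _ = ε * ‖x‖ ^ 2 := by ring

omit [FiniteDimensional ℝ P] in
/-- existence of a point where the partial derivative vanishes -/
theorem exists_corank (Rr : (V →L[ℝ] V) →L[ℝ] V × P) (hR : ∀ M, T (Rr M) = M) :
    ∃ ε₀ : ℝ, 0 < ε₀ ∧ ∀ (ε : ℝ) (f : V × P → V) (D : V × P → V →L[ℝ] V), ε ≤ ε₀ →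
      Near Q DQ T ε f D → ∃ w : V × P, ‖w‖ ≤ 1 / 4 ∧ D w = 0 := by
  set r : ℝ := 1 / (4 * (‖Rr‖ + 1)) with hr
  have hr0 : 0 < r := by positivity
  have hr1 : (‖Rr‖ + 1) * r = 1 / 4 := by rw [hr]; field_simp
  have hRr : ‖Rr‖ * r ≤ 1 / 4 := by
    have : ‖Rr‖ * r = (‖Rr‖ + 1) * r - r := by ring
    linarith
  refine ⟨r, hr0, ?_⟩
  intro ε f D hε h
  let c : (V →L[ℝ] V) → (V →L[ℝ] V) := fun y => (r / max r ‖y‖) • y
  have hmax : ∀ y : V →L[ℝ] V, 0 < max r ‖y‖ := fun y => lt_max_of_lt_left hr0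
  have hc : Continuous c := by
    refine Continuous.smul (Continuous.div continuous_const
      (continuous_const.max continuous_norm) (fun y => (hmax y).ne')) continuous_id
  have hcn : ∀ y, ‖c y‖ ≤ r := by
    intro y
    simp only [c]
    rw [norm_smul, Real.norm_eq_abs, abs_of_pos (div_pos hr0 (hmax y)), div_mul_eq_mul_div,
      div_le_iff₀ (hmax y)]
    exact mul_le_mul_of_nonneg_left (le_max_right _ _) hr0.le
  have hci : ∀ y, ‖y‖ ≤ r → c y = y := by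
    intro y hy
    simp only [c]
    rw [max_eq_left hy, div_self hr0.ne', one_smul]
  have hball : ∀ M : V →L[ℝ] V, ‖M‖ ≤ r → ‖Rr M‖ ≤ 1 / 4 := by
    intro M hM
    refine (Rr.le_opNorm M).trans ?_
    calc ‖Rr‖ * ‖M‖ ≤ ‖Rr‖ * r := by gcongr
      _ ≤ 1 / 4 := hRr
  have hbd : ∀ M : V →L[ℝ] V, ‖M‖ ≤ r → ‖M - D (Rr M)‖ ≤ ε := by
    intro M hM
    have h1 := hball M hM
    have h2 : ‖(Rr M).1‖ ≤ 1 := (norm_fst_le _).trans (by linarith)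
    have h3 : ‖(Rr M).2‖ ≤ 1 := (norm_snd_le _).trans (by linarith)
    have h4 := h.close (Rr M).1 (Rr M).2 h2 h3
    rw [Prod.mk.eta, hR, norm_sub_rev] at h4
    exact h4
  have hfd : FiniteDimensional ℝ (V →L[ℝ] V) := inferInstance
  obtain ⟨M, hM⟩ := Brw.brouwer (fun M => c M - D (Rr (c M)))
    (hc.sub (h.cD.comp (Rr.continuous.comp hc))) r (fun M => (hbd _ (hcn M)).trans hε)
  have hMn : ‖M‖ ≤ r := by
    rw [← hM]
    exact (hbd _ (hcn M)).trans hε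
  simp only [hci M hMn] at hM
  refine ⟨Rr M, hball M hMn, ?_⟩
  have : D (Rr M) = M - (M - D (Rr M)) := by abel
  rw [this, hM, sub_self]

omit [FiniteDimensional ℝ V] [FiniteDimensional ℝ P] in
/-- the point is isolated -/
theorem near_isolated (hQ : IsQuad Q DQ) {μ : ℝ} (hμ : ∀ x, μ * ‖x‖ ^ 2 ≤ ‖Q x‖)
    (h : Near Q DQ T ε f D) (hε0 : 0 ≤ ε) (hε : ε < μ) {x₀ : V} {b₀ : P} (hx₀ : ‖x₀‖ ≤ 1)
    (hD : D (x₀, b₀) = 0) (x : V) (hx : ‖x - x₀‖ ≤ 1) (hfx : f (x, b₀) = f (x₀, b₀)) : x = x₀ := by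
  have h1 := h.star hQ hε0 x₀ (x - x₀) b₀ hx₀ hx
  rw [add_sub_cancel, hfx, sub_self, hD, zero_apply, sub_zero, zero_sub,
    norm_neg] at h1
  have h2 := hμ (x - x₀)
  have h3 : ‖x - x₀‖ ^ 2 ≤ 0 := by
    by_contra hcon
    push Not at hcon
    have : ε * ‖x - x₀‖ ^ 2 < μ * ‖x - x₀‖ ^ 2 := mul_lt_mul_of_pos_right hε hcon
    linarith
  have h4 : ‖x - x₀‖ = 0 := by
    have := sq_nonneg ‖x - x₀‖
    exact pow_eq_zero_iff (two_ne_zero) |>.1 (le_antisymm h3 this)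
  exact sub_eq_zero.1 (norm_eq_zero.1 h4)

end

end

end Pool.Agent.H70.Afd
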