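import Pool.Agent.H70.Afd.Brouwer

/-!
# The theorem of Poincare and Miranda
-/

open Set Filter Topology

namespace Pool.Agent.H70.Afd

/-- Poincare and Miranda: a continuous map of a box with the right signs on the faces has a zero. -/
theorem miranda {d : ℕ} (G : (Fin d → ℝ) → (Fin d → ℝ)) (hG : Continuous G) (lo hi : Fin d → ℝ)
    (hlh : ∀ i, lo i ≤ hi i)
    (hlo : ∀ x, (∀ i, lo i ≤ x i ∧ x i ≤ hi i) → ∀ i, x i = lo i → G x i < 0)
    (hhi : ∀ x, (∀ i, lo i ≤ x i ∧ x i ≤ hi i) → ∀ i, x i = hi i → 0 < G x i) :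
    ∃ x, (∀ i, lo i ≤ x i ∧ x i ≤ hi i) ∧ G x = 0 := by
  set f : (Fin d → ℝ) → (Fin d → ℝ) := fun x i => max (lo i) (min (hi i) (x i - G x i)) with hf
  have hfc : Continuous f := by
    refine continuous_pi fun i => ?_
    have h1 : Continuous fun x => G x i := (continuous_apply i).comp hG
    exact continuous_const.max (continuous_const.min ((continuous_apply i).sub h1))
  have hfb : ∀ x i, lo i ≤ f x i ∧ f x i ≤ hi i := by
    intro x i
    exact ⟨le_max_left _ _, max_le (hlh i) (min_le_left _ _)⟩
  obtain ⟨x, hx⟩ := Brw.brouwer f hfc (‖lo‖ + ‖hi‖) (by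
    intro x
    refine (pi_norm_le_iff_of_nonneg (by positivity)).2 fun i => ?_
    have h1 := hfb x i
    have h2 : |lo i| ≤ ‖lo‖ := norm_le_pi_norm lo i
    have h3 : |hi i| ≤ ‖hi‖ := norm_le_pi_norm hi i
    rw [Real.norm_eq_abs, abs_le]
    rw [abs_le] at h2 h3
    constructor
    · linarith [norm_nonneg hi]
    · linarith [norm_nonneg lo])
  have hbox : ∀ i, lo i ≤ x i ∧ x i ≤ hi i := by
    intro i
    have := hfb x i
    rwa [hx] at this
  refine ⟨x, hbox, ?_⟩
  funext i
  have hxi : max (lo i) (min (hi i) (x i - G x i)) = x i := congrFun hx i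
  rcases eq_or_ne (x i) (lo i) with h | h
  · exfalso
    have h1 := hlo x hbox i h
    have h2 : lo i < hi i := by
      rcases (hlh i).lt_or_eq with h3 | h3
      · exact h3
      · exfalso
        have := hhi x hbox i (h.trans h3)
        linarith
    have h3 : lo i < min (hi i) (x i - G x i) := lt_min h2 (by rw [h]; linarith)
    have h4 : lo i < max (lo i) (min (hi i) (x i - G x i)) := lt_max_of_lt_right h3
    rw [hxi, h] at h4
    exact lt_irrefl _ h4
  · have hlo' : lo i < x i := lt_of_le_of_ne (hbox i).1 (Ne.symm h)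
    have h5 : min (hi i) (x i - G x i) = x i := by
      rcases max_choice (lo i) (min (hi i) (x i - G x i)) with h6 | h6
      · rw [h6] at hxi
        exact absurd hxi.symm h
      · rw [h6] at hxi; exact hxi
    rcases eq_or_ne (x i) (hi i) with h7 | h7
    · exfalso
      have h8 := hhi x hbox i h7
      have h9 : min (hi i) (x i - G x i) < hi i := by
        refine (min_le_right _ _).trans_lt ?_
        rw [h7]; linarith
      rw [h5, h7] at h9
      exact lt_irrefl _ h9
    · rcases min_choice (hi i) (x i - G x i) with h8 | h8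
      · rw [h8] at h5
        exact absurd h5.symm h7
      · rw [h8] at h5
        show G x i = 0
        linarith

end Pool.Agent.H70.Afd
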