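import Pool.Agent.H70.Afd.Local

/-!
# Small perturbations of the model map
-/

open Set Filter Topology

namespace Pool.Agent.H70.Afd

noncomputable section

set_option linter.unusedSectionVars false

variable {V : Type*} [NormedAddCommGroup V] [NormedSpace ℝ V] [FiniteDimensional ℝ V]
variable {P : Type*} [NormedAddCommGroup P] [NormedSpace ℝ P] [FiniteDimensional ℝ P]

/-- `E` is small in the `C²` sense. -/
structure Small (ε : ℝ) (E : V × P → V × P) : Prop where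
  smooth : ContDiff ℝ 1 E
  c0 : ∀ z, ‖E z‖ ≤ ε
  c1 : ∀ z, ‖fderiv ℝ E z‖ ≤ ε
  c2 : ∀ z z', ‖fderiv ℝ E z' - fderiv ℝ E z‖ ≤ ε * ‖z' - z‖

lemma norm_zero_pair (b : P) : ‖((0 : V), b)‖ = ‖b‖ := by
  rw [Prod.norm_def]
  show max ‖(0 : V)‖ ‖b‖ = ‖b‖
  rw [norm_zero, max_eq_right (norm_nonneg _)]

/-- the change of coordinates -/
def Phi (E : V × P → V × P) (z : V × P) : V × P := (z.1, z.2 + (E z).2)

/-- its derivative -/
def Phi' (E : V × P → V × P) (z : V × P) : V × P →L[ℝ] V × P :=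
  (ContinuousLinearMap.fst ℝ V P).prod (ContinuousLinearMap.snd ℝ V P +
    (ContinuousLinearMap.snd ℝ V P).comp (fderiv ℝ E z))

variable {ε : ℝ} {E : V × P → V × P}

lemma Small.hasFDerivAt (h : Small ε E) (z : V × P) : HasFDerivAt E (fderiv ℝ E z) z :=
  (h.smooth.differentiable (by norm_num) z).hasFDerivAt

lemma Small.lipE (h : Small ε E) (z z' : V × P) : ‖E z' - E z‖ ≤ ε * ‖z' - z‖ :=
  (convex_univ (𝕜 := ℝ) (E := V × P)).norm_image_sub_le_of_norm_fderiv_le (𝕜 := ℝ)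
    (fun w _ => h.smooth.differentiable (by norm_num) w) (fun w _ => h.c1 w) (mem_univ z)
    (mem_univ z')

lemma hasFDerivAt_Phi (h : Small ε E) (z : V × P) : HasFDerivAt (Phi E) (Phi' E z) z :=
  (ContinuousLinearMap.fst ℝ V P).hasFDerivAt.prodMk
    ((ContinuousLinearMap.snd ℝ V P).hasFDerivAt.add
      ((ContinuousLinearMap.snd ℝ V P).hasFDerivAt.comp z (h.hasFDerivAt z)))

lemma Phi'_apply (E : V × P → V × P) (z v : V × P) :
    Phi' E z v = (v.1, v.2 + (fderiv ℝ E z v).2) := rfl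

lemma norm_Phi'_sub_le (h : Small ε E) (z : V × P) :
    ‖Phi' E z - ContinuousLinearMap.id ℝ (V × P)‖ ≤ ε := by
  have hε : 0 ≤ ε := (norm_nonneg _).trans (h.c0 z)
  refine ContinuousLinearMap.opNorm_le_bound _ hε fun v => ?_
  have h1 : (Phi' E z - ContinuousLinearMap.id ℝ (V × P)) v = (0, (fderiv ℝ E z v).2) := by
    rw [sub_apply, Phi'_apply]
    ext <;> simp
  rw [h1, norm_zero_pair]
  exact (norm_snd_le (fderiv ℝ E z v)).trans ((ContinuousLinearMap.le_opNorm _ _).trans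
    (mul_le_mul_of_nonneg_right (h.c1 z) (norm_nonneg _)))

lemma Phi'_inj (h : Small ε E) (hε : ε ≤ 1 / 2) (z v : V × P) (hv : Phi' E z v = 0) : v = 0 := by
  have h1 := (Phi' E z - ContinuousLinearMap.id ℝ (V × P)).le_opNorm v
  rw [sub_apply, hv, ContinuousLinearMap.id_apply, zero_sub, norm_neg] at h1
  have h2 : ‖Phi' E z - ContinuousLinearMap.id ℝ (V × P)‖ * ‖v‖ ≤ 1 / 2 * ‖v‖ :=
    mul_le_mul_of_nonneg_right ((norm_Phi'_sub_le h z).trans hε) (norm_nonneg _)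
  have h3 : ‖v‖ ≤ 0 := by linarith
  exact norm_le_zero_iff.1 h3

lemma exists_homeo (h : Small ε E) (hε : ε ≤ 1 / 2) :
    ∃ Ψ : (V × P) ≃ₜ (V × P), (∀ z, Ψ z = Phi E z) ∧ ContDiff ℝ 1 Ψ.symm := by
  have hε0 : 0 ≤ ε := (norm_nonneg _).trans (h.c0 0)
  have hA : ApproximatesLinearOn (Phi E)
      ((ContinuousLinearEquiv.refl ℝ (V × P) : (V × P) ≃L[ℝ] (V × P)) : V × P →L[ℝ] V × P) univ
      (⟨ε, hε0⟩ : NNReal) := by
    intro z _ z' _
    have h1 : Phi E z - Phi E z' - ((ContinuousLinearEquiv.refl ℝ (V × P) :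
        (V × P) ≃L[ℝ] (V × P)) : V × P →L[ℝ] V × P) (z - z') = (0, (E z - E z').2) := by
      ext
      · simp [Phi]
      · simp only [Phi, ContinuousLinearEquiv.coe_refl, ContinuousLinearMap.id_apply,
          Prod.snd_sub]
        abel
    rw [h1, norm_zero_pair]
    exact (norm_snd_le (E z - E z')).trans (h.lipE z' z)
  have hc : Subsingleton (V × P) ∨ (⟨ε, hε0⟩ : NNReal) <
      ‖((ContinuousLinearEquiv.refl ℝ (V × P)).symm : V × P →L[ℝ] V × P)‖₊⁻¹ := by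
    rcases subsingleton_or_nontrivial (V × P) with hs | hs
    · exact Or.inl hs
    · right
      have h1 : ‖((ContinuousLinearEquiv.refl ℝ (V × P)).symm : V × P →L[ℝ] V × P)‖₊ = 1 := by
        ext
        exact ContinuousLinearMap.norm_id
      rw [h1, inv_one]
      show ε < 1
      linarith
  let Ψ := hA.toHomeomorph (Phi E) hc
  have hΨ : ∀ z, Ψ z = Phi E z := fun z => rfl
  refine ⟨Ψ, hΨ, ?_⟩
  have hcomp : CompleteSpace (V × P) := FiniteDimensional.complete ℝ _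
  let e : V × P → (V × P) ≃L[ℝ] (V × P) := fun z =>
    (LinearEquiv.ofInjectiveEndo (Phi' E z : V × P →ₗ[ℝ] V × P) (by
      rw [← LinearMap.ker_eq_bot, LinearMap.ker_eq_bot']
      exact fun m hm => Phi'_inj h hε z m hm)).toContinuousLinearEquiv
  refine Ψ.contDiff_symm (f₀' := e) (fun z => ?_) ?_
  · have h1 : ((e z : (V × P) ≃L[ℝ] (V × P)) : V × P →L[ℝ] V × P) = Phi' E z := by
      ext v <;> rfl
    rw [h1]
    exact hasFDerivAt_Phi h z
  · show ContDiff ℝ 1 (Phi E)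
    exact contDiff_fst.prodMk (contDiff_snd.add (contDiff_snd.comp h.smooth))

variable (Q : V → V) (DQ : V →L[ℝ] V →L[ℝ] V) (Λ : P →L[ℝ] V →L[ℝ] V)

/-- the first component of the perturbed map -/
def gg (E : V × P → V × P) (z : V × P) : V := Q z.1 + Λ z.2 z.1 + (E z).1

/-- the linearisation -/
def TT : V × P →L[ℝ] (V →L[ℝ] V) :=
  DQ.comp (ContinuousLinearMap.fst ℝ V P) + Λ.comp (ContinuousLinearMap.snd ℝ V P)

/-- the derivative of the first component -/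
def gg' (E : V × P → V × P) (z : V × P) : V × P →L[ℝ] V :=
  (DQ z.1).comp (ContinuousLinearMap.fst ℝ V P) + ((Λ z.2).comp (ContinuousLinearMap.fst ℝ V P) +
    (Λ.comp (ContinuousLinearMap.snd ℝ V P)).flip z.1) +
    (ContinuousLinearMap.fst ℝ V P).comp (fderiv ℝ E z)

variable {Q DQ Λ}

lemma gg'_apply (z v : V × P) :
    gg' DQ Λ E z v = DQ z.1 v.1 + (Λ z.2 v.1 + Λ v.2 z.1) + (fderiv ℝ E z v).1 := rfl

lemma hasFDerivAt_gg (hQ : IsQuad Q DQ) (h : Small ε E) (z : V × P) :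
    HasFDerivAt (gg Q Λ E) (gg' DQ Λ E z) z := by
  have h1 : HasFDerivAt (fun z : V × P => Q z.1) ((DQ z.1).comp (ContinuousLinearMap.fst ℝ V P)) z :=
    (hQ.hasFDerivAt z.1).comp z (ContinuousLinearMap.fst ℝ V P).hasFDerivAt
  have h2 : HasFDerivAt (fun z : V × P => Λ z.2) (Λ.comp (ContinuousLinearMap.snd ℝ V P)) z :=
    Λ.hasFDerivAt.comp z (ContinuousLinearMap.snd ℝ V P).hasFDerivAt
  have h3 : HasFDerivAt (fun z : V × P => z.1) (ContinuousLinearMap.fst ℝ V P) z :=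
    (ContinuousLinearMap.fst ℝ V P).hasFDerivAt
  exact (h1.add (h2.clm_apply h3)).add
    ((ContinuousLinearMap.fst ℝ V P).hasFDerivAt.comp z (h.hasFDerivAt z))

lemma contDiff_Q (hQ : IsQuad Q DQ) {n : WithTop ℕ∞} : ContDiff ℝ n Q := by
  have : Q = fun x => (1 / 2 : ℝ) • DQ x x := by
    funext x; exact hQ.half x
  rw [this]
  exact contDiff_const.smul (DQ.contDiff.clm_apply contDiff_id)

lemma contDiff_gg (hQ : IsQuad Q DQ) (h : Small ε E) : ContDiff ℝ 1 (gg Q Λ E) := by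
  unfold gg
  exact (((contDiff_Q hQ).comp contDiff_fst).add
    ((Λ.contDiff.comp contDiff_snd).clm_apply contDiff_fst)).add (contDiff_fst.comp h.smooth)

/-- The main estimate: the perturbed map is, in suitable coordinates, a family close to `Q`. -/
theorem near_of_small (hQ : IsQuad Q DQ) (h : Small ε E) (hε : ε ≤ 1 / 2)
    (Ψ : (V × P) ≃ₜ (V × P)) (hΨ : ∀ z, Ψ z = Phi E z) (hΨs : ContDiff ℝ 1 Ψ.symm) :
    Near Q DQ (TT DQ Λ) ((6 * ‖Λ‖ + 2) * ε) (fun w => gg Q Λ E (Ψ.symm w))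
      (fun w => (fderiv ℝ (fun w => gg Q Λ E (Ψ.symm w)) w).comp (ContinuousLinearMap.inl ℝ V P)) := by
  have hε0 : 0 ≤ ε := (norm_nonneg _).trans (h.c0 0)
  set f : V × P → V := fun w => gg Q Λ E (Ψ.symm w) with hf
  have hfs : ContDiff ℝ 1 f := (contDiff_gg hQ h).comp hΨs
  have hsym : ∀ w, (Ψ.symm w).1 = w.1 ∧ (Ψ.symm w).2 + (E (Ψ.symm w)).2 = w.2 := by
    intro w
    have h1 := hΨ (Ψ.symm w)
    rw [Homeomorph.apply_symm_apply] at h1
    have h2 := congrArg Prod.fst h1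
    have h3 := congrArg Prod.snd h1
    exact ⟨h2.symm, h3.symm⟩
  -- the derivative of `f`
  have key : ∀ (w : V × P) (v : V), ∃ α : P, α = -(fderiv ℝ E (Ψ.symm w) (v, α)).2 ∧
      ‖α‖ ≤ ε * ‖v‖ ∧ ((fderiv ℝ f w).comp (ContinuousLinearMap.inl ℝ V P)) v =
        DQ w.1 v + (Λ (Ψ.symm w).2 v + Λ α w.1) + (fderiv ℝ E (Ψ.symm w) (v, α)).1 := by
    intro w v
    set z := Ψ.symm w with hz
    have d1 : HasFDerivAt Ψ.symm (fderiv ℝ Ψ.symm w) w :=
      (hΨs.differentiable (by norm_num) w).hasFDerivAt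
    have d2 : HasFDerivAt (fun w => Phi E (Ψ.symm w)) ((Phi' E z).comp (fderiv ℝ Ψ.symm w)) w :=
      (hasFDerivAt_Phi h z).comp w d1
    have d3 : (fun w => Phi E (Ψ.symm w)) = id := by
      funext w
      rw [← hΨ, Homeomorph.apply_symm_apply]; rfl
    rw [d3] at d2
    have d4 := d2.unique (hasFDerivAt_id w)
    have d5 : Phi' E z (fderiv ℝ Ψ.symm w (v, 0)) = (v, 0) := by
      have := congrArg (fun L : V × P →L[ℝ] V × P => L (v, 0)) d4
      simpa using this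
    have d6 : HasFDerivAt f ((gg' DQ Λ E z).comp (fderiv ℝ Ψ.symm w)) w :=
      (hasFDerivAt_gg hQ h z).comp w d1
    rw [Phi'_apply] at d5
    have d7 : (fderiv ℝ Ψ.symm w (v, 0)).1 = v := congrArg Prod.fst d5
    have d8 : (fderiv ℝ Ψ.symm w (v, 0)).2 + (fderiv ℝ E z (fderiv ℝ Ψ.symm w (v, 0))).2 = 0 :=
      congrArg Prod.snd d5
    set α := (fderiv ℝ Ψ.symm w (v, 0)).2 with hα
    have d9 : fderiv ℝ Ψ.symm w (v, 0) = (v, α) := by
      ext
      · exact d7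
      · rfl
    rw [d9] at d8
    have hαeq : α = -(fderiv ℝ E z (v, α)).2 := eq_neg_of_add_eq_zero_left d8
    refine ⟨α, hαeq, ?_, ?_⟩
    · have e1 : ‖α‖ ≤ ε * ‖(v, α)‖ := by
        conv_lhs => rw [hαeq]
        rw [norm_neg]
        exact (norm_snd_le _).trans ((ContinuousLinearMap.le_opNorm _ _).trans
          (mul_le_mul_of_nonneg_right (h.c1 z) (norm_nonneg _)))
      rw [Prod.norm_def] at e1
      simp only at e1
      rcases le_total ‖α‖ ‖v‖ with e2 | e2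
      · rwa [max_eq_left e2] at e1
      · rw [max_eq_right e2] at e1
        have e3 : ε * ‖α‖ ≤ 1 / 2 * ‖α‖ := mul_le_mul_of_nonneg_right hε (norm_nonneg _)
        have e4 : ‖α‖ ≤ 0 := by linarith
        exact e4.trans (by positivity)
    · rw [d6.fderiv]
      show gg' DQ Λ E z (fderiv ℝ Ψ.symm w (v, 0)) = _
      rw [d9, gg'_apply]
      simp only
      rw [show z.1 = w.1 from (hsym w).1]
  have hEop : ∀ z v, ‖fderiv ℝ E z v‖ ≤ ε * ‖v‖ := fun z v =>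
    (ContinuousLinearMap.le_opNorm _ _).trans (mul_le_mul_of_nonneg_right (h.c1 z) (norm_nonneg _))
  have hpair : ∀ (v : V) (α : P), ‖α‖ ≤ ε * ‖v‖ → ‖((v, α) : V × P)‖ ≤ ‖v‖ := by
    intro v α hα
    rw [Prod.norm_def]
    refine max_le le_rfl (hα.trans ?_)
    calc ε * ‖v‖ ≤ 1 * ‖v‖ := mul_le_mul_of_nonneg_right (by linarith) (norm_nonneg _)
      _ = ‖v‖ := one_mul _
  refine ⟨hfs.continuous, ?_, ?_, ?_, ?_⟩
  · exact (hfs.continuous_fderiv (by norm_num)).clm_comp continuous_const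
  · intro x b
    have e1 : HasFDerivAt (fun x : V => (x, b)) (ContinuousLinearMap.inl ℝ V P) x := by
      have := (hasFDerivAt_id (𝕜 := ℝ) x).prodMk (hasFDerivAt_const (𝕜 := ℝ) b x)
      exact this
    exact ((hfs.differentiable (by norm_num) (x, b)).hasFDerivAt).comp x e1
  · intro x x' b hx hx'
    set z := Ψ.symm (x, b) with hz
    set z' := Ψ.symm (x', b) with hz'
    obtain ⟨hz1, hz2⟩ := hsym (x, b)
    obtain ⟨hz1', hz2'⟩ := hsym (x', b)
    rw [← hz] at hz1 hz2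
    rw [← hz'] at hz1' hz2'
    simp only at hz1 hz2 hz1' hz2'
    have hX := norm_nonneg (x' - x)
    -- `a' - a`
    have ha : z'.2 - z.2 = -(E z' - E z).2 := by
      have : z'.2 - z.2 = (z'.2 + (E z').2) - (z.2 + (E z).2) - ((E z').2 - (E z).2) := by abel
      rw [this, hz2, hz2', sub_self, zero_sub]
      rfl
    have hzz : ‖z' - z‖ ≤ ‖x' - x‖ ∧ ‖z'.2 - z.2‖ ≤ ε * ‖x' - x‖ := by
      have e1 : ‖z'.2 - z.2‖ ≤ ε * ‖z' - z‖ := by
        rw [ha, norm_neg]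
        exact (norm_snd_le _).trans (h.lipE z z')
      have e2 : ‖z' - z‖ = max ‖x' - x‖ ‖z'.2 - z.2‖ := by
        rw [Prod.norm_def, Prod.fst_sub, Prod.snd_sub, hz1, hz1']
      rcases le_total ‖z'.2 - z.2‖ ‖x' - x‖ with e3 | e3
      · rw [max_eq_left e3] at e2
        rw [e2] at e1 ⊢
        exact ⟨le_rfl, e1⟩
      · rw [max_eq_right e3] at e2
        rw [e2] at e1
        have e4 : ε * ‖z'.2 - z.2‖ ≤ 1 / 2 * ‖z'.2 - z.2‖ :=
          mul_le_mul_of_nonneg_right hε (norm_nonneg _)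
        have e5 : ‖z'.2 - z.2‖ ≤ 0 := by linarith [norm_nonneg (z'.2 - z.2)]
        exact ⟨by rw [e2]; exact e5.trans hX, e5.trans (by positivity)⟩
    refine ContinuousLinearMap.opNorm_le_bound _ (by positivity) fun v => ?_
    obtain ⟨α, hα1, hα2, hα3⟩ := key (x, b) v
    obtain ⟨α', hα1', hα2', hα3'⟩ := key (x', b) v
    rw [← hz] at hα1 hα3
    rw [← hz'] at hα1' hα3'
    simp only at hα3 hα3'
    have hv := norm_nonneg v
    have hE1 : ‖(fderiv ℝ E z' - fderiv ℝ E z) (v, α')‖ ≤ ε * (‖x' - x‖ * ‖v‖) := by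
      refine (ContinuousLinearMap.le_opNorm _ _).trans ?_
      calc ‖fderiv ℝ E z' - fderiv ℝ E z‖ * ‖(v, α')‖ ≤ (ε * ‖x' - x‖) * ‖v‖ := by
            refine mul_le_mul ((h.c2 z z').trans ?_) (hpair v α' hα2') (norm_nonneg _)
              (by positivity)
            exact mul_le_mul_of_nonneg_left hzz.1 hε0
        _ = _ := by ring
    have hsplit : fderiv ℝ E z' (v, α') - fderiv ℝ E z (v, α) =
        (fderiv ℝ E z' - fderiv ℝ E z) (v, α') + fderiv ℝ E z (0, α' - α) := by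
      have : ((0, α' - α) : V × P) = (v, α') - (v, α) := by ext <;> simp
      rw [this, map_sub, sub_apply]; abel
    have hE2 : ‖fderiv ℝ E z (0, α' - α)‖ ≤ ε * ‖α' - α‖ := by
      refine (hEop z _).trans ?_
      rw [norm_zero_pair]
    have hαα : ‖α' - α‖ ≤ 2 * ε * (‖x' - x‖ * ‖v‖) := by
      have e1 : α' - α = -(fderiv ℝ E z' (v, α') - fderiv ℝ E z (v, α)).2 := by
        conv_lhs => rw [hα1, hα1']
        rw [Prod.snd_sub]; abel
      have e2 : ‖α' - α‖ ≤ ε * (‖x' - x‖ * ‖v‖) + ε * ‖α' - α‖ := by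
        conv_lhs => rw [e1, norm_neg]
        refine (norm_snd_le _).trans ?_
        rw [hsplit]
        exact (norm_add_le _ _).trans (add_le_add hE1 hE2)
      have e3 : ε * ‖α' - α‖ ≤ 1 / 2 * ‖α' - α‖ := mul_le_mul_of_nonneg_right hε (norm_nonneg _)
      linarith
    have hfin : (((fderiv ℝ f (x', b)).comp (ContinuousLinearMap.inl ℝ V P)) -
        ((fderiv ℝ f (x, b)).comp (ContinuousLinearMap.inl ℝ V P)) - DQ (x' - x)) v =
        Λ (α' - α) x' + Λ α (x' - x) + Λ (z'.2 - z.2) v +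
          (fderiv ℝ E z' (v, α') - fderiv ℝ E z (v, α)).1 := by
      rw [sub_apply, sub_apply, hα3, hα3', Prod.fst_sub]
      simp only [map_sub, sub_apply]
      abel
    rw [hfin, hsplit]
    have k1 : ‖Λ (α' - α) x'‖ ≤ ‖Λ‖ * (2 * ε * (‖x' - x‖ * ‖v‖)) * 2 :=
      (Λ.le_opNorm₂ _ _).trans (by gcongr)
    have k2 : ‖Λ α (x' - x)‖ ≤ ‖Λ‖ * (ε * ‖v‖) * ‖x' - x‖ :=
      (Λ.le_opNorm₂ _ _).trans (by gcongr)
    have k3 : ‖Λ (z'.2 - z.2) v‖ ≤ ‖Λ‖ * (ε * ‖x' - x‖) * ‖v‖ :=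
      (Λ.le_opNorm₂ _ _).trans (by gcongr; exact hzz.2)
    have k4 : ‖((fderiv ℝ E z' - fderiv ℝ E z) (v, α') + fderiv ℝ E z (0, α' - α)).1‖ ≤
        ε * (‖x' - x‖ * ‖v‖) + ε * (‖x' - x‖ * ‖v‖) := by
      refine (norm_fst_le _).trans ((norm_add_le _ _).trans (add_le_add hE1 (hE2.trans ?_)))
      calc ε * ‖α' - α‖ ≤ ε * (2 * ε * (‖x' - x‖ * ‖v‖)) := by gcongr
        _ = 2 * ε * (ε * (‖x' - x‖ * ‖v‖)) := by ring
        _ ≤ 1 * (ε * (‖x' - x‖ * ‖v‖)) := by gcongr; linarith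
        _ = _ := one_mul _
    calc _ ≤ ‖Λ (α' - α) x'‖ + ‖Λ α (x' - x)‖ + ‖Λ (z'.2 - z.2) v‖ +
          ‖((fderiv ℝ E z' - fderiv ℝ E z) (v, α') + fderiv ℝ E z (0, α' - α)).1‖ :=
          (norm_add_le _ _).trans (add_le_add_left ((norm_add_le _ _).trans
            (add_le_add_left (norm_add_le _ _) _)) _)
      _ ≤ ‖Λ‖ * (2 * ε * (‖x' - x‖ * ‖v‖)) * 2 + ‖Λ‖ * (ε * ‖v‖) * ‖x' - x‖ +
          ‖Λ‖ * (ε * ‖x' - x‖) * ‖v‖ + (ε * (‖x' - x‖ * ‖v‖) + ε * (‖x' - x‖ * ‖v‖)) :=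
          add_le_add (add_le_add (add_le_add k1 k2) k3) k4
      _ = (6 * ‖Λ‖ + 2) * ε * ‖x' - x‖ * ‖v‖ := by ring
  · intro x b hx hb
    refine ContinuousLinearMap.opNorm_le_bound _ (by positivity) fun v => ?_
    obtain ⟨α, hα1, hα2, hα3⟩ := key (x, b) v
    set z := Ψ.symm (x, b) with hz
    obtain ⟨hz1, hz2⟩ := hsym (x, b)
    rw [← hz] at hz1 hz2
    simp only at hz1 hz2 hα3
    have hT : TT DQ Λ (x, b) v = DQ x v + Λ b v := rfl
    have ha : z.2 - b = -(E z).2 := by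
      rw [← hz2]; abel
    have hfin : ((fderiv ℝ f (x, b)).comp (ContinuousLinearMap.inl ℝ V P) - TT DQ Λ (x, b)) v =
        Λ (z.2 - b) v + Λ α x + (fderiv ℝ E z (v, α)).1 := by
      rw [sub_apply, hα3, hT]
      simp only [map_sub, sub_apply]
      abel
    rw [hfin]
    have hab : ‖z.2 - b‖ ≤ ε := by
      rw [ha, norm_neg]; exact (norm_snd_le _).trans (h.c0 z)
    have hv := norm_nonneg v
    have k1 : ‖Λ (z.2 - b) v‖ ≤ ‖Λ‖ * ε * ‖v‖ := (Λ.le_opNorm₂ _ _).trans (by gcongr)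
    have k2 : ‖Λ α x‖ ≤ ‖Λ‖ * (ε * ‖v‖) * 1 := (Λ.le_opNorm₂ _ _).trans (by gcongr)
    have k3 : ‖(fderiv ℝ E z (v, α)).1‖ ≤ ε * ‖v‖ :=
      (norm_fst_le _).trans ((hEop z _).trans (by gcongr; exact hpair v α hα2))
    calc _ ≤ ‖Λ (z.2 - b) v‖ + ‖Λ α x‖ + ‖(fderiv ℝ E z (v, α)).1‖ :=
          (norm_add_le _ _).trans (add_le_add_left (norm_add_le _ _) _)
      _ ≤ ‖Λ‖ * ε * ‖v‖ + ‖Λ‖ * (ε * ‖v‖) * 1 + ε * ‖v‖ := add_le_add (add_le_add k1 k2) k3
      _ = (2 * ‖Λ‖ + 1) * ε * ‖v‖ := by ring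
      _ ≤ (6 * ‖Λ‖ + 2) * ε * ‖v‖ := by
          have := norm_nonneg Λ
          gcongr
          · norm_num
          · norm_num

end

end Pool.Agent.H70.Afd
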