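import Pool.Agent.H70.Afd.Miranda

/-!
# A family of quadratic maps and the essential zero lemma
-/

open Set Filter Topology

namespace Pool.Agent.H70.Afd

noncomputable section

set_option linter.unusedSectionVars false

variable {d : ℕ} [NeZero d]

/-- the quadratic form with coefficients `U` -/
def qq (U : Fin d → Fin d → ℤ) (x : Fin d → ℝ) : ℝ := ∑ a, ∑ b, (U a b : ℝ) * (x a * x b)

/-- the gradient of `qq` -/
def LL (U : Fin d → Fin d → ℤ) (x : Fin d → ℝ) (a : Fin d) : ℝ :=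
  ∑ b, ((U a b : ℝ) + (U b a : ℝ)) * x b

/-- the quadratic map -/
def QQ (U : Fin d → Fin d → ℤ) (i1 : Fin d) (τ : ℝ) (x : Fin d → ℝ) : Fin d → ℝ := fun i =>
  if i = 0 then qq U x + τ * (x 0 * x i1) else x i ^ 2 - x 0 ^ 2

/-- the conormal vector at a base point -/
def nn (U : Fin d → Fin d → ℤ) (p : Fin d → ℝ) : Fin d → ℝ := fun i =>
  if i = 0 then 1 else -(1 / 2) * (p i * LL U p i)

/-- pairing -/
def dt (n v : Fin d → ℝ) : ℝ := ∑ i, n i * v i

lemma qq_add (U : Fin d → Fin d → ℤ) (x h : Fin d → ℝ) :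
    qq U (x + h) = qq U x + ∑ a, LL U x a * h a + qq U h := by
  have h1 : ∑ a, LL U x a * h a = (∑ a, ∑ b, (U a b : ℝ) * (h a * x b))
      + ∑ a, ∑ b, (U a b : ℝ) * (x a * h b) := by
    rw [Finset.sum_comm (f := fun a b => (U a b : ℝ) * (x a * h b)), ← Finset.sum_add_distrib]
    refine Finset.sum_congr rfl fun a _ => ?_
    rw [← Finset.sum_add_distrib, LL, Finset.sum_mul]
    refine Finset.sum_congr rfl fun b _ => ?_
    ring
  rw [h1]
  unfold qq
  rw [← Finset.sum_add_distrib, ← Finset.sum_add_distrib, ← Finset.sum_add_distrib]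
  refine Finset.sum_congr rfl fun a _ => ?_
  rw [← Finset.sum_add_distrib, ← Finset.sum_add_distrib, ← Finset.sum_add_distrib]
  refine Finset.sum_congr rfl fun b _ => ?_
  simp only [Pi.add_apply]
  ring

lemma qq_smul (U : Fin d → Fin d → ℤ) (s : ℝ) (x : Fin d → ℝ) :
    qq U (s • x) = s ^ 2 * qq U x := by
  unfold qq
  rw [Finset.mul_sum]
  refine Finset.sum_congr rfl fun a _ => ?_
  rw [Finset.mul_sum]
  refine Finset.sum_congr rfl fun b _ => ?_
  simp only [Pi.smul_apply, smul_eq_mul]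
  ring

lemma LL_smul (U : Fin d → Fin d → ℤ) (s : ℝ) (x : Fin d → ℝ) (a : Fin d) :
    LL U (s • x) a = s * LL U x a := by
  unfold LL
  rw [Finset.mul_sum]
  refine Finset.sum_congr rfl fun b _ => ?_
  simp only [Pi.smul_apply, smul_eq_mul]
  ring

lemma LL_add (U : Fin d → Fin d → ℤ) (x y : Fin d → ℝ) (a : Fin d) :
    LL U (x + y) a = LL U x a + LL U y a := by
  unfold LL
  rw [← Finset.sum_add_distrib]
  refine Finset.sum_congr rfl fun b _ => ?_
  simp only [Pi.add_apply]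
  ring

lemma dt_add (n v w : Fin d → ℝ) : dt n (v + w) = dt n v + dt n w := by
  unfold dt
  rw [← Finset.sum_add_distrib]
  refine Finset.sum_congr rfl fun b _ => ?_
  simp only [Pi.add_apply]
  ring

lemma dt_smul (n : Fin d → ℝ) (s : ℝ) (v : Fin d → ℝ) : dt n (s • v) = s * dt n v := by
  unfold dt
  rw [Finset.mul_sum]
  refine Finset.sum_congr rfl fun b _ => ?_
  simp only [Pi.smul_apply, smul_eq_mul]
  ring

lemma abs_dt_le {n : Fin d → ℝ} {K : ℝ} (hn : ∑ i, |n i| ≤ K) (v : Fin d → ℝ) :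
    |dt n v| ≤ K * ‖v‖ := by
  unfold dt
  calc |∑ i, n i * v i| ≤ ∑ i, |n i * v i| := Finset.abs_sum_le_sum_abs _ _
    _ ≤ ∑ i, |n i| * ‖v‖ := by
        refine Finset.sum_le_sum fun i _ => ?_
        rw [abs_mul]
        exact mul_le_mul_of_nonneg_left (norm_le_pi_norm v i) (abs_nonneg _)
    _ = (∑ i, |n i|) * ‖v‖ := by rw [Finset.sum_mul]
    _ ≤ K * ‖v‖ := mul_le_mul_of_nonneg_right hn (norm_nonneg _)

/-- the squares of the coordinates -/
def sqv (x : Fin d → ℝ) : Fin d → ℝ := fun i => x i ^ 2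

lemma norm_sqv_le (x : Fin d → ℝ) : ‖sqv x‖ ≤ ‖x‖ ^ 2 := by
  refine (pi_norm_le_iff_of_nonneg (by positivity)).2 fun i => ?_
  have h1 : |x i| ≤ ‖x‖ := norm_le_pi_norm x i
  rw [sqv, Real.norm_eq_abs, abs_pow]
  exact pow_le_pow_left₀ (abs_nonneg _) h1 2

lemma dt_QQ (U : Fin d → Fin d → ℤ) (i1 : Fin d) (τ : ℝ) (p ξ : Fin d → ℝ) (s : ℝ)
    (hp0 : p 0 = 1) (hp : ∀ i, p i ^ 2 = 1) (hq : qq U p = 0) (hξ : ξ 0 = 0) :
    dt (nn U p) (QQ U i1 τ (s • p + ξ)) =
      τ * (s ^ 2 * p i1 + s * ξ i1) + qq U ξ + dt (nn U p) (sqv ξ) := by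
  have h1 : ∀ i, nn U p i * QQ U i1 τ (s • p + ξ) i =
      (if i = 0 then qq U (s • p + ξ) + τ * (s * (s * p i1 + ξ i1)) else 0) +
      (-(s * (LL U p i * ξ i)) + nn U p i * sqv ξ i) := by
    intro i
    unfold nn QQ sqv
    by_cases hi : i = 0
    · simp only [hi, if_true, hξ, hp0, Pi.add_apply, Pi.smul_apply, smul_eq_mul]
      ring
    · simp only [hi, if_false, hξ, hp0, Pi.add_apply, Pi.smul_apply, smul_eq_mul]
      have := hp i
      linear_combination (-(1/2) * p i * LL U p i * s ^ 2 - s * LL U p i * ξ i) * this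
  unfold dt
  rw [Finset.sum_congr rfl fun i _ => h1 i, Finset.sum_add_distrib, Finset.sum_add_distrib,
    Finset.sum_ite_eq' Finset.univ (0 : Fin d), if_pos (Finset.mem_univ _), qq_add, qq_smul, hq,
    Finset.sum_neg_distrib, ← Finset.mul_sum]
  have h2 : ∑ a, LL U (s • p) a * ξ a = s * ∑ a, LL U p a * ξ a := by
    rw [Finset.mul_sum]
    refine Finset.sum_congr rfl fun a _ => ?_
    rw [LL_smul]; ring
  rw [h2]
  ring

lemma continuous_dt (n : Fin d → ℝ) : Continuous (dt n) := by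
  unfold dt
  fun_prop

/-- the box argument at one base point -/
lemma ez_box (U : Fin d → Fin d → ℤ) (i1 : Fin d) {τ : ℝ} (hτ : 0 < τ)
    {p : Fin d → ℝ}
    (hp0 : p 0 = 1) (hp : ∀ i, p i ^ 2 = 1) (hq : qq U p = 0) {K : ℝ} (hK : 0 ≤ K)
    (hKn : ∑ i, |nn U p i| ≤ K) (hKq : ∀ ξ, |qq U ξ| ≤ K * ‖ξ‖ ^ 2)
    {σ s₁ s₂ δ : ℝ} (hσ : σ ^ 2 = 1) (hs₁ : 0 < s₁) (hs : s₁ ≤ s₂) (hδ : 0 < δ)
    (A : (Fin d → ℝ) →L[ℝ] (Fin d → ℝ)) (c : Fin d → ℝ) {m : ℝ} (hm : 0 ≤ m)
    (f : (Fin d → ℝ) → (Fin d → ℝ)) (hfc : Continuous f)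
    (hf : ∀ x, ‖x‖ ≤ s₂ + δ → ‖f x - (QQ U i1 τ x + A x + c)‖ ≤ m)
    (hside : ∀ s, s₁ ≤ s → s ≤ s₂ → δ ^ 2 + ‖A‖ * (s + δ) + ‖c‖ + m < 2 * s * δ)
    (hlow : τ * s₁ ^ 2 + σ * s₁ * (p i1 * dt (nn U p) (A p)) + p i1 * dt (nn U p) c
      + (τ * s₁ * δ + K * (2 * δ ^ 2 + ‖A‖ * δ + m)) < 0)
    (hhigh : 0 < τ * s₂ ^ 2 + σ * s₂ * (p i1 * dt (nn U p) (A p)) + p i1 * dt (nn U p) c
      - (τ * s₂ * δ + K * (2 * δ ^ 2 + ‖A‖ * δ + m))) :
    ∃ x, ‖x‖ ≤ s₂ + δ ∧ f x = 0 := by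
  have habs : ∀ i, |p i| = 1 := fun i => by
    rw [← sq_eq_sq₀ (abs_nonneg _) zero_le_one, sq_abs, hp i]; norm_num
  have hσa : |σ| = 1 := by
    rw [← sq_eq_sq₀ (abs_nonneg _) zero_le_one, sq_abs, hσ]; norm_num
  have hs₂ : 0 < s₂ := hs₁.trans_le hs
  -- the parametrisation
  let ξ : (Fin d → ℝ) → (Fin d → ℝ) := fun u i => if i = 0 then 0 else u i
  let X : (Fin d → ℝ) → (Fin d → ℝ) := fun u => (σ * u 0) • p + ξ u
  have hξc : Continuous ξ := by
    refine continuous_pi fun i => ?_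
    by_cases hi : i = 0
    · simp only [ξ, hi, if_true]; exact continuous_const
    · simp only [ξ, hi, if_false]; exact continuous_apply i
  have hXc : Continuous X :=
    ((continuous_const.mul (continuous_apply 0)).smul continuous_const).add hξc
  have hξ0 : ∀ u, ξ u 0 = 0 := fun u => by simp [ξ]
  set lo : Fin d → ℝ := fun i => if i = 0 then s₁ else -δ with hlo
  set hi : Fin d → ℝ := fun i => if i = 0 then s₂ else δ with hhi
  let G : (Fin d → ℝ) → (Fin d → ℝ) := fun u i =>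
    if i = 0 then p i1 * dt (nn U p) (f (X u)) else σ * p i * f (X u) i
  have hGc : Continuous G := by
    refine continuous_pi fun i => ?_
    by_cases hi : i = 0
    · simp only [G, hi, if_true]
      exact continuous_const.mul ((continuous_dt _).comp (hfc.comp hXc))
    · simp only [G, hi, if_false]
      exact continuous_const.mul ((continuous_apply i).comp (hfc.comp hXc))
  -- bounds in the box
  have hbox : ∀ u, (∀ i, lo i ≤ u i ∧ u i ≤ hi i) →
      s₁ ≤ u 0 ∧ u 0 ≤ s₂ ∧ ‖ξ u‖ ≤ δ ∧ ‖X u‖ ≤ u 0 + δ := by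
    intro u hu
    have h0 := hu 0
    simp only [hlo, hhi, if_true] at h0
    have hu0 : 0 < u 0 := hs₁.trans_le h0.1
    have h1 : ‖ξ u‖ ≤ δ := by
      refine (pi_norm_le_iff_of_nonneg hδ.le).2 fun i => ?_
      by_cases h : i = 0
      · simp [ξ, h, hδ.le]
      · have h2 := hu i
        simp only [hlo, hhi, h, if_false] at h2
        simp only [ξ, h, if_false, Real.norm_eq_abs]
        exact abs_le.2 h2
    refine ⟨h0.1, h0.2, h1, ?_⟩
    refine (norm_add_le _ _).trans (add_le_add ?_ h1)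
    rw [norm_smul, Real.norm_eq_abs, abs_mul, hσa, one_mul, abs_of_pos hu0]
    have h2 : ‖p‖ ≤ 1 := (pi_norm_le_iff_of_nonneg zero_le_one).2 fun i => by
      rw [Real.norm_eq_abs, habs]
    calc u 0 * ‖p‖ ≤ u 0 * 1 := mul_le_mul_of_nonneg_left h2 hu0.le
      _ = u 0 := mul_one _
  have herr : ∀ u, (∀ i, lo i ≤ u i ∧ u i ≤ hi i) →
      ‖f (X u) - (QQ U i1 τ (X u) + A (X u) + c)‖ ≤ m := by
    intro u hu
    obtain ⟨h1, h2, h3, h4⟩ := hbox u hu
    exact hf _ (h4.trans (by linarith))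
  -- the side faces
  have hside' : ∀ u, (∀ i, lo i ≤ u i ∧ u i ≤ hi i) → ∀ i, i ≠ 0 →
      |G u i - 2 * u 0 * u i| < 2 * u 0 * δ := by
    intro u hu i hi0
    obtain ⟨h1, h2, h3, h4⟩ := hbox u hu
    have hu0 : 0 < u 0 := hs₁.trans_le h1
    have e1 := herr u hu
    set E := f (X u) - (QQ U i1 τ (X u) + A (X u) + c) with hE
    have e2 : f (X u) i = QQ U i1 τ (X u) i + A (X u) i + c i + E i := by
      rw [hE]; simp only [Pi.sub_apply, Pi.add_apply]; ring
    have e3 : QQ U i1 τ (X u) i = 2 * (σ * u 0) * p i * u i + u i ^ 2 := by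
      simp only [QQ, hi0, if_false, X, ξ, Pi.add_apply, Pi.smul_apply, smul_eq_mul, if_true, hp0]
      linear_combination (σ * u 0) ^ 2 * hp i
    have e4 : G u i - 2 * u 0 * u i = σ * p i * (u i ^ 2 + A (X u) i + c i + E i) := by
      simp only [G, hi0, if_false]
      rw [e2, e3]
      linear_combination (2 * u 0 * u i * p i ^ 2) * hσ + (2 * u 0 * u i) * hp i
    rw [e4, abs_mul, abs_mul, hσa, habs, one_mul, one_mul]
    have k1 : |u i ^ 2| ≤ δ ^ 2 := by
      have h5 := hu i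
      simp only [hlo, hhi, hi0, if_false] at h5
      rw [abs_pow]
      exact pow_le_pow_left₀ (abs_nonneg _) (abs_le.2 h5) 2
    have k2 : |A (X u) i| ≤ ‖A‖ * (u 0 + δ) :=
      (norm_le_pi_norm (A (X u)) i).trans ((A.le_opNorm _).trans
        (mul_le_mul_of_nonneg_left h4 (norm_nonneg _)))
    have k3 : |c i| ≤ ‖c‖ := norm_le_pi_norm c i
    have k4 : |E i| ≤ m := (norm_le_pi_norm E i).trans e1
    have k5 := hside (u 0) h1 h2
    calc |u i ^ 2 + A (X u) i + c i + E i| ≤ |u i ^ 2 + A (X u) i + c i| + |E i| := abs_add_le _ _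
      _ ≤ |u i ^ 2 + A (X u) i| + |c i| + |E i| := by gcongr; exact abs_add_le _ _
      _ ≤ |u i ^ 2| + |A (X u) i| + |c i| + |E i| := by gcongr; exact abs_add_le _ _
      _ < 2 * u 0 * δ := by linarith
  -- the main equation
  have hmain : ∀ u, (∀ i, lo i ≤ u i ∧ u i ≤ hi i) →
      |G u 0 - (τ * u 0 ^ 2 + σ * u 0 * (p i1 * dt (nn U p) (A p)) + p i1 * dt (nn U p) c)| ≤
        τ * u 0 * δ + K * (2 * δ ^ 2 + ‖A‖ * δ + m) := by
    intro u hu
    obtain ⟨h1, h2, h3, h4⟩ := hbox u hu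
    have hu0 : 0 < u 0 := hs₁.trans_le h1
    have e1 := herr u hu
    set E := f (X u) - (QQ U i1 τ (X u) + A (X u) + c) with hE
    have e2 : f (X u) = QQ U i1 τ (X u) + A (X u) + c + E := by rw [hE]; abel
    have e3 : A (X u) = (σ * u 0) • A p + A (ξ u) := by
      simp only [X, map_add, map_smul]
    have e4 := dt_QQ U i1 τ p (ξ u) (σ * u 0) hp0 hp hq (hξ0 u)
    have hξ1 : |ξ u i1| ≤ δ := (norm_le_pi_norm (ξ u) i1).trans h3
    have e5 : G u 0 - (τ * u 0 ^ 2 + σ * u 0 * (p i1 * dt (nn U p) (A p)) + p i1 * dt (nn U p) c)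
        = τ * (u 0 * (σ * p i1 * ξ u i1)) + p i1 * (qq U (ξ u) + dt (nn U p) (sqv (ξ u))
          + dt (nn U p) (A (ξ u)) + dt (nn U p) E) := by
      have e6 : G u 0 = p i1 * dt (nn U p) (f (X u)) := by simp only [G, if_true]
      rw [e6, e2, dt_add, dt_add, dt_add, e3, dt_add, dt_smul]
      have e7 : dt (nn U p) (QQ U i1 τ (X u)) = _ := e4
      rw [e7]
      linear_combination (τ * u 0 ^ 2 * p i1 ^ 2) * hσ + (τ * u 0 ^ 2) * hp i1
    rw [e5]
    have k1 : |τ * (u 0 * (σ * p i1 * ξ u i1))| ≤ τ * u 0 * δ := by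
      rw [abs_mul, abs_mul, abs_mul, abs_mul, hσa, habs, abs_of_pos hτ, abs_of_pos hu0, one_mul,
        one_mul, mul_assoc]
      exact mul_le_mul_of_nonneg_left (mul_le_mul_of_nonneg_left hξ1 hu0.le) hτ.le
    have hξsq : ‖ξ u‖ ^ 2 ≤ δ ^ 2 := pow_le_pow_left₀ (norm_nonneg _) h3 2
    have k2 : |qq U (ξ u)| ≤ K * δ ^ 2 := (hKq _).trans (mul_le_mul_of_nonneg_left hξsq hK)
    have k3 : |dt (nn U p) (sqv (ξ u))| ≤ K * δ ^ 2 :=
      (abs_dt_le hKn _).trans (mul_le_mul_of_nonneg_left ((norm_sqv_le _).trans hξsq) hK)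
    have k4 : |dt (nn U p) (A (ξ u))| ≤ K * (‖A‖ * δ) :=
      (abs_dt_le hKn _).trans (mul_le_mul_of_nonneg_left ((A.le_opNorm _).trans
        (mul_le_mul_of_nonneg_left h3 (norm_nonneg _))) hK)
    have k5 : |dt (nn U p) E| ≤ K * m :=
      (abs_dt_le hKn _).trans (mul_le_mul_of_nonneg_left e1 hK)
    have k6 : |p i1 * (qq U (ξ u) + dt (nn U p) (sqv (ξ u))
          + dt (nn U p) (A (ξ u)) + dt (nn U p) E)| ≤ K * (2 * δ ^ 2 + ‖A‖ * δ + m) := by
      rw [abs_mul, habs, one_mul]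
      calc _ ≤ |qq U (ξ u) + dt (nn U p) (sqv (ξ u)) + dt (nn U p) (A (ξ u))|
            + |dt (nn U p) E| := abs_add_le _ _
        _ ≤ |qq U (ξ u) + dt (nn U p) (sqv (ξ u))| + |dt (nn U p) (A (ξ u))|
            + |dt (nn U p) E| := by gcongr; exact abs_add_le _ _
        _ ≤ |qq U (ξ u)| + |dt (nn U p) (sqv (ξ u))| + |dt (nn U p) (A (ξ u))|
            + |dt (nn U p) E| := by gcongr; exact abs_add_le _ _
        _ ≤ K * (2 * δ ^ 2 + ‖A‖ * δ + m) := by linarith
    exact (abs_add_le _ _).trans (add_le_add k1 k6)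
  obtain ⟨u, hu, hGu⟩ := miranda G hGc lo hi
    (by
      intro i
      by_cases h : i = 0
      · simp only [hlo, hhi, h, if_true]; exact hs
      · simp only [hlo, hhi, h, if_false]; linarith)
    (by
      intro u hu i hui
      by_cases h : i = 0
      · subst h
        simp only [hlo, if_true] at hui
        have := hmain u hu
        rw [hui] at this
        have h2 := (abs_le.1 this).2
        linarith
      · simp only [hlo, h, if_false] at hui
        have := hside' u hu i h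
        rw [hui] at this
        have h2 := (abs_lt.1 this).2
        linarith)
    (by
      intro u hu i hui
      by_cases h : i = 0
      · subst h
        simp only [hhi, if_true] at hui
        have := hmain u hu
        rw [hui] at this
        have h2 := (abs_le.1 this).1
        linarith
      · simp only [hhi, h, if_false] at hui
        have := hside' u hu i h
        rw [hui] at this
        have h2 := (abs_lt.1 this).1
        linarith)
  obtain ⟨h1, h2, h3, h4⟩ := hbox u hu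
  refine ⟨X u, h4.trans (by linarith), ?_⟩
  have hσ0 : σ ≠ 0 := by
    rintro rfl; norm_num at hσ
  have hpi : ∀ i, p i ≠ 0 := by
    intro i h; have := hp i; rw [h] at this; norm_num at this
  have hz : ∀ i, i ≠ 0 → f (X u) i = 0 := by
    intro i hi0
    have h5 : G u i = 0 := congrFun hGu i
    simp only [G, hi0, if_false] at h5
    exact (mul_eq_zero.1 h5).resolve_left (mul_ne_zero hσ0 (hpi i))
  have hz0 : f (X u) 0 = 0 := by
    have h5 : G u 0 = 0 := congrFun hGu 0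
    simp only [G, if_true] at h5
    have h6 : dt (nn U p) (f (X u)) = 0 := (mul_eq_zero.1 h5).resolve_left (hpi i1)
    unfold dt at h6
    rw [Finset.sum_eq_single (0 : Fin d) (fun i _ hi0 => by rw [hz i hi0, mul_zero])
      (fun h => absurd (Finset.mem_univ _) h)] at h6
    simpa [nn] using h6
  funext i
  by_cases h : i = 0
  · rw [h]; exact hz0
  · exact hz i h

end

end Pool.Agent.H70.Afd
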